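import Mathlib
import Pool.Agent.H798R3.MG.Defs

set_option autoImplicit false

/-! Relations between the handle elements: chain of handles with exchange elements. -/

namespace Pool.Agent.TH35.MG

open Pool.Agent.H798R3.MG

section
variable {G : Type*} [Group G]

/-- `a b a` -/
def Rw (a b : G) : G := a * b * a

/-- `(a b a)^4` -/
def Qw (a b : G) : G := (Rw a b * Rw a b) * (Rw a b * Rw a b)

/-- the Garside element of a chain of length five -/
def Sw (a b t b' a' : G) : G :=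
  (a * b * t * b' * a') * (a * b * t * b') * (a * b * t) * (a * b) * a

/-- exchange of the handles `i` and `i + 1` -/
def Ss (A B T : ℕ → G) (i : ℕ) : G := Sw (A i) (B i) (T i) (B (i + 1)) (A (i + 1))

/-- the twist about a band sum of `a_i` and `a_{i+2}` -/
def Dd (A B T : ℕ → G) (i : ℕ) : G :=
  (Ss A B T (i + 1))⁻¹ * (Qw (A (i + 1)) (B (i + 1)) * T i * (Qw (A (i + 1)) (B (i + 1)))⁻¹) *
    Ss A B T (i + 1)

/-- the element of the lantern relation -/
def Ll (A B T : ℕ → G) (i : ℕ) : G :=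
  T i * T (i + 1) * Dd A B T i * (A i * A (i + 1) * A (i + 2))⁻¹

/-- the relations between the handle elements -/
structure HRel (N : ℕ) (A B al be T : ℕ → G) (tau : G) : Prop where
  braidAB : ∀ i < N, A i * B i * A i = B i * A i * B i
  commAA : ∀ i < N, ∀ j < N, Commute (A i) (A j)
  commAB : ∀ i < N, ∀ j < N, i ≠ j → Commute (A i) (B j)
  commBB : ∀ i < N, ∀ j < N, Commute (B i) (B j)
  commAal : ∀ i < N, ∀ j < N, Commute (A i) (al j)
  commAbe : ∀ i < N, ∀ j < N, i ≠ j → Commute (A i) (be j)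
  commBal : ∀ i < N, ∀ j < N, i ≠ j → Commute (B i) (al j)
  commBbe : ∀ i < N, ∀ j < N, Commute (B i) (be j)
  A_be : ∀ i < N, A i * be i * (A i)⁻¹ = be i * al i
  B_al : ∀ i < N, B i * al i * (B i)⁻¹ = al i * (be i)⁻¹
  commTA : ∀ i, i + 1 < N → ∀ m < N, Commute (T i) (A m)
  commTB : ∀ i, i + 1 < N → ∀ m < N, m ≠ i → m ≠ i + 1 → Commute (T i) (B m)
  commTal : ∀ i, i + 1 < N → ∀ m < N, m ≠ i → m ≠ i + 1 → Commute (T i) (al m)
  commTbe : ∀ i, i + 1 < N → ∀ m < N, m ≠ i → m ≠ i + 1 → Commute (T i) (be m)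
  braidTBi : ∀ i, i + 1 < N → T i * B i * T i = B i * T i * B i
  braidTBj : ∀ i, i + 1 < N → T i * B (i + 1) * T i = B (i + 1) * T i * B (i + 1)
  T_al_i : ∀ i, i + 1 < N → T i * al i * (T i)⁻¹ =
    (UU (dl al be i) (al i) (al (i + 1)))⁻¹ * al i * UU (dl al be i) (al i) (al (i + 1))
  T_be_i : ∀ i, i + 1 < N → T i * be i * (T i)⁻¹ =
    be i * UU (dl al be i) (al i) (al (i + 1)) * tau
  T_al_j : ∀ i, i + 1 < N → T i * al (i + 1) * (T i)⁻¹ =
    (WW (dl al be i) (al i) (al (i + 1)))⁻¹ * al (i + 1) *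
      WW (dl al be i) (al i) (al (i + 1))
  T_be_j : ∀ i, i + 1 < N → T i * be (i + 1) * (T i)⁻¹ =
    be (i + 1) * WW (dl al be i) (al i) (al (i + 1)) * tau
  commTT : ∀ i j, i + 1 < j → j + 1 < N → Commute (T i) (T j)
  sA : ∀ i, i + 1 < N → Ss A B T i * A i = A (i + 1) * Ss A B T i
  sA' : ∀ i, i + 1 < N → Ss A B T i * A (i + 1) = A i * Ss A B T i
  sB : ∀ i, i + 1 < N → Ss A B T i * B i = B (i + 1) * Ss A B T i
  sB' : ∀ i, i + 1 < N → Ss A B T i * B (i + 1) = B i * Ss A B T i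
  sal : ∀ i, i + 1 < N → Ss A B T i * al i = al (i + 1) * Ss A B T i
  sbe : ∀ i, i + 1 < N → Ss A B T i * be i = be (i + 1) * Ss A B T i
  dd2 : ∀ i, i + 2 < N → Qw (A i) (B i) * Dd A B T i =
    Ss A B T i * T (i + 1) * (Ss A B T i)⁻¹ * Qw (A i) (B i)
  lantern : ∀ i, i + 2 < N → Ll A B T i * B i * Ll A B T i = B i * Ll A B T i * B i
  tauA : ∀ i < N, Commute tau (A i)
  tauB : ∀ i < N, Commute tau (B i)
  tauAl : ∀ i < N, Commute tau (al i)
  tauBe : ∀ i < N, Commute tau (be i)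
  tauT : ∀ i, i + 1 < N → Commute tau (T i)

/-- the set of all the handle elements -/
def allH (N : ℕ) (A B al be T : ℕ → G) (tau : G) : Set G :=
  {x | (∃ i < N, x = A i ∨ x = B i ∨ x = al i ∨ x = be i) ∨
    (∃ i, i + 1 < N ∧ x = T i) ∨ x = tau}

end

end Pool.Agent.TH35.MG
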