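import Mathlib
import Pool.Agent.H798R3.MG.RepW
import Pool.Agent.TH35.MG.HDefs

set_option autoImplicit false

/-! The exchange relations in windows. -/

namespace Pool.Agent.TH35.MG

open Pool.Agent.H798R3.MG Pool.Agent.H29R2.MG

section
variable {g N n p0 p1 p2 p3 : ℕ}

theorem okT' (H : WHyp) (c : Ctx g N n) {i j : ℕ} (h : i < j) (h2 : j ≤ i + 2) (hj : j < N) :
    OrOK g (hT g i j) (hT' g i j) :=
  (H.k g N n c.h2 c.hN c.hg).2.2 i j h h2 hj

theorem RR_T02' (H : WHyp) (c : Ctx g N n) (hw : Win g n p0 p1 p2 p3) (h : p1 = p0 + 1)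
    (h' : p2 = p1 + 1) (hk : p2 < N) :
    RR g n p0 p1 p2 p3 (sT g p0 p2) (dT2 0, dT2' 0) :=
  RR_of (okT' H c (by omega) (by omega) hk) rfl ((H.w3 hw).2.2.2.1 h h').1
    ((H.w3 hw).2.2.2.1 h h').2

/-- the exchange relations -/
theorem s_rel (H : WHyp) (c : Ctx g N n) (i : ℕ) (hj : i + 1 < N) :
    (Sw (sA g i) (sB g i) (sT g i (i + 1)) (sB g (i + 1)) (sA g (i + 1)) * sA g i =
      sA g (i + 1) * Sw (sA g i) (sB g i) (sT g i (i + 1)) (sB g (i + 1)) (sA g (i + 1))) ∧
    (Sw (sA g i) (sB g i) (sT g i (i + 1)) (sB g (i + 1)) (sA g (i + 1)) * sA g (i + 1) =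
      sA g i * Sw (sA g i) (sB g i) (sT g i (i + 1)) (sB g (i + 1)) (sA g (i + 1))) ∧
    (Sw (sA g i) (sB g i) (sT g i (i + 1)) (sB g (i + 1)) (sA g (i + 1)) * sB g i =
      sB g (i + 1) * Sw (sA g i) (sB g i) (sT g i (i + 1)) (sB g (i + 1)) (sA g (i + 1))) ∧
    (Sw (sA g i) (sB g i) (sT g i (i + 1)) (sB g (i + 1)) (sA g (i + 1)) * sB g (i + 1) =
      sB g i * Sw (sA g i) (sB g i) (sT g i (i + 1)) (sB g (i + 1)) (sA g (i + 1))) ∧
    (Sw (sA g i) (sB g i) (sT g i (i + 1)) (sB g (i + 1)) (sA g (i + 1)) * sal g n i =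
      sal g n (i + 1) * Sw (sA g i) (sB g i) (sT g i (i + 1)) (sB g (i + 1)) (sA g (i + 1))) ∧
    (Sw (sA g i) (sB g i) (sT g i (i + 1)) (sB g (i + 1)) (sA g (i + 1)) * sbe g n i =
      sbe g n (i + 1) *
        Sw (sA g i) (sB g i) (sT g i (i + 1)) (sB g (i + 1)) (sA g (i + 1))) := by
  have c2 := c.h2
  have c3 := c.hN
  have c4 := c.hg
  have hw : Win g n i (i + 1) (i + 2) (i + 3) :=
    ⟨by omega, by omega, by omega, by omega, c.hg⟩
  have hi : i < N := by omega
  have a := RR_A H c hw 0 hi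
  have b := RR_B H c hw 0 hi
  have x := RR_al H c hw 0 hi
  have y := RR_be H c hw 0 hi
  have a' := RR_A H c hw 1 hj
  have b' := RR_B H c hw 1 hj
  have x' := RR_al H c hw 1 hj
  have y' := RR_be H c hw 1 hj
  have T := RR_T01 H c hw rfl hj
  simp only [Matrix.cons_val_one, Matrix.cons_val_zero] at a b x y a' b' x' y'
  simp only [Sw]
  refine ⟨?_, ?_, ?_, ?_, ?_, ?_⟩ <;>
      (apply RR.eq H hw true false false
       · intro _; rfl
       · intro h; cases h
       · intro h; cases h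
       · repeat' first | assumption | apply RR.mul H hw
       · repeat' first | assumption | apply RR.mul H hw
       · decide +kernel)

/-- the twist `T i (i + 2)`, first expression -/
theorem d_rel1 (H : WHyp) (c : Ctx g N n) (i : ℕ) (hj : i + 2 < N) :
    Sw (sA g (i + 1)) (sB g (i + 1)) (sT g (i + 1) (i + 2)) (sB g (i + 2)) (sA g (i + 2)) *
      sT g i (i + 2) * Qw (sA g (i + 1)) (sB g (i + 1)) =
    Qw (sA g (i + 1)) (sB g (i + 1)) * sT g i (i + 1) * (Qw (sA g (i + 1)) (sB g (i + 1)))⁻¹ *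
      Sw (sA g (i + 1)) (sB g (i + 1)) (sT g (i + 1) (i + 2)) (sB g (i + 2)) (sA g (i + 2)) *
      Qw (sA g (i + 1)) (sB g (i + 1)) := by
  have c2 := c.h2
  have c3 := c.hN
  have c4 := c.hg
  have hw : Win g n i (i + 1) (i + 2) (i + 3) :=
    ⟨by omega, by omega, by omega, by omega, c.hg⟩
  have hi : i < N := by omega
  have hi' : i + 1 < N := by omega
  have a := RR_A H c hw 0 hi
  have b := RR_B H c hw 0 hi
  have a' := RR_A H c hw 1 hi'
  have b' := RR_B H c hw 1 hi'
  have a'' := RR_A H c hw 2 hj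
  have b'' := RR_B H c hw 2 hj
  have D := RR_T02' H c hw rfl rfl hj
  have T1 := RR_T01 H c hw rfl hi'
  have T2 := RR_T12 H c hw rfl hj
  simp only [Matrix.cons_val_one, Matrix.cons_val_zero,
    show (![i, i + 1, i + 2, i + 3] 2) = i + 2 from rfl] at a b a' b' a'' b''
  simp only [Sw, Qw, Rw]
  apply RR.eq H hw true true false
  · intro _; rfl
  · intro _; rfl
  · intro h; cases h
  · repeat' first | assumption | apply RR.mul H hw | apply RR.inv
  · repeat' first | assumption | apply RR.mul H hw | apply RR.inv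
  · decide +kernel

/-- the twist `T i (i + 2)`, second expression -/
theorem d_rel2 (H : WHyp) (c : Ctx g N n) (i : ℕ) (hj : i + 2 < N) :
    Qw (sA g i) (sB g i) * sT g i (i + 2) * (Qw (sA g i) (sB g i))⁻¹ *
      Sw (sA g i) (sB g i) (sT g i (i + 1)) (sB g (i + 1)) (sA g (i + 1)) =
    Sw (sA g i) (sB g i) (sT g i (i + 1)) (sB g (i + 1)) (sA g (i + 1)) *
      sT g (i + 1) (i + 2) := by
  have c2 := c.h2
  have c3 := c.hN
  have c4 := c.hg
  have hw : Win g n i (i + 1) (i + 2) (i + 3) :=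
    ⟨by omega, by omega, by omega, by omega, c.hg⟩
  have hi : i < N := by omega
  have hi' : i + 1 < N := by omega
  have a := RR_A H c hw 0 hi
  have b := RR_B H c hw 0 hi
  have a' := RR_A H c hw 1 hi'
  have b' := RR_B H c hw 1 hi'
  have a'' := RR_A H c hw 2 hj
  have b'' := RR_B H c hw 2 hj
  have D := RR_T02' H c hw rfl rfl hj
  have T1 := RR_T01 H c hw rfl hi'
  have T2 := RR_T12 H c hw rfl hj
  simp only [Matrix.cons_val_one, Matrix.cons_val_zero,
    show (![i, i + 1, i + 2, i + 3] 2) = i + 2 from rfl] at a b a' b' a'' b''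
  simp only [Sw, Qw, Rw]
  apply RR.eq H hw true true false
  · intro _; rfl
  · intro _; rfl
  · intro h; cases h
  · repeat' first | assumption | apply RR.mul H hw | apply RR.inv
  · repeat' first | assumption | apply RR.mul H hw | apply RR.inv
  · decide +kernel

theorem lantern_rel' (H : WHyp) (c : Ctx g N n) (i : ℕ) (hj : i + 2 < N) :
    (sT g i (i + 1) * sT g (i + 1) (i + 2) * sT g i (i + 2) *
        (sA g i * sA g (i + 1) * sA g (i + 2))⁻¹) * sB g i *
      (sT g i (i + 1) * sT g (i + 1) (i + 2) * sT g i (i + 2) *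
        (sA g i * sA g (i + 1) * sA g (i + 2))⁻¹) =
    sB g i * (sT g i (i + 1) * sT g (i + 1) (i + 2) * sT g i (i + 2) *
        (sA g i * sA g (i + 1) * sA g (i + 2))⁻¹) * sB g i := by
  have c2 := c.h2
  have c3 := c.hN
  have c4 := c.hg
  have hw : Win g n i (i + 1) (i + 2) (i + 3) :=
    ⟨by omega, by omega, by omega, by omega, c.hg⟩
  have hi : i < N := by omega
  have hi' : i + 1 < N := by omega
  have a := RR_A H c hw 0 hi
  have b := RR_B H c hw 0 hi
  have a' := RR_A H c hw 1 hi'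
  have a'' := RR_A H c hw 2 hj
  have T := RR_T02' H c hw rfl rfl hj
  have T1 := RR_T01 H c hw rfl hi'
  have T2 := RR_T12 H c hw rfl hj
  simp only [Matrix.cons_val_one, Matrix.cons_val_zero,
    show (![i, i + 1, i + 2, i + 3] 2) = i + 2 from rfl] at a b a' a''
  apply RR.eq H hw true true false
  · intro _; rfl
  · intro _; rfl
  · intro h; cases h
  · repeat' first | assumption | apply RR.mul H hw | apply RR.inv
  · repeat' first | assumption | apply RR.mul H hw | apply RR.inv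
  · decide +kernel

end

end Pool.Agent.TH35.MG
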