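import Mathlib
import Pool.Agent.H798R3.MG.R3
import Pool.Agent.TH35.MG.Rel

set_option autoImplicit false

/-! The relations `HRel` in `orSub g`. -/

namespace Pool.Agent.TH35.MG

open Pool.Agent.H798R3.MG Pool.Agent.H29R2.MG

section
variable {g N n : ℕ}

theorem qw_comm {G : Type*} [Group G] {a b : G} (h : a * b * a = b * a * b) :
    Commute (Qw a b) a ∧ Commute (Qw a b) b := by
  have h1 : Rw a b * a = b * Rw a b := by
    unfold Rw
    calc a * b * a * a = (b * a * b) * a := by rw [h]
      _ = b * (a * b * a) := by group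
  have h2 : Rw a b * b = a * Rw a b := by
    unfold Rw
    calc a * b * a * b = a * (b * a * b) := by group
      _ = a * (a * b * a) := by rw [h]
  have h3 : Commute (Rw a b * Rw a b) a := by
    show Rw a b * Rw a b * a = a * (Rw a b * Rw a b)
    rw [mul_assoc, h1, ← mul_assoc, h2, mul_assoc]
  have h4 : Commute (Rw a b * Rw a b) b := by
    show Rw a b * Rw a b * b = b * (Rw a b * Rw a b)
    rw [mul_assoc, h2, ← mul_assoc, h1, mul_assoc]
  exact ⟨h3.mul_left h3, h4.mul_left h4⟩

/-- `T i (i + 2)` as a word in the other generators -/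
theorem d_eq (H : WHyp) (c : Ctx g N n) (i : ℕ) (hj : i + 2 < N) :
    Dd (sA g) (sB g) (fun i => sT g i (i + 1)) i = sT g i (i + 2) := by
  have h1 := d_rel1 H c i hj
  have h2 := mul_right_cancel h1
  unfold Dd Ss
  rw [show i + 1 + 1 = i + 2 from rfl]
  have h3 : sT g i (i + 2) =
      (Sw (sA g (i + 1)) (sB g (i + 1)) (sT g (i + 1) (i + 2)) (sB g (i + 2)) (sA g (i + 2)))⁻¹ *
        (Sw (sA g (i + 1)) (sB g (i + 1)) (sT g (i + 1) (i + 2)) (sB g (i + 2))
          (sA g (i + 2)) * sT g i (i + 2)) := by group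
  rw [h3, h2]
  group

theorem h_rel (H : WHyp) (c : Ctx g N n) :
    HRel N (sA g) (sB g) (sal g n) (sbe g n) (fun i => sT g i (i + 1)) (stau g n) := by
  have h := handle_rel H c
  exact
  { braidAB := h.braidAB
    commAA := h.commAA
    commAB := h.commAB
    commBB := h.commBB
    commAal := h.commAal
    commAbe := h.commAbe
    commBal := h.commBal
    commBbe := h.commBbe
    A_be := h.A_be
    B_al := h.B_al
    commTA := fun i hi m hm => h.commTA i (i + 1) (Or.inl rfl) hi m hm
    commTB := fun i hi m hm h1 h2 => h.commTB i (i + 1) (Or.inl rfl) hi m hm h1 h2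
    commTal := fun i hi m hm h1 h2 => h.commTal i (i + 1) (Or.inl rfl) hi m hm h1 h2
    commTbe := fun i hi m hm h1 h2 => h.commTbe i (i + 1) (Or.inl rfl) hi m hm h1 h2
    braidTBi := fun i hi => h.braidTBi i (i + 1) (Or.inl rfl) hi
    braidTBj := fun i hi => h.braidTBj i (i + 1) (Or.inl rfl) hi
    T_al_i := h.T1_al_i
    T_be_i := h.T1_be_i
    T_al_j := h.T1_al_j
    T_be_j := h.T1_be_j
    commTT := fun i j hij hj =>
      h.commTT i (i + 1) j (j + 1) (Or.inl rfl) (Or.inl rfl) hij hj
    sA := fun i hi => (s_rel H c i hi).1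
    sA' := fun i hi => (s_rel H c i hi).2.1
    sB := fun i hi => (s_rel H c i hi).2.2.1
    sB' := fun i hi => (s_rel H c i hi).2.2.2.1
    sal := fun i hi => (s_rel H c i hi).2.2.2.2.1
    sbe := fun i hi => (s_rel H c i hi).2.2.2.2.2
    dd2 := fun i hi => by
      rw [d_eq H c i hi]
      have h1 := d_rel2 H c i hi
      have hq := qw_comm (h.braidAB i (by omega))
      unfold Ss
      have h2 : Qw (sA g i) (sB g i) * sT g i (i + 2) * (Qw (sA g i) (sB g i))⁻¹ =
          Sw (sA g i) (sB g i) (sT g i (i + 1)) (sB g (i + 1)) (sA g (i + 1)) *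
            sT g (i + 1) (i + 2) *
            (Sw (sA g i) (sB g i) (sT g i (i + 1)) (sB g (i + 1)) (sA g (i + 1)))⁻¹ := by
        rw [← h1]; group
      show _ = Sw (sA g i) (sB g i) (sT g i (i + 1)) (sB g (i + 1)) (sA g (i + 1)) *
            sT g (i + 1) (i + 2) *
            (Sw (sA g i) (sB g i) (sT g i (i + 1)) (sB g (i + 1)) (sA g (i + 1)))⁻¹ *
            Qw (sA g i) (sB g i)
      rw [← h2]
      group
    lantern := fun i hi => by
      unfold Ll
      rw [d_eq H c i hi]
      exact lantern_rel' H c i hi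
    tauA := h.tauA
    tauB := h.tauB
    tauAl := h.tauAl
    tauBe := h.tauBe
    tauT := fun i hi => h.tauT i (i + 1) (Or.inl rfl) hi }

end

end Pool.Agent.TH35.MG
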