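import Mathlib
import Pool.Agent.TH35.MG.HDefs

set_option autoImplicit false

/-! The relations under homomorphisms. -/

namespace Pool.Agent.TH35.MG

open Pool.Agent.H798R3.MG

section
variable {G H : Type*} [Group G] [Group H]

theorem map_Rw (f : G →* H) (a b : G) : f (Rw a b) = Rw (f a) (f b) := by
  simp only [Rw, map_mul]

theorem map_Qw (f : G →* H) (a b : G) : f (Qw a b) = Qw (f a) (f b) := by
  simp only [Qw, map_mul, map_Rw]

theorem map_Sw (f : G →* H) (a b t b' a' : G) :
    f (Sw a b t b' a') = Sw (f a) (f b) (f t) (f b') (f a') := by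
  simp only [Sw, map_mul]

theorem map_Ss (f : G →* H) (A B T : ℕ → G) (i : ℕ) :
    f (Ss A B T i) = Ss (fun i => f (A i)) (fun i => f (B i)) (fun i => f (T i)) i := by
  simp only [Ss, map_Sw]

theorem map_Dd (f : G →* H) (A B T : ℕ → G) (i : ℕ) :
    f (Dd A B T i) = Dd (fun i => f (A i)) (fun i => f (B i)) (fun i => f (T i)) i := by
  simp only [Dd, map_mul, map_inv, map_Ss, map_Qw]

theorem map_Ll (f : G →* H) (A B T : ℕ → G) (i : ℕ) :
    f (Ll A B T i) = Ll (fun i => f (A i)) (fun i => f (B i)) (fun i => f (T i)) i := by
  simp only [Ll, map_mul, map_inv, map_Dd]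

theorem HRel.map (f : G →* H) {N : ℕ} {A B al be T : ℕ → G} {tau : G}
    (h : HRel N A B al be T tau) :
    HRel N (fun i => f (A i)) (fun i => f (B i)) (fun i => f (al i)) (fun i => f (be i))
      (fun i => f (T i)) (f tau) where
  braidAB i hi := by simpa only [map_mul] using congrArg f (h.braidAB i hi)
  commAA i hi j hj := (h.commAA i hi j hj).map f
  commAB i hi j hj hij := (h.commAB i hi j hj hij).map f
  commBB i hi j hj := (h.commBB i hi j hj).map f
  commAal i hi j hj := (h.commAal i hi j hj).map f
  commAbe i hi j hj hij := (h.commAbe i hi j hj hij).map f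
  commBal i hi j hj hij := (h.commBal i hi j hj hij).map f
  commBbe i hi j hj := (h.commBbe i hi j hj).map f
  A_be i hi := by simpa only [map_mul, map_inv] using congrArg f (h.A_be i hi)
  B_al i hi := by simpa only [map_mul, map_inv] using congrArg f (h.B_al i hi)
  commTA i hi m hm := (h.commTA i hi m hm).map f
  commTB i hi m hm h1 h2 := (h.commTB i hi m hm h1 h2).map f
  commTal i hi m hm h1 h2 := (h.commTal i hi m hm h1 h2).map f
  commTbe i hi m hm h1 h2 := (h.commTbe i hi m hm h1 h2).map f
  braidTBi i hi := by simpa only [map_mul] using congrArg f (h.braidTBi i hi)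
  braidTBj i hi := by simpa only [map_mul] using congrArg f (h.braidTBj i hi)
  T_al_i i hi := by
    simpa only [map_mul, map_inv, UU, dl] using congrArg f (h.T_al_i i hi)
  T_be_i i hi := by
    simpa only [map_mul, map_inv, UU, dl] using congrArg f (h.T_be_i i hi)
  T_al_j i hi := by
    simpa only [map_mul, map_inv, WW, dl] using congrArg f (h.T_al_j i hi)
  T_be_j i hi := by
    simpa only [map_mul, map_inv, WW, dl] using congrArg f (h.T_be_j i hi)
  commTT i j hij hj := (h.commTT i j hij hj).map f
  sA i hi := by simpa only [map_mul, map_Ss] using congrArg f (h.sA i hi)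
  sA' i hi := by simpa only [map_mul, map_Ss] using congrArg f (h.sA' i hi)
  sB i hi := by simpa only [map_mul, map_Ss] using congrArg f (h.sB i hi)
  sB' i hi := by simpa only [map_mul, map_Ss] using congrArg f (h.sB' i hi)
  sal i hi := by simpa only [map_mul, map_Ss] using congrArg f (h.sal i hi)
  sbe i hi := by simpa only [map_mul, map_Ss] using congrArg f (h.sbe i hi)
  dd2 i hi := by
    simpa only [map_mul, map_inv, map_Ss, map_Dd, map_Qw] using congrArg f (h.dd2 i hi)
  lantern i hi := by
    simpa only [map_mul, map_Ll] using congrArg f (h.lantern i hi)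
  tauA i hi := (h.tauA i hi).map f
  tauB i hi := (h.tauB i hi).map f
  tauAl i hi := (h.tauAl i hi).map f
  tauBe i hi := (h.tauBe i hi).map f
  tauT i hi := (h.tauT i hi).map f

/-- the relations only depend on the values at `i < N` -/
theorem HRel.congr {N : ℕ} {A B al be T A' B' al' be' T' : ℕ → G} {tau : G}
    (h : HRel N A B al be T tau) (hA : ∀ i < N, A' i = A i) (hB : ∀ i < N, B' i = B i)
    (hal : ∀ i < N, al' i = al i) (hbe : ∀ i < N, be' i = be i)
    (hT : ∀ i, i + 1 < N → T' i = T i) : HRel N A' B' al' be' T' tau := by
  have eS : ∀ i, i + 1 < N → Ss A' B' T' i = Ss A B T i := by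
    intro i hi
    simp only [Ss, hA i (by omega), hA (i + 1) hi, hB i (by omega), hB (i + 1) hi, hT i hi]
  have eD : ∀ i, i + 2 < N → Dd A' B' T' i = Dd A B T i := by
    intro i hi
    simp only [Dd, eS (i + 1) (by omega), hA (i + 1) (by omega), hB (i + 1) (by omega),
      hT i (by omega)]
  have eL : ∀ i, i + 2 < N → Ll A' B' T' i = Ll A B T i := by
    intro i hi
    simp only [Ll, eD i hi, hA i (by omega), hA (i + 1) (by omega), hA (i + 2) hi,
      hT i (by omega), hT (i + 1) (by omega)]
  exact
  { braidAB := fun i hi => by rw [hA i hi, hB i hi]; exact h.braidAB i hi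
    commAA := fun i hi j hj => by rw [hA i hi, hA j hj]; exact h.commAA i hi j hj
    commAB := fun i hi j hj hij => by rw [hA i hi, hB j hj]; exact h.commAB i hi j hj hij
    commBB := fun i hi j hj => by rw [hB i hi, hB j hj]; exact h.commBB i hi j hj
    commAal := fun i hi j hj => by rw [hA i hi, hal j hj]; exact h.commAal i hi j hj
    commAbe := fun i hi j hj hij => by rw [hA i hi, hbe j hj]; exact h.commAbe i hi j hj hij
    commBal := fun i hi j hj hij => by rw [hB i hi, hal j hj]; exact h.commBal i hi j hj hij
    commBbe := fun i hi j hj => by rw [hB i hi, hbe j hj]; exact h.commBbe i hi j hj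
    A_be := fun i hi => by rw [hA i hi, hal i hi, hbe i hi]; exact h.A_be i hi
    B_al := fun i hi => by rw [hB i hi, hal i hi, hbe i hi]; exact h.B_al i hi
    commTA := fun i hi m hm => by rw [hT i hi, hA m hm]; exact h.commTA i hi m hm
    commTB := fun i hi m hm h1 h2 => by
      rw [hT i hi, hB m hm]; exact h.commTB i hi m hm h1 h2
    commTal := fun i hi m hm h1 h2 => by
      rw [hT i hi, hal m hm]; exact h.commTal i hi m hm h1 h2
    commTbe := fun i hi m hm h1 h2 => by
      rw [hT i hi, hbe m hm]; exact h.commTbe i hi m hm h1 h2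
    braidTBi := fun i hi => by rw [hT i hi, hB i (by omega)]; exact h.braidTBi i hi
    braidTBj := fun i hi => by rw [hT i hi, hB (i + 1) hi]; exact h.braidTBj i hi
    T_al_i := fun i hi => by
      simp only [dl, hT i hi, hal i (by omega), hbe i (by omega), hal (i + 1) hi]
      exact h.T_al_i i hi
    T_be_i := fun i hi => by
      simp only [dl, hT i hi, hal i (by omega), hbe i (by omega), hal (i + 1) hi]
      exact h.T_be_i i hi
    T_al_j := fun i hi => by
      simp only [dl, hT i hi, hal i (by omega), hbe i (by omega), hal (i + 1) hi]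
      exact h.T_al_j i hi
    T_be_j := fun i hi => by
      simp only [dl, hT i hi, hal i (by omega), hbe i (by omega), hal (i + 1) hi,
        hbe (i + 1) hi]
      exact h.T_be_j i hi
    commTT := fun i j hij hj => by
      rw [hT i (by omega), hT j hj]; exact h.commTT i j hij hj
    sA := fun i hi => by rw [eS i hi, hA i (by omega), hA (i + 1) hi]; exact h.sA i hi
    sA' := fun i hi => by rw [eS i hi, hA i (by omega), hA (i + 1) hi]; exact h.sA' i hi
    sB := fun i hi => by rw [eS i hi, hB i (by omega), hB (i + 1) hi]; exact h.sB i hi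
    sB' := fun i hi => by rw [eS i hi, hB i (by omega), hB (i + 1) hi]; exact h.sB' i hi
    sal := fun i hi => by rw [eS i hi, hal i (by omega), hal (i + 1) hi]; exact h.sal i hi
    sbe := fun i hi => by rw [eS i hi, hbe i (by omega), hbe (i + 1) hi]; exact h.sbe i hi
    dd2 := fun i hi => by
      rw [eS i (by omega), eD i hi, hA i (by omega), hB i (by omega), hT (i + 1) (by omega)]
      exact h.dd2 i hi
    lantern := fun i hi => by
      rw [eL i hi, hB i (by omega)]
      exact h.lantern i hi
    tauA := fun i hi => by rw [hA i hi]; exact h.tauA i hi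
    tauB := fun i hi => by rw [hB i hi]; exact h.tauB i hi
    tauAl := fun i hi => by rw [hal i hi]; exact h.tauAl i hi
    tauBe := fun i hi => by rw [hbe i hi]; exact h.tauBe i hi
    tauT := fun i hi => by rw [hT i hi]; exact h.tauT i hi }

/-- pulling back along an injective homomorphism -/
theorem HRel.pull (f : H →* G) (hf : Function.Injective f) {N : ℕ} {A B al be T : ℕ → H}
    {tau : H} (h : HRel N (fun i => f (A i)) (fun i => f (B i)) (fun i => f (al i))
      (fun i => f (be i)) (fun i => f (T i)) (f tau)) : HRel N A B al be T tau where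
  braidAB i hi := by apply hf; simpa only [map_mul] using h.braidAB i hi
  commAA i hi j hj := by
    apply hf; simpa only [map_mul] using (h.commAA i hi j hj).eq
  commAB i hi j hj hij := by apply hf; simpa only [map_mul] using (h.commAB i hi j hj hij).eq
  commBB i hi j hj := by apply hf; simpa only [map_mul] using (h.commBB i hi j hj).eq
  commAal i hi j hj := by apply hf; simpa only [map_mul] using (h.commAal i hi j hj).eq
  commAbe i hi j hj hij := by apply hf; simpa only [map_mul] using (h.commAbe i hi j hj hij).eq
  commBal i hi j hj hij := by apply hf; simpa only [map_mul] using (h.commBal i hi j hj hij).eq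
  commBbe i hi j hj := by apply hf; simpa only [map_mul] using (h.commBbe i hi j hj).eq
  A_be i hi := by apply hf; simpa only [map_mul, map_inv] using h.A_be i hi
  B_al i hi := by apply hf; simpa only [map_mul, map_inv] using h.B_al i hi
  commTA i hi m hm := by apply hf; simpa only [map_mul] using (h.commTA i hi m hm).eq
  commTB i hi m hm h1 h2 := by
    apply hf; simpa only [map_mul] using (h.commTB i hi m hm h1 h2).eq
  commTal i hi m hm h1 h2 := by
    apply hf; simpa only [map_mul] using (h.commTal i hi m hm h1 h2).eq
  commTbe i hi m hm h1 h2 := by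
    apply hf; simpa only [map_mul] using (h.commTbe i hi m hm h1 h2).eq
  braidTBi i hi := by apply hf; simpa only [map_mul] using h.braidTBi i hi
  braidTBj i hi := by apply hf; simpa only [map_mul] using h.braidTBj i hi
  T_al_i i hi := by
    apply hf
    simpa only [map_mul, map_inv, UU, dl] using h.T_al_i i hi
  T_be_i i hi := by
    apply hf
    simpa only [map_mul, map_inv, UU, dl] using h.T_be_i i hi
  T_al_j i hi := by
    apply hf
    simpa only [map_mul, map_inv, WW, dl] using h.T_al_j i hi
  T_be_j i hi := by
    apply hf
    simpa only [map_mul, map_inv, WW, dl] using h.T_be_j i hi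
  commTT i j hij hj := by apply hf; simpa only [map_mul] using (h.commTT i j hij hj).eq
  sA i hi := by apply hf; simpa only [map_mul, map_Ss] using h.sA i hi
  sA' i hi := by apply hf; simpa only [map_mul, map_Ss] using h.sA' i hi
  sB i hi := by apply hf; simpa only [map_mul, map_Ss] using h.sB i hi
  sB' i hi := by apply hf; simpa only [map_mul, map_Ss] using h.sB' i hi
  sal i hi := by apply hf; simpa only [map_mul, map_Ss] using h.sal i hi
  sbe i hi := by apply hf; simpa only [map_mul, map_Ss] using h.sbe i hi
  dd2 i hi := by
    apply hf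
    simpa only [map_mul, map_inv, map_Ss, map_Dd, map_Qw] using h.dd2 i hi
  lantern i hi := by
    apply hf
    simpa only [map_mul, map_Ll] using h.lantern i hi
  tauA i hi := by apply hf; simpa only [map_mul] using (h.tauA i hi).eq
  tauB i hi := by apply hf; simpa only [map_mul] using (h.tauB i hi).eq
  tauAl i hi := by apply hf; simpa only [map_mul] using (h.tauAl i hi).eq
  tauBe i hi := by apply hf; simpa only [map_mul] using (h.tauBe i hi).eq
  tauT i hi := by apply hf; simpa only [map_mul] using (h.tauT i hi).eq

/-- replacing the boundary twist by an equal element -/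
theorem HRel.tau_eq {N : ℕ} {A B al be T : ℕ → G} {tau tau' : G}
    (h : HRel N A B al be T tau) (e : tau' = tau) : HRel N A B al be T tau' := by
  rw [e]; exact h

end

end Pool.Agent.TH35.MG
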