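import Mathlib

set_option autoImplicit false

/-! Level lemma with blocks of genus one: commuting pairs of braid type. -/

namespace Pool.Agent.TH35.MG

open Module

section loc

variable {K V : Type*} [Field K] [AddCommGroup V] [Module K V]

theorem adjoin_stable (A B : Module.End K V) (W : Submodule K V) (hA : ∀ v ∈ W, A v ∈ W)
    (hB : ∀ v ∈ W, B v ∈ W) (x : Module.End K V) (hx : x ∈ Algebra.adjoin K {A, B}) :
    ∀ v ∈ W, x v ∈ W := by
  induction hx using Algebra.adjoin_induction with
  | mem x hx =>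
    rcases hx with rfl | hx
    · exact hA
    · rw [Set.mem_singleton_iff] at hx
      subst hx
      exact hB
  | algebraMap r =>
    intro v hv
    rw [Module.algebraMap_end_apply]
    exact W.smul_mem r hv
  | add x y _ _ hx hy => intro v hv; exact W.add_mem (hx v hv) (hy v hv)
  | mul x y _ _ hx hy => intro v hv; exact hx _ (hy v hv)

theorem adjoin_commute (A B D : Module.End K V) (hA : Commute A D) (hB : Commute B D)
    (x : Module.End K V) (hx : x ∈ Algebra.adjoin K {A, B}) : Commute x D := by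
  induction hx using Algebra.adjoin_induction with
  | mem x hx =>
    rcases hx with rfl | hx
    · exact hA
    · rw [Set.mem_singleton_iff] at hx
      subst hx
      exact hB
  | algebraMap r => exact Algebra.commutes r D
  | add x y _ _ hx hy => exact hx.add_left hy
  | mul x y _ _ hx hy => exact hx.mul_left hy

/-- if every element of the algebra generated by `A` and `B` is injective or nilpotent on `M`,
then the quotients act by scalars -/
theorem scalar_step (A B : Module.End K V) (M U U' : Submodule K V)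
    (hU' : U' < U) (hUM : U ≤ M) (hUA : ∀ v ∈ U, A v ∈ U) (hUB : ∀ v ∈ U, B v ∈ U)
    (hUA' : ∀ v ∈ U', A v ∈ U') (hUB' : ∀ v ∈ U', B v ∈ U')
    (hmax : ∀ W : Submodule K V, U' ≤ W → W ≤ U → (∀ v ∈ W, A v ∈ W) → (∀ v ∈ W, B v ∈ W) →
      W = U' ∨ W = U)
    (hloc : ∀ x ∈ Algebra.adjoin K {A, B},
      (∀ m ∈ M, x m = 0 → m = 0) ∨ ∃ n : ℕ, ∀ m ∈ M, (x ^ n) m = 0)
    (x : Module.End K V) (hx : x ∈ Algebra.adjoin K {A, B}) (m : V) (hm : m ∈ M) (hm0 : m ≠ 0)
    (hxm : x m = 0) : ∀ u ∈ U, x u ∈ U' := by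
  intro u hu
  by_contra hw
  have hxU := adjoin_stable A B U hUA hUB
  have hxU' := adjoin_stable A B U' hUA' hUB'
  -- the invariant subspace generated by `x u`
  let W : Submodule K V :=
    U' ⊔ (Subalgebra.toSubmodule (Algebra.adjoin K {A, B})).map
      (LinearMap.applyₗ (x u) : Module.End K V →ₗ[K] V)
  have hmemW : ∀ y ∈ Algebra.adjoin K {A, B}, y (x u) ∈ W := by
    intro y hy
    exact Submodule.mem_sup_right ⟨y, hy, rfl⟩
  have hstab : ∀ z ∈ Algebra.adjoin K {A, B}, ∀ v ∈ W, z v ∈ W := by
    intro z hz v hv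
    obtain ⟨a, ha, b, hb, rfl⟩ := Submodule.mem_sup.1 hv
    obtain ⟨y, hy, rfl⟩ := hb
    rw [map_add]
    refine W.add_mem (Submodule.mem_sup_left (hxU' z hz a ha)) ?_
    exact hmemW (z * y) (mul_mem hz hy)
  have hWU : W ≤ U := by
    apply sup_le hU'.le
    rintro v ⟨y, hy, rfl⟩
    exact hxU y hy _ (hxU x hx u hu)
  have hAm : A ∈ Algebra.adjoin K {A, B} := Algebra.subset_adjoin (Set.mem_insert _ _)
  have hBm : B ∈ Algebra.adjoin K {A, B} :=
    Algebra.subset_adjoin (Set.mem_insert_of_mem _ rfl)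
  have hxuW : x u ∈ W := by
    have := hmemW 1 (one_mem _)
    rwa [Module.End.one_apply] at this
  rcases hmax W le_sup_left hWU (hstab A hAm) (hstab B hBm) with h | h
  · rw [h] at hxuW
    exact hw hxuW
  · have huW : u ∈ W := by rw [h]; exact hu
    obtain ⟨a, ha, b, hb, hab⟩ := Submodule.mem_sup.1 huW
    obtain ⟨y, hy, hyb⟩ := hb
    have hyb' : y (x u) = b := hyb
    have hyx : (y * x) ∈ Algebra.adjoin K {A, B} := mul_mem hy hx
    rcases hloc (y * x) hyx with h1 | ⟨n, hn⟩
    · apply hm0
      apply h1 m hm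
      rw [Module.End.mul_apply, hxm, map_zero]
    · have key : ∀ k : ℕ, u - ((y * x) ^ k) u ∈ U' := by
        intro k
        induction k with
        | zero => rw [pow_zero, Module.End.one_apply, sub_self]; exact U'.zero_mem
        | succ k ih =>
          have e : u - ((y * x) ^ (k + 1)) u =
              a + (y * x) (u - ((y * x) ^ k) u) := by
            rw [pow_succ', Module.End.mul_apply, map_sub, Module.End.mul_apply y x u, hyb']
            rw [← hab]
            abel
          rw [e]
          exact U'.add_mem ha (hxU' _ hyx _ ih)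
      have h2 := key n
      rw [hn u (hUM hu), sub_zero] at h2
      exact hw (hxU' x hx u h2)

end loc

section loc2

variable {K V : Type*} [Field K] [IsAlgClosed K] [AddCommGroup V] [Module K V]
  [FiniteDimensional K V]

theorem exists_eig (A : Module.End K V) (M : Submodule K V) (hM : M ≠ ⊥)
    (hA : ∀ v ∈ M, A v ∈ M) : ∃ c : K, ∃ m ∈ M, m ≠ 0 ∧ A m = c • m := by
  have : Nontrivial M := Submodule.nontrivial_iff_ne_bot.2 hM
  obtain ⟨c, hc⟩ := Module.End.exists_eigenvalue (A.restrict hA)
  obtain ⟨v, hv⟩ := hc.exists_hasEigenvector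
  refine ⟨c, v, v.2, ?_, ?_⟩
  · intro h
    exact hv.2 (Subtype.ext h)
  · have := hv.apply_eq_smul
    have h2 := congrArg Subtype.val this
    exact h2

theorem local_eq (A B : Module.End K V) (hA : ∀ v, A v = 0 → v = 0) (hB : ∀ v, B v = 0 → v = 0)
    (hb : A * B * A = B * A * B) (M : Submodule K V) (hMA : ∀ v ∈ M, A v ∈ M)
    (hMB : ∀ v ∈ M, B v ∈ M)
    (hloc : ∀ x ∈ Algebra.adjoin K {A, B},
      (∀ m ∈ M, x m = 0 → m = 0) ∨ ∃ n : ℕ, ∀ m ∈ M, (x ^ n) m = 0) :
    ∀ m ∈ M, A m = B m := by
  classical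
  -- minimal invariant subspace containing the image of `A - B`
  have hex : ∃ n : ℕ, ∃ U : Submodule K V, U ≤ M ∧ (∀ v ∈ U, A v ∈ U) ∧ (∀ v ∈ U, B v ∈ U) ∧
      (∀ m ∈ M, A m - B m ∈ U) ∧ finrank K U = n :=
    ⟨_, M, le_rfl, hMA, hMB, fun m hm => M.sub_mem (hMA m hm) (hMB m hm), rfl⟩
  obtain ⟨U, hUM, hUA, hUB, hUd, hUn⟩ := Nat.find_spec hex
  by_cases hU0 : U = ⊥
  · intro m hm
    have := hUd m hm
    rw [hU0, Submodule.mem_bot] at this
    exact sub_eq_zero.1 this
  exfalso
  have hM0 : M ≠ ⊥ := by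
    intro h
    apply hU0
    rw [eq_bot_iff, ← h]
    exact hUM
  -- maximal proper invariant subspace
  have hex2 : ∃ n : ℕ, ∃ W : Submodule K V, W < U ∧ (∀ v ∈ W, A v ∈ W) ∧ (∀ v ∈ W, B v ∈ W) ∧
      finrank K U - finrank K W = n :=
    ⟨_, ⊥, bot_lt_iff_ne_bot.2 hU0, by
      intro v hv
      rw [Submodule.mem_bot] at hv ⊢
      rw [hv, map_zero], by
      intro v hv
      rw [Submodule.mem_bot] at hv ⊢
      rw [hv, map_zero], rfl⟩
  obtain ⟨U', hU', hUA', hUB', hUn'⟩ := Nat.find_spec hex2
  have hmax : ∀ W : Submodule K V, U' ≤ W → W ≤ U → (∀ v ∈ W, A v ∈ W) → (∀ v ∈ W, B v ∈ W) →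
      W = U' ∨ W = U := by
    intro W h1 h2 h3 h4
    by_cases hWU : W = U
    · exact Or.inr hWU
    · left
      have hlt : W < U := lt_of_le_of_ne h2 hWU
      have h5 : Nat.find hex2 ≤ finrank K U - finrank K W :=
        Nat.find_min' hex2 ⟨W, hlt, h3, h4, rfl⟩
      rw [← hUn'] at h5
      have h6 : finrank K W < finrank K U := Submodule.finrank_lt_finrank_of_lt hlt
      have h7 : finrank K W ≤ finrank K U' := by
        have h8 := Submodule.finrank_lt_finrank_of_lt hU'
        omega
      exact (Submodule.eq_of_le_of_finrank_le h1 h7).symm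
  have hAm : A ∈ Algebra.adjoin K {A, B} := Algebra.subset_adjoin (Set.mem_insert _ _)
  have hBm : B ∈ Algebra.adjoin K {A, B} :=
    Algebra.subset_adjoin (Set.mem_insert_of_mem _ rfl)
  obtain ⟨c, m, hm, hm0, hmc⟩ := exists_eig A M hM0 hMA
  obtain ⟨d, k, hk, hk0, hkd⟩ := exists_eig B M hM0 hMB
  have sA : ∀ u ∈ U, A u - c • u ∈ U' := by
    have := scalar_step A B M U U' hU' hUM hUA hUB hUA' hUB' hmax hloc
      (A - algebraMap K _ c) (sub_mem hAm (Subalgebra.algebraMap_mem _ c)) m hm hm0 (by
        rw [LinearMap.sub_apply, Module.algebraMap_end_apply, hmc, sub_self])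
    intro u hu
    have h2 := this u hu
    rwa [LinearMap.sub_apply, Module.algebraMap_end_apply] at h2
  have sB : ∀ u ∈ U, B u - d • u ∈ U' := by
    have := scalar_step A B M U U' hU' hUM hUA hUB hUA' hUB' hmax hloc
      (B - algebraMap K _ d) (sub_mem hBm (Subalgebra.algebraMap_mem _ d)) k hk hk0 (by
        rw [LinearMap.sub_apply, Module.algebraMap_end_apply, hkd, sub_self])
    intro u hu
    have h2 := this u hu
    rwa [LinearMap.sub_apply, Module.algebraMap_end_apply] at h2
  have hc0 : c ≠ 0 := by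
    rintro rfl
    rw [zero_smul] at hmc
    exact hm0 (hA m hmc)
  have hd0 : d ≠ 0 := by
    rintro rfl
    rw [zero_smul] at hkd
    exact hk0 (hB k hkd)
  have hbv : ∀ v, A (B (A v)) = B (A (B v)) := fun v => LinearMap.congr_fun hb v
  obtain ⟨u, huU, huU'⟩ := Set.exists_of_ssubset (SetLike.coe_ssubset_coe.2 hU')
  have hcd : c = d := by
    -- compare the two sides of the braid relation on `u`
    have e1 : A (B (A u)) - (c * d * c) • u ∈ U' := by
      have h1 := sA u huU
      have h2 := hUA' _ (hUB' _ h1)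
      have h3 := hUA' _ (sB u huU)
      have h4 := sA u huU
      have e : A (B (A u)) - (c * d * c) • u = A (B (A u - c • u)) + c • A (B u - d • u) +
          (c * d) • (A u - c • u) := by
        simp only [map_sub, map_smul, smul_sub, smul_smul]
        abel
      rw [e]
      exact U'.add_mem (U'.add_mem h2 (U'.smul_mem c h3)) (U'.smul_mem _ h4)
    have e2 : B (A (B u)) - (d * c * d) • u ∈ U' := by
      have h1 := sB u huU
      have h2 := hUB' _ (hUA' _ h1)
      have h3 := hUB' _ (sA u huU)
      have h4 := sB u huU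
      have e : B (A (B u)) - (d * c * d) • u = B (A (B u - d • u)) + d • B (A u - c • u) +
          (d * c) • (B u - d • u) := by
        simp only [map_sub, map_smul, smul_sub, smul_smul]
        abel
      rw [e]
      exact U'.add_mem (U'.add_mem h2 (U'.smul_mem d h3)) (U'.smul_mem _ h4)
    rw [hbv u] at e1
    have e3 := U'.sub_mem e1 e2
    have e4 : (B (A (B u)) - (c * d * c) • u) - (B (A (B u)) - (d * c * d) • u) =
        (c * d * (d - c)) • u := by
      rw [sub_sub_sub_cancel_left, ← sub_smul]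
      congr 1
      ring
    rw [e4] at e3
    by_contra hne
    have h5 : c * d * (d - c) ≠ 0 :=
      mul_ne_zero (mul_ne_zero hc0 hd0) (sub_ne_zero.2 (Ne.symm hne))
    exact huU' ((Submodule.smul_mem_iff U' h5).1 e3)
  subst hcd
  -- the element `A ^ 2 - c A + c ^ 2`
  let X : Module.End K V := A * A - c • A + algebraMap K _ (c * c)
  have hXm : X ∈ Algebra.adjoin K {A, B} :=
    add_mem (sub_mem (mul_mem hAm hAm) (Subalgebra.smul_mem _ hAm c))
      (Subalgebra.algebraMap_mem _ _)
  have hXv : ∀ v, X v = A (A v) - c • A v + (c * c) • v := by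
    intro v
    show (A * A - c • A + algebraMap K _ (c * c)) v = _
    rw [LinearMap.add_apply, LinearMap.sub_apply, Module.End.mul_apply, LinearMap.smul_apply,
      Module.algebraMap_end_apply]
  have hXU : ∀ v ∈ U, X v - (c * c) • v ∈ U' := by
    intro v hv
    rw [hXv]
    have h1 := hUA' _ (sA v hv)
    have e : A (A v) - c • A v + (c * c) • v - (c * c) • v = A (A v - c • v) := by
      rw [map_sub, map_smul]
      abel
    rw [e]
    exact h1
  have hXinj : ∀ m ∈ M, X m = 0 → m = 0 := by
    rcases hloc X hXm with h | ⟨n, hn⟩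
    · exact h
    · exfalso
      have key : ∀ k : ℕ, (X ^ k) u - ((c * c) ^ k) • u ∈ U' ∧ (X ^ k) u ∈ U := by
        intro k
        induction k with
        | zero =>
          rw [pow_zero, pow_zero, one_smul, Module.End.one_apply, sub_self]
          exact ⟨U'.zero_mem, huU⟩
        | succ k ih =>
          have h1 := hXU _ ih.2
          have e : (X ^ (k + 1)) u - ((c * c) ^ (k + 1)) • u = (X ((X ^ k) u) -
              (c * c) • (X ^ k) u) + (c * c) • ((X ^ k) u - ((c * c) ^ k) • u) := by
            rw [pow_succ', Module.End.mul_apply, smul_sub, smul_smul, pow_succ' (c * c) k]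
            abel
          refine ⟨?_, ?_⟩
          · rw [e]
            exact U'.add_mem h1 (U'.smul_mem _ ih.1)
          · rw [pow_succ', Module.End.mul_apply]
            exact adjoin_stable A B U hUA hUB X hXm _ ih.2
      have h3 := (key n).1
      rw [hn u (hUM huU), zero_sub, Submodule.neg_mem_iff] at h3
      exact huU' ((Submodule.smul_mem_iff U' (pow_ne_zero n (mul_ne_zero hc0 hc0))).1 h3)
  -- `X` is surjective on `M`
  have hXM : ∀ v ∈ M, X v ∈ M := adjoin_stable A B M hMA hMB X hXm
  have hXsurj : ∀ m ∈ M, ∃ m' ∈ M, X m' = m := by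
    have h1 : Function.Injective (X.restrict hXM) := by
      rw [← LinearMap.ker_eq_bot, Submodule.eq_bot_iff]
      intro v hv
      apply Subtype.ext
      apply hXinj v v.2
      have := congrArg Subtype.val (LinearMap.mem_ker.1 hv)
      exact this
    have h2 : Function.Surjective (X.restrict hXM) := LinearMap.surjective_of_injective h1
    intro m hm
    obtain ⟨m', hm'⟩ := h2 ⟨m, hm⟩
    exact ⟨m', m'.2, congrArg Subtype.val hm'⟩
  -- the difference lands in `U'`
  have hdU' : ∀ m ∈ M, A m - B m ∈ U' := by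
    intro m hm
    obtain ⟨q, hq, rfl⟩ := hXsurj m hm
    have d1 := hUd q hq
    have d2 := hUd _ (hMA q hq)
    -- here `D v = A v - B v`
    have k1 := sA _ d1
    have k2 := sA _ d2
    have k3 := sB _ (hUA _ d1)
    have e : A (X q) - B (X q) = (A (B (A q)) - B (A (B q))) + (A (A (A q) - B (A q)) -
        c • (A (A q) - B (A q))) - (B (A (A q - B q)) - c • A (A q - B q))
        - c • (A (A q - B q) - c • (A q - B q)) := by
      rw [hXv]
      simp only [map_sub, map_add, map_smul, smul_sub, smul_smul]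
      abel
    rw [e, hbv q, sub_self, zero_add]
    exact U'.sub_mem (U'.sub_mem k2 k3) (U'.smul_mem c k1)
  have h9 : Nat.find hex ≤ finrank K U' :=
    Nat.find_min' hex ⟨U', hU'.le.trans hUM, hUA', hUB', hdU', rfl⟩
  have h10 := Submodule.finrank_lt_finrank_of_lt hU'
  omega

end loc2

end Pool.Agent.TH35.MG
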