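import Mathlib
import Pool.Agent.TH35.MG.Lev

set_option autoImplicit false

/-! Level lemma: `k` commuting pairs of braid type on a space of dimension `< 2^k`. -/

namespace Pool.Agent.TH35.MG

open Module

section

variable {K V V' : Type*} [Field K] [AddCommGroup V] [Module K V] [AddCommGroup V'] [Module K V']

theorem intertwine (φ : V →ₗ[K] V') (x : ℕ → Module.End K V)
    (x' : ℕ → Module.End K V') (l : List ℕ) (h : ∀ i ∈ l, ∀ w, φ (x i w) = x' i (φ w)) (w : V) :
    φ ((l.map x).prod w) = (l.map x').prod (φ w) := by
  induction l with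
  | nil => simp
  | cons i l ih =>
    simp only [List.map_cons, List.prod_cons, Module.End.mul_apply]
    rw [h i List.mem_cons_self, ih fun j hj => h j (List.mem_cons_of_mem _ hj)]

theorem commute_list (y : Module.End K V) (x : ℕ → Module.End K V) (l : List ℕ)
    (h : ∀ i ∈ l, Commute y (x i)) : Commute y (l.map x).prod := by
  apply Commute.list_prod_right
  intro z hz
  obtain ⟨i, hi, rfl⟩ := List.mem_map.1 hz
  exact h i hi

end

/-- pairwise commuting pairs of braid type -/
structure Pairs {K V : Type*} [Field K] [AddCommGroup V] [Module K V] (l : List ℕ)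
    (A B : ℕ → Module.End K V) : Prop where
  AA : ∀ i ∈ l, ∀ j ∈ l, i ≠ j → Commute (A i) (A j)
  AB : ∀ i ∈ l, ∀ j ∈ l, i ≠ j → Commute (A i) (B j)
  BB : ∀ i ∈ l, ∀ j ∈ l, i ≠ j → Commute (B i) (B j)
  br : ∀ i ∈ l, A i * B i * A i = B i * A i * B i
  iA : ∀ i ∈ l, ∀ v, A i v = 0 → v = 0
  iB : ∀ i ∈ l, ∀ v, B i v = 0 → v = 0

theorem level_pairs {K : Type*} [Field K] [IsAlgClosed K] (l : List ℕ) :
    l.Nodup → ∀ (V : Type*) [AddCommGroup V] [Module K V] [FiniteDimensional K V]
      (A B : ℕ → Module.End K V), Pairs l A B → finrank K V < 2 ^ l.length →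
      (l.map (fun i => A i - B i)).prod = 0 := by
  induction l with
  | nil =>
    intro _ V _ _ _ A B _ hlt
    have h0 : finrank K V = 0 := by simpa using hlt
    have hsub : Subsingleton V := finrank_zero_iff.mp h0
    exact Subsingleton.elim _ _
  | cons k l ih =>
    intro hnd V _ _ _ A B hP hlt
    have hnd' := List.nodup_cons.mp hnd
    have hP' : Pairs l A B :=
      ⟨fun i hi j hj => hP.AA i (List.mem_cons_of_mem _ hi) j (List.mem_cons_of_mem _ hj),
        fun i hi j hj => hP.AB i (List.mem_cons_of_mem _ hi) j (List.mem_cons_of_mem _ hj),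
        fun i hi j hj => hP.BB i (List.mem_cons_of_mem _ hi) j (List.mem_cons_of_mem _ hj),
        fun i hi => hP.br i (List.mem_cons_of_mem _ hi),
        fun i hi => hP.iA i (List.mem_cons_of_mem _ hi),
        fun i hi => hP.iB i (List.mem_cons_of_mem _ hi)⟩
    have hk : k ∈ k :: l := List.mem_cons_self
    have hne : ∀ i ∈ l, i ≠ k := fun i hi e => hnd'.1 (e ▸ hi)
    set D : Module.End K V := (l.map (fun i => A i - B i)).prod with hD
    have cAA : ∀ i ∈ l, Commute (A k) (A i) := fun i hi =>
      hP.AA k hk i (List.mem_cons_of_mem _ hi) (Ne.symm (hne i hi))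
    have cAB : ∀ i ∈ l, Commute (A k) (B i) := fun i hi =>
      hP.AB k hk i (List.mem_cons_of_mem _ hi) (Ne.symm (hne i hi))
    have cBA : ∀ i ∈ l, Commute (B k) (A i) := fun i hi =>
      (hP.AB i (List.mem_cons_of_mem _ hi) k hk (hne i hi)).symm
    have cBB : ∀ i ∈ l, Commute (B k) (B i) := fun i hi =>
      hP.BB k hk i (List.mem_cons_of_mem _ hi) (Ne.symm (hne i hi))
    have cAD : Commute (A k) D := commute_list _ _ _ fun i hi => (cAA i hi).sub_right (cAB i hi)
    have cBD : Commute (B k) D := commute_list _ _ _ fun i hi => (cBA i hi).sub_right (cBB i hi)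
    -- the induction hypothesis on an invariant subspace
    have sub : ∀ W : Submodule K V, (∀ i ∈ l, ∀ v ∈ W, A i v ∈ W) → (∀ i ∈ l, ∀ v ∈ W, B i v ∈ W) →
        finrank K W < 2 ^ l.length → ∀ v ∈ W, D v = 0 := by
      intro W hWA hWB hW v hv
      let A' : ℕ → Module.End K W := fun i =>
        if h : i ∈ l then (A i).restrict (hWA i h) else 1
      let B' : ℕ → Module.End K W := fun i =>
        if h : i ∈ l then (B i).restrict (hWB i h) else 1
      have eA : ∀ i ∈ l, ∀ w : W, ((A' i w : W) : V) = A i w := by
        intro i hi w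
        simp only [A', dif_pos hi]
        rfl
      have eB : ∀ i ∈ l, ∀ w : W, ((B' i w : W) : V) = B i w := by
        intro i hi w
        simp only [B', dif_pos hi]
        rfl
      have hPW : Pairs l A' B' := by
        refine ⟨?_, ?_, ?_, ?_, ?_, ?_⟩
        · intro i hi j hj hij
          apply LinearMap.ext
          intro w
          apply Subtype.ext
          rw [Module.End.mul_apply, Module.End.mul_apply, eA i hi, eA j hj, eA j hj, eA i hi]
          exact LinearMap.congr_fun (hP'.AA i hi j hj hij) w
        · intro i hi j hj hij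
          apply LinearMap.ext
          intro w
          apply Subtype.ext
          rw [Module.End.mul_apply, Module.End.mul_apply, eA i hi, eB j hj, eB j hj, eA i hi]
          exact LinearMap.congr_fun (hP'.AB i hi j hj hij) w
        · intro i hi j hj hij
          apply LinearMap.ext
          intro w
          apply Subtype.ext
          rw [Module.End.mul_apply, Module.End.mul_apply, eB i hi, eB j hj, eB j hj, eB i hi]
          exact LinearMap.congr_fun (hP'.BB i hi j hj hij) w
        · intro i hi
          apply LinearMap.ext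
          intro w
          apply Subtype.ext
          rw [Module.End.mul_apply, Module.End.mul_apply, Module.End.mul_apply,
            Module.End.mul_apply, eA i hi, eB i hi, eA i hi, eB i hi, eA i hi, eB i hi]
          exact LinearMap.congr_fun (hP'.br i hi) w
        · intro i hi w hw
          apply Subtype.ext
          apply hP'.iA i hi
          rw [← eA i hi, hw]
          rfl
        · intro i hi w hw
          apply Subtype.ext
          apply hP'.iB i hi
          rw [← eB i hi, hw]
          rfl
      have h1 := ih hnd'.2 W A' B' hPW hW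
      have h2 := intertwine W.subtype (fun i => A' i - B' i) (fun i => A i - B i) l (by
        intro i hi w
        rw [LinearMap.sub_apply, LinearMap.sub_apply, map_sub]
        show ((A' i w : W) : V) - ((B' i w : W) : V) = _
        rw [eA i hi, eB i hi]
        rfl) ⟨v, hv⟩
      rw [h1, LinearMap.zero_apply, map_zero] at h2
      exact h2.symm
    -- the local property on the range of `D`
    have hloc : ∀ x ∈ Algebra.adjoin K {A k, B k},
        (∀ m ∈ LinearMap.range D, x m = 0 → m = 0) ∨
          ∃ n : ℕ, ∀ m ∈ LinearMap.range D, (x ^ n) m = 0 := by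
      intro x hx
      have cx : ∀ y : Module.End K V, Commute (A k) y → Commute (B k) y → Commute x y :=
        fun y h1 h2 => adjoin_commute (A k) (B k) y h1 h2 x hx
      have cxD := cx D cAD cBD
      obtain ⟨n, hn, hn1⟩ := ((x.eventually_isCompl_ker_pow_range_pow).and
        (Filter.eventually_ge_atTop 1)).exists
      have hdim : finrank K (LinearMap.ker (x ^ n)) + finrank K (LinearMap.range (x ^ n)) =
          finrank K V := Submodule.finrank_add_eq_of_isCompl hn
      have hpow : finrank K V < 2 ^ l.length + 2 ^ l.length := by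
        rw [List.length_cons, pow_succ] at hlt
        omega
      have kerst : ∀ y : Module.End K V, Commute x y → ∀ v ∈ LinearMap.ker (x ^ n),
          y v ∈ LinearMap.ker (x ^ n) := by
        intro y hy v hv
        rw [LinearMap.mem_ker] at hv ⊢
        rw [← Module.End.mul_apply, (hy.pow_left n).eq, Module.End.mul_apply, hv, map_zero]
      have ranst : ∀ y : Module.End K V, Commute x y → ∀ v ∈ LinearMap.range (x ^ n),
          y v ∈ LinearMap.range (x ^ n) := by
        rintro y hy v ⟨w, rfl⟩
        refine ⟨y w, ?_⟩
        rw [← Module.End.mul_apply, (hy.pow_left n).eq, Module.End.mul_apply]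
      by_cases hc : finrank K (LinearMap.ker (x ^ n)) < 2 ^ l.length
      · left
        have h1 := sub (LinearMap.ker (x ^ n))
          (fun i hi => kerst _ (cx _ (cAA i hi) (cBA i hi)))
          (fun i hi => kerst _ (cx _ (cAB i hi) (cBB i hi))) hc
        -- `M = x ^ n M`
        have hst : ∀ m ∈ LinearMap.range D, x m ∈ LinearMap.range D := by
          rintro m ⟨w, rfl⟩
          exact ⟨x w, by rw [← Module.End.mul_apply, ← cxD.eq, Module.End.mul_apply]⟩
        have hstn : ∀ m ∈ LinearMap.range D, (x ^ n) m ∈ LinearMap.range D := by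
          rintro m ⟨w, rfl⟩
          exact ⟨(x ^ n) w, by
            rw [← Module.End.mul_apply, ← (cxD.pow_left n).eq, Module.End.mul_apply]⟩
        have hsurj : Function.Surjective ((x ^ n).restrict hstn) := by
          rintro ⟨m, ⟨w, rfl⟩⟩
          have hw : w ∈ LinearMap.ker (x ^ n) ⊔ LinearMap.range (x ^ n) := by
            rw [hn.sup_eq_top]; trivial
          obtain ⟨a, ha, b, ⟨b', rfl⟩, rfl⟩ := Submodule.mem_sup.1 hw
          refine ⟨⟨D b', ⟨b', rfl⟩⟩, ?_⟩
          apply Subtype.ext
          rw [LinearMap.coe_restrict_apply]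
          show (x ^ n) (D b') = D (a + (x ^ n) b')
          rw [map_add, h1 a ha, zero_add, ← Module.End.mul_apply, ← Module.End.mul_apply,
            (cxD.pow_left n).eq]
        have hinj : Function.Injective ((x ^ n).restrict hstn) :=
          LinearMap.injective_iff_surjective.2 hsurj
        intro m hm hxm
        have h3 : ((x ^ n).restrict hstn) ⟨m, hm⟩ = ((x ^ n).restrict hstn) 0 := by
          apply Subtype.ext
          rw [LinearMap.coe_restrict_apply, map_zero]
          obtain ⟨n', rfl⟩ : ∃ n', n = n' + 1 := ⟨n - 1, by omega⟩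
          show (x ^ (n' + 1)) m = 0
          rw [pow_succ, Module.End.mul_apply, hxm, map_zero]
        exact congrArg Subtype.val (hinj h3)
      · right
        have hc2 : finrank K (LinearMap.range (x ^ n)) < 2 ^ l.length := by omega
        have h1 := sub (LinearMap.range (x ^ n))
          (fun i hi => ranst _ (cx _ (cAA i hi) (cBA i hi)))
          (fun i hi => ranst _ (cx _ (cAB i hi) (cBB i hi))) hc2
        refine ⟨n, ?_⟩
        rintro m ⟨w, rfl⟩
        rw [← Module.End.mul_apply, (cxD.pow_left n).eq, Module.End.mul_apply]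
        exact h1 _ ⟨w, rfl⟩
    have hfin := local_eq (A k) (B k) (hP.iA k hk) (hP.iB k hk) (hP.br k hk) (LinearMap.range D)
      (by
        rintro v ⟨w, rfl⟩
        exact ⟨A k w, by rw [← Module.End.mul_apply, ← cAD.eq, Module.End.mul_apply]⟩)
      (by
        rintro v ⟨w, rfl⟩
        exact ⟨B k w, by rw [← Module.End.mul_apply, ← cBD.eq, Module.End.mul_apply]⟩) hloc
    rw [List.map_cons, List.prod_cons]
    apply LinearMap.ext
    intro v
    rw [Module.End.mul_apply, LinearMap.sub_apply, LinearMap.zero_apply, sub_eq_zero]
    exact hfin _ ⟨v, rfl⟩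

end Pool.Agent.TH35.MG
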