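import Mathlib
import Pool.Agent.TH35.MG.HDefs
import Pool.Agent.H798R3.MG.Handle3

set_option autoImplicit false

/-! The groups `M_h` (all handles `≥ h` are slots) and their properties. -/

namespace Pool.Agent.TH35.MG

open Pool.Agent.H798R3.MG

section
variable {G : Type*} [Group G]

/-- exchanges of slots and rotations of slots -/
def Wg (N : ℕ) (A B T : ℕ → G) (h : ℕ) : Subgroup G :=
  Subgroup.closure ({x | ∃ i, h ≤ i ∧ i + 1 < N ∧ x = Ss A B T i} ∪
    {x | ∃ l, h ≤ l ∧ l < N ∧ x = (Rw (A l) (B l)) ^ 2})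

/-- generators of `M_h` up to `Wg` -/
inductive InX (N : ℕ) (A B al be T : ℕ → G) (h : ℕ) : G → Prop
  | A (i : ℕ) (hi : i < N) : InX N A B al be T h (A i)
  | B (i : ℕ) (hh : i < h) (hi : i < N) : InX N A B al be T h (B i)
  | T (i : ℕ) (hh : i < h) (hi : i + 1 < N) : InX N A B al be T h (T i)
  | al (i : ℕ) (hh : i ≤ h) (hi : i < N) : InX N A B al be T h (al i)
  | be (i : ℕ) (hh : i < h) (hi : i < N) : InX N A B al be T h (be i)

/-- the stabiliser of the curves `a_l`, `h ≤ l < N` -/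
def Mh (N : ℕ) (A B al be T : ℕ → G) (h : ℕ) : Subgroup G :=
  Subgroup.closure {x | ∃ w ∈ Wg N A B T h, ∃ y, InX N A B al be T h y ∧ x = w * y * w⁻¹}

variable {N : ℕ} {A B al be T : ℕ → G}

theorem Ss_comm {x : G} {i : ℕ} (h1 : Commute (A i) x) (h2 : Commute (B i) x)
    (h3 : Commute (T i) x) (h4 : Commute (B (i + 1)) x) (h5 : Commute (A (i + 1)) x) :
    Commute (Ss A B T i) x := by
  unfold Ss Sw
  exact (((((((h1.mul_left h2).mul_left h3).mul_left h4).mul_left h5).mul_left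
    (((h1.mul_left h2).mul_left h3).mul_left h4)).mul_left
    ((h1.mul_left h2).mul_left h3)).mul_left (h1.mul_left h2)).mul_left h1

theorem Rw_comm {x a b : G} (h1 : Commute a x) (h2 : Commute b x) : Commute (Rw a b) x :=
  (h1.mul_left h2).mul_left h1

theorem Qw_comm {x a b : G} (h1 : Commute a x) (h2 : Commute b x) : Commute (Qw a b) x :=
  ((Rw_comm h1 h2).mul_left (Rw_comm h1 h2)).mul_left ((Rw_comm h1 h2).mul_left (Rw_comm h1 h2))

theorem Rw_mem {H : Subgroup G} {a b : G} (h1 : a ∈ H) (h2 : b ∈ H) : Rw a b ∈ H :=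
  H.mul_mem (H.mul_mem h1 h2) h1

theorem Qw_mem {H : Subgroup G} {a b : G} (h1 : a ∈ H) (h2 : b ∈ H) : Qw a b ∈ H :=
  H.mul_mem (H.mul_mem (Rw_mem h1 h2) (Rw_mem h1 h2)) (H.mul_mem (Rw_mem h1 h2) (Rw_mem h1 h2))

theorem Qw_eq (a b : G) : Qw a b = (Rw a b) ^ 2 * (Rw a b) ^ 2 := by
  unfold Qw
  rw [pow_two]

theorem Ss_mem {H : Subgroup G} {i : ℕ} (h1 : A i ∈ H) (h2 : B i ∈ H) (h3 : T i ∈ H)
    (h4 : B (i + 1) ∈ H) (h5 : A (i + 1) ∈ H) : Ss A B T i ∈ H := by
  unfold Ss Sw
  exact H.mul_mem (H.mul_mem (H.mul_mem (H.mul_mem (H.mul_mem (H.mul_mem (H.mul_mem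
    (H.mul_mem h1 h2) h3) h4) h5) (H.mul_mem (H.mul_mem (H.mul_mem h1 h2) h3) h4))
    (H.mul_mem (H.mul_mem h1 h2) h3)) (H.mul_mem h1 h2)) h1

theorem cj_mem {H : Subgroup G} {w x : G} (h1 : w ∈ H) (h2 : x ∈ H) : w * x * w⁻¹ ∈ H :=
  H.mul_mem (H.mul_mem h1 h2) (H.inv_mem h1)

theorem cj_mem' {H : Subgroup G} {w x : G} (h1 : w ∈ H) (h2 : x ∈ H) : w⁻¹ * x * w ∈ H :=
  H.mul_mem (H.mul_mem (H.inv_mem h1) h2) h1

theorem conj_closure {S : Set G} {H : Subgroup G} (w : G) (hS : ∀ y ∈ S, w * y * w⁻¹ ∈ H)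
    (y : G) (hy : y ∈ Subgroup.closure S) : w * y * w⁻¹ ∈ H :=
  T3c.conj_mem w hS y hy

theorem S_W {h i : ℕ} (hi : h ≤ i) (hi' : i + 1 < N) : Ss A B T i ∈ Wg N A B T h :=
  Subgroup.subset_closure (Or.inl ⟨i, hi, hi', rfl⟩)

theorem R_W {h i : ℕ} (hi : h ≤ i) (hi' : i < N) : (Rw (A i) (B i)) ^ 2 ∈ Wg N A B T h :=
  Subgroup.subset_closure (Or.inr ⟨i, hi, hi', rfl⟩)

theorem Q_W {h i : ℕ} (hi : h ≤ i) (hi' : i < N) : Qw (A i) (B i) ∈ Wg N A B T h := by
  rw [Qw_eq]
  exact (Wg N A B T h).mul_mem (R_W hi hi') (R_W hi hi')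

theorem W_mono (h : ℕ) : Wg N A B T (h + 1) ≤ Wg N A B T h := by
  unfold Wg
  apply Subgroup.closure_mono
  rintro x (⟨i, h1, h2, rfl⟩ | ⟨i, h1, h2, rfl⟩)
  · exact Or.inl ⟨i, by omega, h2, rfl⟩
  · exact Or.inr ⟨i, by omega, h2, rfl⟩

theorem X_M {h : ℕ} {y : G} (hy : InX N A B al be T h y) : y ∈ Mh N A B al be T h :=
  Subgroup.subset_closure ⟨1, Subgroup.one_mem _, y, hy, by group⟩

theorem W_conj {h : ℕ} {w x : G} (hw : w ∈ Wg N A B T h) (hx : x ∈ Mh N A B al be T h) :
    w * x * w⁻¹ ∈ Mh N A B al be T h := by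
  refine conj_closure w ?_ x hx
  rintro y ⟨w', hw', z, hz, rfl⟩
  exact Subgroup.subset_closure ⟨w * w', Subgroup.mul_mem _ hw hw', z, hz, by group⟩

theorem W_conj' {h : ℕ} {w x : G} (hw : w ∈ Wg N A B T h) (hx : x ∈ Mh N A B al be T h) :
    w⁻¹ * x * w ∈ Mh N A B al be T h := by
  have := W_conj (al := al) (be := be) (Subgroup.inv_mem _ hw) hx
  rwa [inv_inv] at this

theorem W_comm {h : ℕ} {x : G} (h1 : ∀ i, h ≤ i → i + 1 < N → Commute (Ss A B T i) x)
    (h2 : ∀ i, h ≤ i → i < N → Commute (Rw (A i) (B i)) x) (w : G) (hw : w ∈ Wg N A B T h) :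
    Commute w x := by
  have hle : Wg N A B T h ≤ Subgroup.centralizer {x} := by
    unfold Wg
    rw [Subgroup.closure_le]
    rintro z (⟨i, hi, hi', rfl⟩ | ⟨i, hi, hi', rfl⟩)
    · rw [SetLike.mem_coe, Subgroup.mem_centralizer_singleton_iff]
      exact h1 i hi hi'
    · rw [SetLike.mem_coe, Subgroup.mem_centralizer_singleton_iff]
      exact (h2 i hi hi').pow_left 2
  exact Subgroup.mem_centralizer_singleton_iff.1 (hle hw)

section rel
variable {tau : G} (r : HRel N A B al be T tau)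
include r

theorem W_comm_B {h j : ℕ} (hj : j < h) (hjN : j < N) (w : G) (hw : w ∈ Wg N A B T h) :
    Commute w (B j) := by
  refine W_comm ?_ ?_ w hw
  · intro i hi hi'
    exact Ss_comm (r.commAB i (by omega) j hjN (by omega)) (r.commBB i (by omega) j hjN)
      (r.commTB i hi' j hjN (by omega) (by omega)) (r.commBB (i + 1) hi' j hjN)
      (r.commAB (i + 1) hi' j hjN (by omega))
  · intro i hi hi'
    exact Rw_comm (r.commAB i (by omega) j hjN (by omega)) (r.commBB i (by omega) j hjN)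

theorem W_comm_A {h j : ℕ} (hj : j < h) (hjN : j < N) (w : G) (hw : w ∈ Wg N A B T h) :
    Commute w (A j) := by
  refine W_comm ?_ ?_ w hw
  · intro i hi hi'
    exact Ss_comm (r.commAA i (by omega) j hjN) (r.commAB j hjN i (by omega) (by omega)).symm
      (r.commTA i hi' j hjN) (r.commAB j hjN (i + 1) hi' (by omega)).symm
      (r.commAA (i + 1) hi' j hjN)
  · intro i hi hi'
    exact Rw_comm (r.commAA i (by omega) j hjN) (r.commAB j hjN i (by omega) (by omega)).symm

theorem W_comm_be {h j : ℕ} (hj : j < h) (hjN : j < N) (w : G) (hw : w ∈ Wg N A B T h) :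
    Commute w (be j) := by
  refine W_comm ?_ ?_ w hw
  · intro i hi hi'
    exact Ss_comm (r.commAbe i (by omega) j hjN (by omega)) (r.commBbe i (by omega) j hjN)
      (r.commTbe i hi' j hjN (by omega) (by omega)) (r.commBbe (i + 1) hi' j hjN)
      (r.commAbe (i + 1) hi' j hjN (by omega))
  · intro i hi hi'
    exact Rw_comm (r.commAbe i (by omega) j hjN (by omega)) (r.commBbe i (by omega) j hjN)

/-- conjugation by the elements of `Wg` permutes the slots -/
theorem W_perm {h : ℕ} (w : G) (hw : w ∈ Wg N A B T h) :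
    (∀ l, h ≤ l → l < N → ∃ l', h ≤ l' ∧ l' < N ∧ w⁻¹ * A l * w = A l' ∧ w⁻¹ * B l * w = B l') ∧
    (∀ l, h ≤ l → l < N → ∃ l', h ≤ l' ∧ l' < N ∧ w * A l * w⁻¹ = A l' ∧ w * B l * w⁻¹ = B l') := by
  unfold Wg at hw
  induction hw using Subgroup.closure_induction with
  | mem x hx =>
    rcases hx with ⟨i, hi, hi', rfl⟩ | ⟨i, hi, hi', rfl⟩
    · have e1 := r.sA i hi'
      have e2 := r.sA' i hi'
      have e3 := r.sB i hi'
      have e4 := r.sB' i hi'
      have cA : ∀ l, l < N → l ≠ i → l ≠ i + 1 → Commute (Ss A B T i) (A l) := by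
        intro l hl h1 h2
        exact Ss_comm (r.commAA i (by omega) l hl) (r.commAB l hl i (by omega) h1).symm
          (r.commTA i hi' l hl) (r.commAB l hl (i + 1) hi' h2).symm (r.commAA (i + 1) hi' l hl)
      have cB : ∀ l, l < N → l ≠ i → l ≠ i + 1 → Commute (Ss A B T i) (B l) := by
        intro l hl h1 h2
        exact Ss_comm (r.commAB i (by omega) l hl (Ne.symm h1)) (r.commBB i (by omega) l hl)
          (r.commTB i hi' l hl h1 h2) (r.commBB (i + 1) hi' l hl)
          (r.commAB (i + 1) hi' l hl (Ne.symm h2))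
      constructor
      · intro l hl hlN
        by_cases h1 : l = i
        · subst h1
          refine ⟨l + 1, by omega, hi', ?_, ?_⟩
          · rw [mul_assoc, ← e2]; group
          · rw [mul_assoc, ← e4]; group
        · by_cases h2 : l = i + 1
          · subst h2
            refine ⟨i, by omega, by omega, ?_, ?_⟩
            · rw [mul_assoc, ← e1]; group
            · rw [mul_assoc, ← e3]; group
          · refine ⟨l, hl, hlN, ?_, ?_⟩
            · rw [mul_assoc, ← (cA l hlN h1 h2).eq]; group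
            · rw [mul_assoc, ← (cB l hlN h1 h2).eq]; group
      · intro l hl hlN
        by_cases h1 : l = i
        · subst h1
          refine ⟨l + 1, by omega, hi', ?_, ?_⟩
          · rw [e1]; group
          · rw [e3]; group
        · by_cases h2 : l = i + 1
          · subst h2
            refine ⟨i, by omega, by omega, ?_, ?_⟩
            · rw [e2]; group
            · rw [e4]; group
          · refine ⟨l, hl, hlN, ?_, ?_⟩
            · rw [(cA l hlN h1 h2).eq]; group
            · rw [(cB l hlN h1 h2).eq]; group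
    · have hq : Commute ((Rw (A i) (B i)) ^ 2) (A i) := T3c.sq_comm (r.braidAB i hi')
      have hq' : Commute ((Rw (A i) (B i)) ^ 2) (B i) := by
        have hb := r.braidAB i hi'
        have e1 : Rw (A i) (B i) = B i * A i * B i := hb
        rw [e1]
        exact T3c.sq_comm hb.symm
      have c : ∀ l, l < N → Commute ((Rw (A i) (B i)) ^ 2) (A l) ∧
          Commute ((Rw (A i) (B i)) ^ 2) (B l) := by
        intro l hl
        by_cases h1 : l = i
        · subst h1; exact ⟨hq, hq'⟩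
        · exact ⟨(Rw_comm (r.commAA i hi' l hl) (r.commAB l hl i hi' h1).symm).pow_left 2,
            (Rw_comm (r.commAB i hi' l hl (Ne.symm h1)) (r.commBB i hi' l hl)).pow_left 2⟩
      constructor
      · intro l hl hlN
        refine ⟨l, hl, hlN, ?_, ?_⟩
        · rw [mul_assoc, ← (c l hlN).1.eq]; group
        · rw [mul_assoc, ← (c l hlN).2.eq]; group
      · intro l hl hlN
        refine ⟨l, hl, hlN, ?_, ?_⟩
        · rw [(c l hlN).1.eq]; group
        · rw [(c l hlN).2.eq]; group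
  | one =>
    constructor
    · intro l hl hlN
      exact ⟨l, hl, hlN, by group, by group⟩
    · intro l hl hlN
      exact ⟨l, hl, hlN, by group, by group⟩
  | mul x y _ _ hx hy =>
    constructor
    · intro l hl hlN
      obtain ⟨l', h1, h2, h3, h4⟩ := hx.1 l hl hlN
      obtain ⟨l'', k1, k2, k3, k4⟩ := hy.1 l' h1 h2
      refine ⟨l'', k1, k2, ?_, ?_⟩
      · rw [← k3, ← h3]; group
      · rw [← k4, ← h4]; group
    · intro l hl hlN
      obtain ⟨l', h1, h2, h3, h4⟩ := hy.2 l hl hlN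
      obtain ⟨l'', k1, k2, k3, k4⟩ := hx.2 l' h1 h2
      refine ⟨l'', k1, k2, ?_, ?_⟩
      · rw [← k3, ← h3]; group
      · rw [← k4, ← h4]; group
  | inv x _ hx =>
    constructor
    · intro l hl hlN
      rw [inv_inv]
      exact hx.2 l hl hlN
    · intro l hl hlN
      rw [inv_inv]
      exact hx.1 l hl hlN

theorem M_comm {h l : ℕ} (hl : h ≤ l) (hlN : l < N) (x : G) (hx : x ∈ Mh N A B al be T h) :
    Commute x (A l) := by
  have h1 : Mh N A B al be T h ≤ Subgroup.centralizer {A l} := by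
    unfold Mh
    rw [Subgroup.closure_le]
    rintro z ⟨w, hw, y, hy, rfl⟩
    rw [SetLike.mem_coe, Subgroup.mem_centralizer_singleton_iff]
    obtain ⟨l', k1, k2, k3, _⟩ := (W_perm r w hw).1 l hl hlN
    have key : Commute y (A l') := by
      cases hy with
      | A i hi => exact r.commAA i hi l' k2
      | B i hh hi => exact (r.commAB l' k2 i hi (by omega)).symm
      | T i hh hi => exact r.commTA i hi l' k2
      | al i hh hi => exact (r.commAal l' k2 i hi).symm
      | be i hh hi => exact (r.commAbe l' k2 i hi (by omega)).symm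
    have e : A l = w * A l' * w⁻¹ := by rw [← k3]; group
    show w * y * w⁻¹ * A l = A l * (w * y * w⁻¹)
    rw [e]
    calc w * y * w⁻¹ * (w * A l' * w⁻¹) = w * (y * A l') * w⁻¹ := by group
      _ = w * (A l' * y) * w⁻¹ := by rw [key.eq]
      _ = w * A l' * w⁻¹ * (w * y * w⁻¹) := by group
  exact Subgroup.mem_centralizer_singleton_iff.1 (h1 hx)

/-- `T_{i+1}` from `D_i` -/
theorem T_of_D {i : ℕ} (hi : i + 2 < N) : T (i + 1) = (Ss A B T i)⁻¹ *
    (Qw (A i) (B i) * Dd A B T i * (Qw (A i) (B i))⁻¹) * Ss A B T i := by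
  have h1 := r.dd2 i hi
  have h2 : Qw (A i) (B i) * Dd A B T i * (Qw (A i) (B i))⁻¹ =
      Ss A B T i * T (i + 1) * (Ss A B T i)⁻¹ := by rw [h1]; group
  rw [h2]
  group

/-- `D_i` from `T_{i+1}` -/
theorem D_of_T {i : ℕ} (hi : i + 2 < N) : Dd A B T i = (Qw (A i) (B i))⁻¹ *
    (Ss A B T i * T (i + 1) * (Ss A B T i)⁻¹) * Qw (A i) (B i) := by
  have h1 := r.dd2 i hi
  calc Dd A B T i = (Qw (A i) (B i))⁻¹ * (Qw (A i) (B i) * Dd A B T i) := by group
    _ = _ := by rw [h1]; group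

/-- `D_{h-1}` lies in `M_h` -/
theorem D_M {h : ℕ} (hh : h + 2 < N) : Dd A B T h ∈ Mh N A B al be T (h + 1) := by
  have h1 : T h ∈ Mh N A B al be T (h + 1) := X_M (.T h (by omega) (by omega))
  unfold Dd
  exact W_conj' (S_W (by omega) (by omega)) (W_conj (Q_W (by omega) (by omega)) h1)

theorem al_M {h l : ℕ} (hl : l < N) : al l ∈ Mh N A B al be T h := by
  rcases le_or_gt l h with hh | hh
  · exact X_M (.al l hh hl)
  · obtain ⟨d, rfl⟩ : ∃ d, l = h + d := ⟨l - h, by omega⟩
    clear hh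
    induction d with
    | zero => exact X_M (.al _ le_rfl hl)
    | succ d ih =>
      have h1 := ih (by omega)
      have h2 := r.sal (h + d) (by omega)
      have e : al (h + (d + 1)) = Ss A B T (h + d) * al (h + d) * (Ss A B T (h + d))⁻¹ := by
        rw [h2, ← add_assoc]; group
      rw [e]
      exact W_conj (S_W (by omega) (by omega)) h1

theorem be_W {h l : ℕ} (hh : h ≤ l) (hl : l < N) :
    ∃ w ∈ Wg N A B T h, be l = w * be h * w⁻¹ := by
  obtain ⟨d, rfl⟩ : ∃ d, l = h + d := ⟨l - h, by omega⟩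
  clear hh
  induction d with
  | zero => exact ⟨1, Subgroup.one_mem _, by simp⟩
  | succ d ih =>
    obtain ⟨w, hw, e⟩ := ih (by omega)
    have h2 := r.sbe (h + d) (by omega)
    refine ⟨Ss A B T (h + d) * w, Subgroup.mul_mem _ (S_W (by omega) (by omega)) hw, ?_⟩
    have e2 : be (h + (d + 1)) = Ss A B T (h + d) * be (h + d) * (Ss A B T (h + d))⁻¹ := by
      rw [h2, ← add_assoc]; group
    rw [e2, e]
    group

end rel

end

end Pool.Agent.TH35.MG
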