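import Mathlib
import Pool.Agent.TH35.MG.HM
import Pool.Agent.TH35.MG.MH
import Pool.Agent.TH35.MG.Lev2
import Pool.Agent.Helper950.BG.LA

set_option autoImplicit false

/-! From the pairs `A_i - B_i` to `A_i - 1`: blocks of three handles. -/

namespace Pool.Agent.TH35.MG

open Pool.Agent.H798R3.MG Pool.Agent.Helper950.BG Module

section
variable {G : Type*} [Group G]

theorem eq_of_cb {x y : G} (hc : Commute x y) (hb : x * y * x = y * x * y) : x = y := by
  have h1 : x * y * x = y * x * x := by rw [hc.eq]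
  rw [h1] at hb
  exact mul_left_cancel hb

/-- in three handles, `A 2 = B 2` forces everything to be trivial -/
theorem blk3 {A B al be T : ℕ → G} {tau : G} (r : HRel 3 A B al be T tau) (h : A 2 = B 2) :
    A 2 = 1 := by
  obtain ⟨c, hc⟩ : ∃ c, c = B 2 := ⟨_, rfl⟩
  have hA2 : A 2 = c := by rw [h, hc]
  have hB2 : B 2 = c := hc.symm
  have hT1 : T 1 = c := by
    have h1 := r.commTA 1 (by omega) 2 (by omega)
    rw [h] at h1
    rw [hc]
    exact eq_of_cb h1 (r.braidTBj 1 (by omega))
  have hB1 : B 1 = c := by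
    have h1 : Commute (T 1) (B 1) := by
      rw [hT1, hc]; exact r.commBB 2 (by omega) 1 (by omega)
    rw [← hT1]
    exact (eq_of_cb h1 (r.braidTBi 1 (by omega))).symm
  have hA1 : A 1 = c := by
    have h1 : Commute (A 1) (B 1) := by
      rw [hB1, ← hT1]; exact (r.commTA 1 (by omega) 1 (by omega)).symm
    rw [← hB1]
    exact eq_of_cb h1 (r.braidAB 1 (by omega))
  have hT0 : T 0 = c := by
    have h1 : Commute (T 0) (B 1) := by
      rw [hB1, ← hA1]; exact r.commTA 0 (by omega) 1 (by omega)
    rw [← hB1]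
    exact eq_of_cb h1 (r.braidTBj 0 (by omega))
  have hB0 : B 0 = c := by
    have h1 : Commute (T 0) (B 0) := by
      rw [hT0, hc]; exact r.commBB 2 (by omega) 0 (by omega)
    rw [← hT0]
    exact (eq_of_cb h1 (r.braidTBi 0 (by omega))).symm
  have hA0 : A 0 = c := by
    have h1 : Commute (A 0) (B 0) := by
      rw [hB0, ← hT0]; exact (r.commTA 0 (by omega) 0 (by omega)).symm
    rw [← hB0]
    exact eq_of_cb h1 (r.braidAB 0 (by omega))
  have hL : Ll A B T 0 = 1 := by
    simp only [Ll, Dd, Ss, Sw, Qw, Rw, zero_add, show (1 : ℕ) + 1 = 2 from rfl, hA0, hA1, hA2,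
      hB1, hB2, hT0, hT1]
    group
  have hl := r.lantern 0 (by omega)
  rw [hL, hB0, one_mul, mul_one] at hl
  rw [hA2]
  have h2 : c * c = c := hl.symm
  exact mul_eq_left.1 h2

/-- forgetting the pushes -/
theorem HRel.forget {N : ℕ} {A B al be T : ℕ → G} {tau : G} (r : HRel N A B al be T tau) :
    HRel N A B (fun _ => 1) (fun _ => 1) T 1 where
  braidAB := r.braidAB
  commAA := r.commAA
  commAB := r.commAB
  commBB := r.commBB
  commAal := fun _ _ _ _ => Commute.one_right _
  commAbe := fun _ _ _ _ _ => Commute.one_right _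
  commBal := fun _ _ _ _ _ => Commute.one_right _
  commBbe := fun _ _ _ _ => Commute.one_right _
  A_be := fun _ _ => by group
  B_al := fun _ _ => by group
  commTA := r.commTA
  commTB := r.commTB
  commTal := fun _ _ _ _ _ _ => Commute.one_right _
  commTbe := fun _ _ _ _ _ _ => Commute.one_right _
  braidTBi := r.braidTBi
  braidTBj := r.braidTBj
  T_al_i := fun _ _ => by simp only [UU, dl]; group
  T_be_i := fun _ _ => by simp only [UU, dl]; group
  T_al_j := fun _ _ => by simp only [WW, dl]; group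
  T_be_j := fun _ _ => by simp only [WW, dl]; group
  commTT := r.commTT
  sA := r.sA
  sA' := r.sA'
  sB := r.sB
  sB' := r.sB'
  sal := fun _ _ => by rw [mul_one, one_mul]
  sbe := fun _ _ => by rw [mul_one, one_mul]
  dd2 := r.dd2
  lantern := r.lantern
  tauA := fun _ _ => Commute.one_left _
  tauB := fun _ _ => Commute.one_left _
  tauAl := fun _ _ => Commute.one_left _
  tauBe := fun _ _ => Commute.one_left _
  tauT := fun _ _ => Commute.one_left _

theorem HRel.mono {N M : ℕ} {A B al be T : ℕ → G} {tau : G} (r : HRel N A B al be T tau)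
    (h : M ≤ N) : HRel M A B al be T tau where
  braidAB := fun i hi => r.braidAB i (by omega)
  commAA := fun i hi j hj => r.commAA i (by omega) j (by omega)
  commAB := fun i hi j hj => r.commAB i (by omega) j (by omega)
  commBB := fun i hi j hj => r.commBB i (by omega) j (by omega)
  commAal := fun i hi j hj => r.commAal i (by omega) j (by omega)
  commAbe := fun i hi j hj => r.commAbe i (by omega) j (by omega)
  commBal := fun i hi j hj => r.commBal i (by omega) j (by omega)
  commBbe := fun i hi j hj => r.commBbe i (by omega) j (by omega)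
  A_be := fun i hi => r.A_be i (by omega)
  B_al := fun i hi => r.B_al i (by omega)
  commTA := fun i hi j hj => r.commTA i (by omega) j (by omega)
  commTB := fun i hi j hj => r.commTB i (by omega) j (by omega)
  commTal := fun i hi j hj => r.commTal i (by omega) j (by omega)
  commTbe := fun i hi j hj => r.commTbe i (by omega) j (by omega)
  braidTBi := fun i hi => r.braidTBi i (by omega)
  braidTBj := fun i hi => r.braidTBj i (by omega)
  T_al_i := fun i hi => r.T_al_i i (by omega)
  T_be_i := fun i hi => r.T_be_i i (by omega)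
  T_al_j := fun i hi => r.T_al_j i (by omega)
  T_be_j := fun i hi => r.T_be_j i (by omega)
  commTT := fun i j hij hj => r.commTT i j hij (by omega)
  sA := fun i hi => r.sA i (by omega)
  sA' := fun i hi => r.sA' i (by omega)
  sB := fun i hi => r.sB i (by omega)
  sB' := fun i hi => r.sB' i (by omega)
  sal := fun i hi => r.sal i (by omega)
  sbe := fun i hi => r.sbe i (by omega)
  dd2 := fun i hi => r.dd2 i (by omega)
  lantern := fun i hi => r.lantern i (by omega)
  tauA := fun i hi => r.tauA i (by omega)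
  tauB := fun i hi => r.tauB i (by omega)
  tauAl := fun i hi => r.tauAl i (by omega)
  tauBe := fun i hi => r.tauBe i (by omega)
  tauT := fun i hi => r.tauT i (by omega)

/-- a conjugate of the first block containing the handle `p` -/
theorem move {N : ℕ} {A B al be T : ℕ → G} {tau : G} (r : HRel N A B al be T tau) {p : ℕ}
    (h2 : 2 ≤ p) (hp : p < N) : ∃ w : G, w * A 2 * w⁻¹ = A p ∧ w * B 2 * w⁻¹ = B p ∧
      ∀ l, 2 ≤ l → l < N → l ≠ p → ∃ l', 3 ≤ l' ∧ l' < N ∧ A l = w * A l' * w⁻¹ ∧
        B l = w * B l' * w⁻¹ := by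
  obtain ⟨d, rfl⟩ : ∃ d, p = 2 + d := ⟨p - 2, by omega⟩
  clear h2
  induction d with
  | zero =>
    refine ⟨1, by simp, by simp, ?_⟩
    intro l h1 h2 h3
    exact ⟨l, by omega, h2, by simp, by simp⟩
  | succ d ih =>
    obtain ⟨w, e1, e2, h3⟩ := ih (by omega)
    have s1 := r.sA (2 + d) (by omega)
    have s2 := r.sA' (2 + d) (by omega)
    have s3 := r.sB (2 + d) (by omega)
    have s4 := r.sB' (2 + d) (by omega)
    refine ⟨Ss A B T (2 + d) * w, ?_, ?_, ?_⟩
    · have e : Ss A B T (2 + d) * w * A 2 * (Ss A B T (2 + d) * w)⁻¹ =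
          Ss A B T (2 + d) * (w * A 2 * w⁻¹) * (Ss A B T (2 + d))⁻¹ := by group
      rw [e, e1, s1, ← add_assoc]
      group
    · have e : Ss A B T (2 + d) * w * B 2 * (Ss A B T (2 + d) * w)⁻¹ =
          Ss A B T (2 + d) * (w * B 2 * w⁻¹) * (Ss A B T (2 + d))⁻¹ := by group
      rw [e, e2, s3, ← add_assoc]
      group
    · intro l hl hlN hne
      by_cases h4 : l = 2 + d
      · obtain ⟨l', k1, k2, k3, k4⟩ := h3 (2 + d + 1) (by omega) (by omega) (by omega)
        refine ⟨l', k1, k2, ?_, ?_⟩
        · have e : Ss A B T (2 + d) * w * A l' * (Ss A B T (2 + d) * w)⁻¹ =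
              Ss A B T (2 + d) * (w * A l' * w⁻¹) * (Ss A B T (2 + d))⁻¹ := by group
          rw [e, ← k3, s2, h4]
          group
        · have e : Ss A B T (2 + d) * w * B l' * (Ss A B T (2 + d) * w)⁻¹ =
              Ss A B T (2 + d) * (w * B l' * w⁻¹) * (Ss A B T (2 + d))⁻¹ := by group
          rw [e, ← k4, s4, h4]
          group
      · obtain ⟨l', k1, k2, k3, k4⟩ := h3 l hl hlN h4
        have hdN : 2 + d + 1 < N := by omega
        have c1 : Commute (Ss A B T (2 + d)) (A l) :=
          Ss_comm (r.commAA _ (by omega) l hlN) (r.commAB l hlN _ (by omega) h4).symm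
            (r.commTA _ hdN l hlN) (r.commAB l hlN _ hdN (by omega)).symm
            (r.commAA _ hdN l hlN)
        have c2 : Commute (Ss A B T (2 + d)) (B l) :=
          Ss_comm (r.commAB _ (by omega) l hlN (by omega)) (r.commBB _ (by omega) l hlN)
            (r.commTB _ hdN l hlN h4 (by omega)) (r.commBB _ hdN l hlN)
            (r.commAB _ hdN l hlN (by omega))
        refine ⟨l', k1, k2, ?_, ?_⟩
        · have e : Ss A B T (2 + d) * w * A l' * (Ss A B T (2 + d) * w)⁻¹ =
              Ss A B T (2 + d) * (w * A l' * w⁻¹) * (Ss A B T (2 + d))⁻¹ := by group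
          rw [e, ← k3, c1.eq]
          group
        · have e : Ss A B T (2 + d) * w * B l' * (Ss A B T (2 + d) * w)⁻¹ =
              Ss A B T (2 + d) * (w * B l' * w⁻¹) * (Ss A B T (2 + d))⁻¹ := by group
          rw [e, ← k4, c2.eq]
          group

end

section
variable {K V G : Type*} [Field K] [AddCommGroup V] [Module K V] [Group G]

/-- if `A_p = B_p` on a subspace stable under everything commuting with the other handles, then
`A_p = 1` on it -/
theorem blk_on {N : ℕ} {A B al be T : ℕ → G} {tau : G} (r : HRel N A B al be T tau)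
    (ρ : G →* Module.End K V) {p : ℕ} (h2 : 2 ≤ p) (hp : p < N) (W : Submodule K V)
    (hW : ∀ x : G, (∀ l, 2 ≤ l → l < N → l ≠ p → Commute x (A l) ∧ Commute x (B l)) →
      ∀ v ∈ W, ρ x v ∈ W) (hAB : ∀ v ∈ W, ρ (A p) v = ρ (B p) v) :
    ∀ v ∈ W, ρ (A p) v = v := by
  obtain ⟨w, e1, e2, h3⟩ := move r h2 hp
  -- the group of all elements commuting with the other handles
  let C : Subgroup G :=
    { carrier := {x | ∀ l, 2 ≤ l → l < N → l ≠ p → Commute x (A l) ∧ Commute x (B l)}
      one_mem' := fun l _ _ _ => ⟨Commute.one_left _, Commute.one_left _⟩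
      mul_mem' := fun ha hb l h1 h2 h3 => ⟨(ha l h1 h2 h3).1.mul_left (hb l h1 h2 h3).1,
        (ha l h1 h2 h3).2.mul_left (hb l h1 h2 h3).2⟩
      inv_mem' := fun ha l h1 h2 h3 => ⟨(ha l h1 h2 h3).1.inv_left, (ha l h1 h2 h3).2.inv_left⟩ }
  have hC : ∀ x : G, (∀ l', 3 ≤ l' → l' < N → Commute x (A l') ∧ Commute x (B l')) →
      w * x * w⁻¹ ∈ C := by
    intro x hx l hl hlN hlp
    obtain ⟨l', k1, k2, k3, k4⟩ := h3 l hl hlN hlp
    obtain ⟨c1, c2⟩ := hx l' k1 k2
    constructor
    · show w * x * w⁻¹ * A l = A l * (w * x * w⁻¹)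
      rw [k3]
      calc w * x * w⁻¹ * (w * A l' * w⁻¹) = w * (x * A l') * w⁻¹ := by group
        _ = w * (A l' * x) * w⁻¹ := by rw [c1.eq]
        _ = _ := by group
    · show w * x * w⁻¹ * B l = B l * (w * x * w⁻¹)
      rw [k4]
      calc w * x * w⁻¹ * (w * B l' * w⁻¹) = w * (x * B l') * w⁻¹ := by group
        _ = w * (B l' * x) * w⁻¹ := by rw [c2.eq]
        _ = _ := by group
  let σ : C →* Module.End K W := restr (ρ.comp C.subtype) W (fun x v hv => hW x.1 x.2 v hv)
  have hσ : ∀ (x : C) (v : W), ((σ x v : W) : V) = ρ x v := fun x v => rfl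
  have r3 : HRel 3 A B (fun _ => 1) (fun _ => 1) T 1 := (r.forget).mono (by omega)
  classical
  let L : G → C := fun x => if h : w * x * w⁻¹ ∈ C then ⟨w * x * w⁻¹, h⟩ else 1
  have hL : ∀ x, w * x * w⁻¹ ∈ C → ((L x : C) : G) = w * x * w⁻¹ := by
    intro x hx
    simp only [L, dif_pos hx]
  have mA : ∀ i < 3, w * A i * w⁻¹ ∈ C := fun i hi => hC _ fun l' k1 k2 =>
    ⟨r.commAA i (by omega) l' k2, r.commAB i (by omega) l' k2 (by omega)⟩
  have mB : ∀ i < 3, w * B i * w⁻¹ ∈ C := fun i hi => hC _ fun l' k1 k2 =>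
    ⟨(r.commAB l' k2 i (by omega) (by omega)).symm, r.commBB i (by omega) l' k2⟩
  have mT : ∀ i, i + 1 < 3 → w * T i * w⁻¹ ∈ C := fun i hi => hC _ fun l' k1 k2 =>
    ⟨r.commTA i (by omega) l' k2, r.commTB i (by omega) l' k2 (by omega) (by omega)⟩
  have r4 : HRel 3 (fun i => L (A i)) (fun i => L (B i)) (fun _ => 1) (fun _ => 1)
      (fun i => L (T i)) 1 := by
    refine HRel.pull C.subtype C.subtype_injective ?_
    have r5 := HRel.map (MulAut.conj w).toMonoidHom r3
    refine r5.congr (fun i hi => hL _ (mA i hi)) (fun i hi => hL _ (mB i hi))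
      (fun i hi => ?_) (fun i hi => ?_) (fun i hi => hL _ (mT i hi)) |>.tau_eq ?_
    · simp
    · simp
    · simp
  have r6 := HRel.map σ.toHomUnits r4
  have key := blk3 r6 (by
    apply Units.ext
    rw [MonoidHom.coe_toHomUnits, MonoidHom.coe_toHomUnits]
    apply LinearMap.ext
    intro v
    apply Subtype.ext
    rw [hσ, hσ, hL _ (mA 2 (by omega)), hL _ (mB 2 (by omega)), e1, e2]
    exact hAB v v.2)
  intro v hv
  have k2 := congrArg (fun u : (Module.End K W)ˣ => ((((u : Module.End K W)) ⟨v, hv⟩ : W) : V)) key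
  simp only [MonoidHom.coe_toHomUnits, Units.val_one, Module.End.one_apply] at k2
  rw [hσ, hL _ (mA 2 (by omega)), e1] at k2
  exact k2

end

end Pool.Agent.TH35.MG
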