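import Mathlib
import Pool.Agent.TH35.MG.Blk

set_option autoImplicit false

/-! The product of the `A_i - 1` vanishes in dimension `< 2^(N-2)`. -/

namespace Pool.Agent.TH35.MG

open Pool.Agent.H798R3.MG Pool.Agent.Helper950.BG Module

section
variable {K V G : Type*} [Field K] [IsAlgClosed K] [AddCommGroup V] [Module K V]
  [FiniteDimensional K V] [Group G]

theorem hlev_two {N : ℕ} {A B al be T : ℕ → G} {tau : G} (r : HRel N A B al be T tau)
    (ρ : G →* Module.End K V) (l : List ℕ) (hnd : l.Nodup) (hl : ∀ i, i ∈ l ↔ 2 ≤ i ∧ i < N)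
    (hdim : finrank K V < 2 ^ l.length) :
    (l.map (fun i => ρ (A i) - 1)).prod = 0 := by
  have hinj : ∀ (x : G) (v : V), ρ x v = 0 → v = 0 := by
    intro x v hv
    have h1 : ρ x⁻¹ (ρ x v) = v := by
      rw [← Module.End.mul_apply, ← map_mul, inv_mul_cancel, map_one, Module.End.one_apply]
    rw [← h1, hv, map_zero]
  have hlt : ∀ i ∈ l, i < N := fun i hi => ((hl i).1 hi).2
  have hP : Pairs l (fun i => ρ (A i)) (fun i => ρ (B i)) :=
    { AA := fun i hi j hj _ => (r.commAA i (hlt i hi) j (hlt j hj)).map ρ
      AB := fun i hi j hj hij => (r.commAB i (hlt i hi) j (hlt j hj) hij).map ρ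
      BB := fun i hi j hj _ => (r.commBB i (hlt i hi) j (hlt j hj)).map ρ
      br := fun i hi => by
        rw [← map_mul, ← map_mul, ← map_mul, ← map_mul, r.braidAB i (hlt i hi)]
      iA := fun i _ v hv => hinj _ v hv
      iB := fun i _ v hv => hinj _ v hv }
  have h0 := level_pairs l hnd V (fun i => ρ (A i)) (fun i => ρ (B i)) hP hdim
  -- move the factors one by one
  have key : ∀ l1 l2 : List ℕ, l1 ++ l2 = l →
      (l1.map (fun i => ρ (A i) - 1)).prod * (l2.map (fun i => ρ (A i) - ρ (B i))).prod = 0 := by
    intro l1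
    induction l1 using List.reverseRecOn with
    | nil =>
      intro l2 e
      rw [List.nil_append] at e
      subst e
      rw [List.map_nil, List.prod_nil, one_mul]
      exact h0
    | append_singleton l1 p ih =>
      intro l2 e
      have e' : l1 ++ (p :: l2) = l := by
        rw [← e, List.append_assoc, List.singleton_append]
      have h1 := ih (p :: l2) e'
      have hnd' : (l1 ++ (p :: l2)).Nodup := by rw [e']; exact hnd
      have hp1 : p ∉ l1 := by
        intro hp
        have := List.disjoint_of_nodup_append hnd'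
        exact this hp List.mem_cons_self
      have hp2 : p ∉ l2 := by
        have := (List.nodup_append.1 hnd').2.1
        exact (List.nodup_cons.1 this).1
      have hpl : p ∈ l := by rw [← e']; simp
      obtain ⟨hp2', hpN⟩ := (hl p).1 hpl
      have hm1 : ∀ i ∈ l1, 2 ≤ i ∧ i < N ∧ i ≠ p := fun i hi =>
        ⟨((hl i).1 (by rw [← e']; exact List.mem_append_left _ hi)).1,
          ((hl i).1 (by rw [← e']; exact List.mem_append_left _ hi)).2,
          fun h => hp1 (h ▸ hi)⟩
      have hm2 : ∀ i ∈ l2, 2 ≤ i ∧ i < N ∧ i ≠ p := fun i hi =>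
        ⟨((hl i).1 (by rw [← e']; exact List.mem_append_right _ (List.mem_cons_of_mem _ hi))).1,
          ((hl i).1 (by rw [← e']; exact List.mem_append_right _ (List.mem_cons_of_mem _ hi))).2,
          fun h => hp2 (h ▸ hi)⟩
      set X1 := (l1.map (fun i => ρ (A i) - 1)).prod with hX1
      set X2 := (l2.map (fun i => ρ (A i) - ρ (B i))).prod with hX2
      rw [List.map_cons, List.prod_cons] at h1
      rw [List.map_append, List.prod_append, List.map_singleton, List.prod_singleton]
      have cX1 : ∀ y : Module.End K V, (∀ i ∈ l1, Commute y (ρ (A i))) → Commute y X1 := by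
        intro y hy
        exact commute_list y _ l1 fun i hi => (hy i hi).sub_right (Commute.one_right _)
      have cX2 : ∀ y : Module.End K V, (∀ i ∈ l2, Commute y (ρ (A i)) ∧ Commute y (ρ (B i))) →
          Commute y X2 := by
        intro y hy
        exact commute_list y _ l2 fun i hi => (hy i hi).1.sub_right (hy i hi).2
      have cA1 : Commute (ρ (A p)) X1 := cX1 _ fun i hi =>
        (r.commAA p hpN i (hm1 i hi).2.1).map ρ
      have cB1 : Commute (ρ (B p)) X1 := cX1 _ fun i hi =>
        ((r.commAB i (hm1 i hi).2.1 p hpN (hm1 i hi).2.2).map ρ).symm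
      have c1 : Commute (ρ (A p) - ρ (B p)) X1 := cA1.sub_left cB1
      have c2 : Commute (ρ (A p) - 1) X1 := cA1.sub_left (Commute.one_left _)
      -- `A_p = B_p` on the range of `X1 X2`
      have h2 : (ρ (A p) - ρ (B p)) * (X1 * X2) = 0 := by
        rw [← mul_assoc, c1.eq, mul_assoc]
        exact h1
      have h3 := blk_on r ρ hp2' hpN (LinearMap.range (X1 * X2)) (by
        rintro x hx v ⟨u, rfl⟩
        have cx1 : Commute (ρ x) X1 := cX1 _ fun i hi =>
          ((hx i (hm1 i hi).1 (hm1 i hi).2.1 (hm1 i hi).2.2).1).map ρ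
        have cx2 : Commute (ρ x) X2 := cX2 _ fun i hi =>
          ⟨((hx i (hm2 i hi).1 (hm2 i hi).2.1 (hm2 i hi).2.2).1).map ρ,
            ((hx i (hm2 i hi).1 (hm2 i hi).2.1 (hm2 i hi).2.2).2).map ρ⟩
        refine ⟨ρ x u, ?_⟩
        have h5 := LinearMap.congr_fun ((cx1.mul_right cx2).eq) u
        exact h5.symm) (by
        rintro v ⟨u, rfl⟩
        have h4 := LinearMap.congr_fun h2 u
        rw [Module.End.mul_apply, LinearMap.sub_apply, LinearMap.zero_apply, sub_eq_zero] at h4
        exact h4)
      have h6 : (ρ (A p) - 1) * (X1 * X2) = 0 := by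
        apply LinearMap.ext
        intro u
        rw [Module.End.mul_apply, LinearMap.sub_apply, Module.End.one_apply,
          LinearMap.zero_apply, sub_eq_zero]
        exact h3 _ ⟨u, rfl⟩
      rw [mul_assoc, ← mul_assoc (ρ (A p) - 1), ] at *
      rw [← mul_assoc, ← c2.eq, mul_assoc]
      exact h6
  have hfin := key l [] (List.append_nil l)
  rwa [List.map_nil, List.prod_nil, mul_one] at hfin

end

end Pool.Agent.TH35.MG
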