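import Mathlib
import Pool.Agent.TH35.MG.MH

set_option autoImplicit false

/-! Generation and normal closure for the groups `M_h`. -/

namespace Pool.Agent.TH35.MG

open Pool.Agent.H798R3.MG

section
variable {G : Type*} [Group G] {N : ℕ} {A B al be T : ℕ → G}

/-- braid relation: membership passes from `x` to `y` -/
theorem BRm {M N' : Subgroup G} (hn : ∀ m ∈ M, ∀ y ∈ N', m * y * m⁻¹ ∈ N') {x y : G}
    (hx : x ∈ M) (hy : y ∈ M) (hb : x * y * x = y * x * y) (h : x ∈ N') : y ∈ N' := by
  have e : y = (x * y) * x * (x * y)⁻¹ := by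
    rw [hb]; group
  rw [e]
  exact hn _ (M.mul_mem hx hy) _ h

theorem erase_M (r : HRel N A B al be T 1) {h : ℕ} (h1 : 1 ≤ h) (hN : h < N) :
    Mh N A B al be T (h + 1) ≤
      Subgroup.closure (insert (B h) (Mh N A B al be T h : Set G)) := by
  obtain ⟨H, hH⟩ : ∃ H, H = Subgroup.closure (insert (B h) (Mh N A B al be T h : Set G)) :=
    ⟨_, rfl⟩
  rw [← hH]
  have hB : B h ∈ H := by rw [hH]; exact Subgroup.subset_closure (Set.mem_insert _ _)
  have hM : ∀ x ∈ Mh N A B al be T h, x ∈ H := by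
    intro x hx
    rw [hH]
    exact Subgroup.subset_closure (Set.mem_insert_of_mem _ hx)
  have hX : ∀ x, InX N A B al be T h x → x ∈ H := fun x hx => hM x (X_M hx)
  have hW : ∀ w ∈ Wg N A B T (h + 1), ∀ x ∈ H, w * x * w⁻¹ ∈ H := by
    intro w hw x hx
    rw [hH] at hx
    refine conj_closure w ?_ x hx
    rintro y (rfl | hy)
    · rw [(W_comm_B r (Nat.lt_succ_self h) hN w hw).eq]
      rwa [mul_inv_cancel_right]
    · exact hM _ (W_conj (W_mono h hw) hy)
  have hXH : ∀ y, InX N A B al be T (h + 1) y → y ∈ H := by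
    intro y hy
    cases hy with
    | A i hi => exact hX _ (.A i hi)
    | B i hh hi =>
      rcases Nat.lt_succ_iff_lt_or_eq.1 hh with hh' | rfl
      · exact hX _ (.B i hh' hi)
      · exact hB
    | T i hh hi =>
      rcases Nat.lt_succ_iff_lt_or_eq.1 hh with hh' | rfl
      · exact hX _ (.T i hh' hi)
      · obtain ⟨k, rfl⟩ : ∃ k, i = k + 1 := ⟨i - 1, by omega⟩
        rw [T_of_D r (i := k) (by omega)]
        have hS : Ss A B T k ∈ H := Ss_mem (hX _ (.A k (by omega)))
          (hX _ (.B k (by omega) (by omega))) (hX _ (.T k (by omega) (by omega))) hB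
          (hX _ (.A (k + 1) (by omega)))
        have hQ : Qw (A k) (B k) ∈ H := Qw_mem (hX _ (.A k (by omega)))
          (hX _ (.B k (by omega) (by omega)))
        exact cj_mem' hS (cj_mem hQ (hM _ (D_M r (by omega))))
    | al i hh hi => exact hM _ (al_M r hi)
    | be i hh hi =>
      rcases Nat.lt_succ_iff_lt_or_eq.1 hh with hh' | rfl
      · exact hX _ (.be i hh' hi)
      · exact T3a.mB H (r.B_al i hi) hB (hM _ (al_M r hi))
  unfold Mh
  rw [Subgroup.closure_le]
  rintro x ⟨w, hw, y, hy, rfl⟩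
  exact hW w hw y (hXH y hy)

theorem nc_M (r : HRel N A B al be T 1) {h : ℕ} (hN : h + 2 ≤ N) (N' : Subgroup G)
    (hA : A (h + 1) ∈ N')
    (hn : ∀ x ∈ Mh N A B al be T (h + 2), ∀ y ∈ N', x * y * x⁻¹ ∈ N') :
    Mh N A B al be T (h + 2) ≤ N' := by
  -- the core
  let P : Subgroup G :=
    { carrier := {x | ∀ w ∈ Wg N A B T (h + 2), w * x * w⁻¹ ∈ N'}
      one_mem' := by
        intro w _
        rw [mul_one, mul_inv_cancel]
        exact N'.one_mem
      mul_mem' := by
        intro a b ha hb w hw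
        have e : w * (a * b) * w⁻¹ = (w * a * w⁻¹) * (w * b * w⁻¹) := by group
        rw [e]
        exact N'.mul_mem (ha w hw) (hb w hw)
      inv_mem' := by
        intro a ha w hw
        have e : w * a⁻¹ * w⁻¹ = (w * a * w⁻¹)⁻¹ := by group
        rw [e]
        exact N'.inv_mem (ha w hw) }
  have hPdef : ∀ x, x ∈ P ↔ ∀ w ∈ Wg N A B T (h + 2), w * x * w⁻¹ ∈ N' := fun x => Iff.rfl
  have hPW : ∀ w ∈ Wg N A B T (h + 2), ∀ x ∈ P, w * x * w⁻¹ ∈ P := by
    intro w hw x hx
    rw [hPdef] at hx ⊢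
    intro w' hw'
    have e : w' * (w * x * w⁻¹) * w'⁻¹ = (w' * w) * x * (w' * w)⁻¹ := by group
    rw [e]
    exact hx _ (Subgroup.mul_mem _ hw' hw)
  have hPM : ∀ m ∈ Mh N A B al be T (h + 2), ∀ x ∈ P, m * x * m⁻¹ ∈ P := by
    intro m hm x hx
    rw [hPdef] at hx ⊢
    intro w hw
    have e : w * (m * x * m⁻¹) * w⁻¹ = (w * m * w⁻¹) * (w * x * w⁻¹) * (w * m * w⁻¹)⁻¹ := by
      group
    rw [e]
    exact hn _ (W_conj hw hm) _ (hx w hw)
  have hX : ∀ x, InX N A B al be T (h + 2) x → x ∈ Mh N A B al be T (h + 2) :=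
    fun x hx => X_M hx
  have PA1 : A (h + 1) ∈ P := by
    rw [hPdef]
    intro w hw
    rw [(W_comm_A r (j := h + 1) (by omega) (by omega) w hw).eq, mul_inv_cancel_right]
    exact hA
  have PB1 : B (h + 1) ∈ P :=
    BRm hPM (hX _ (.A _ (by omega))) (hX _ (.B _ (by omega) (by omega)))
      (r.braidAB (h + 1) (by omega)) PA1
  -- the free handles
  have PB : ∀ d, d ≤ h + 1 → B (h + 1 - d) ∈ P := by
    intro d
    induction d with
    | zero => intro _; exact PB1
    | succ d ih =>
      intro hd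
      have h1 := ih (by omega)
      obtain ⟨k, hk⟩ : ∃ k, h + 1 - d = k + 1 := ⟨h - d, by omega⟩
      rw [hk] at h1
      rw [show h + 1 - (d + 1) = k by omega]
      have hT : T k ∈ P := BRm hPM (hX _ (.B (k + 1) (by omega) (by omega)))
        (hX _ (.T k (by omega) (by omega))) (r.braidTBj k (by omega)).symm h1
      exact BRm hPM (hX _ (.T k (by omega) (by omega))) (hX _ (.B k (by omega) (by omega)))
        (r.braidTBi k (by omega)) hT
  have PB' : ∀ i, i < h + 2 → B i ∈ P := by
    intro i hi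
    have := PB (h + 1 - i) (by omega)
    rwa [show h + 1 - (h + 1 - i) = i by omega] at this
  have PA' : ∀ i, i < h + 2 → A i ∈ P := fun i hi =>
    BRm hPM (hX _ (.B i hi (by omega))) (hX _ (.A i (by omega)))
      (r.braidAB i (by omega)).symm (PB' i hi)
  have PT' : ∀ i, i < h + 2 → i + 1 < N → T i ∈ P := fun i hi hi' =>
    BRm hPM (hX _ (.B i hi (by omega))) (hX _ (.T i hi hi')) (r.braidTBi i hi').symm (PB' i hi)
  have Pal : ∀ i, i < h + 2 → al i ∈ P := by
    intro i hi
    have e : al i = ((be i)⁻¹ * A i * ((be i)⁻¹)⁻¹) * (A i)⁻¹ := by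
      have h1 := r.A_be i (by omega)
      calc al i = (be i)⁻¹ * (be i * al i) := by group
        _ = (be i)⁻¹ * (A i * be i * (A i)⁻¹) := by rw [h1]
        _ = _ := by group
    rw [e]
    exact P.mul_mem (hPM _ (Subgroup.inv_mem _ (hX _ (.be i hi (by omega)))) _ (PA' i hi))
      (P.inv_mem (PA' i hi))
  have Pbe : ∀ i, i < h + 2 → be i ∈ P := fun i hi =>
    T3a.mB P (r.B_al i (by omega)) (PB' i hi) (Pal i hi)
  -- the first slot
  have slot : ∀ k, k = h + 2 → k < N → A k ∈ P ∧ al k ∈ P := by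
    rintro k rfl hk
    constructor
    · have hDM : Dd A B T h ∈ Mh N A B al be T (h + 2) := by
        rw [D_of_T r (by omega)]
        refine cj_mem' (Qw_mem (hX _ (.A h (by omega))) (hX _ (.B h (by omega) (by omega)))) ?_
        refine cj_mem (Ss_mem (hX _ (.A h (by omega))) (hX _ (.B h (by omega) (by omega)))
          (hX _ (.T h (by omega) (by omega))) (hX _ (.B (h + 1) (by omega) (by omega)))
          (hX _ (.A (h + 1) (by omega)))) ?_
        exact hX _ (.T (h + 1) (by omega) (by omega))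
      have hDP : Dd A B T h ∈ P := by
        rw [D_of_T r (by omega)]
        refine cj_mem' (Qw_mem (PA' h (by omega)) (PB' h (by omega))) ?_
        refine cj_mem (Ss_mem (PA' h (by omega)) (PB' h (by omega))
          (PT' h (by omega) (by omega)) (PB' (h + 1) (by omega)) (PA' (h + 1) (by omega))) ?_
        exact PT' (h + 1) (by omega) (by omega)
      have hLM : Ll A B T h ∈ Mh N A B al be T (h + 2) := by
        unfold Ll
        refine Subgroup.mul_mem _ (Subgroup.mul_mem _ (Subgroup.mul_mem _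
          (hX _ (.T h (by omega) (by omega))) (hX _ (.T (h + 1) (by omega) (by omega)))) hDM)
          (Subgroup.inv_mem _ (Subgroup.mul_mem _ (Subgroup.mul_mem _ (hX _ (.A h (by omega)))
          (hX _ (.A (h + 1) (by omega)))) (hX _ (.A (h + 2) (by omega)))))
      have hLP : Ll A B T h ∈ P :=
        BRm hPM (hX _ (.B h (by omega) (by omega))) hLM (r.lantern h hk).symm
          (PB' h (by omega))
      have e : A (h + 2) = (A (h + 1))⁻¹ * (A h)⁻¹ *
          ((Ll A B T h)⁻¹ * (T h * T (h + 1) * Dd A B T h)) := by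
        unfold Ll
        group
      rw [e]
      exact P.mul_mem (P.mul_mem (P.inv_mem (PA' _ (by omega))) (P.inv_mem (PA' _ (by omega))))
        (P.mul_mem (P.inv_mem hLP) (P.mul_mem (P.mul_mem (PT' _ (by omega) (by omega))
          (PT' _ (by omega) (by omega))) hDP))
    · exact T3a.rs P (r.T_be_i (h + 1) hk) (PT' (h + 1) (by omega) hk) (Pal _ (by omega))
        (Pbe _ (by omega)) (T3a.md P (Pal _ (by omega)) (Pbe _ (by omega)))
  have PA : ∀ i, i < N → A i ∈ P := by
    intro i hi
    rcases Nat.lt_or_ge i (h + 2) with h1 | h1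
    · exact PA' i h1
    · obtain ⟨d, rfl⟩ : ∃ d, i = h + 2 + d := ⟨i - (h + 2), by omega⟩
      clear h1
      induction d with
      | zero => exact (slot (h + 2) rfl hi).1
      | succ d ih =>
        have h2 := ih (by omega)
        have h3 := r.sA (h + 2 + d) (by omega)
        have e : A (h + 2 + (d + 1)) =
            Ss A B T (h + 2 + d) * A (h + 2 + d) * (Ss A B T (h + 2 + d))⁻¹ := by
          rw [h3, ← add_assoc]; group
        rw [e]
        exact hPW _ (S_W (by omega) (by omega)) _ h2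
  have PX : ∀ y, InX N A B al be T (h + 2) y → y ∈ P := by
    intro y hy
    cases hy with
    | A i hi => exact PA i hi
    | B i hh hi => exact PB' i hh
    | T i hh hi => exact PT' i hh hi
    | al i hh hi =>
      rcases Nat.lt_or_ge i (h + 2) with h1 | h1
      · exact Pal i h1
      · exact (slot i (by omega) hi).2
    | be i hh hi => exact Pbe i hh
  unfold Mh
  rw [Subgroup.closure_le]
  rintro x ⟨w, hw, y, hy, rfl⟩
  exact (hPdef y).1 (PX y hy) w hw

/-- the set `S` up to `Wg` -/
inductive InS (N : ℕ) (A B al be T : ℕ → G) (h : ℕ) : G → Prop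
  | A (i : ℕ) (hi : i < N) : InS N A B al be T h (A i)
  | B (i : ℕ) (hh : i < h) (hi : i < N) : InS N A B al be T h (B i)
  | T (i : ℕ) (hh : i < h) (hi : i + 1 < N) : InS N A B al be T h (T i)
  | D (k : ℕ) (hk : k + 1 = h) (hi : k + 2 < N) : InS N A B al be T h (Dd A B T k)
  | x : InS N A B al be T h (be h * al h * (be h)⁻¹)

theorem good_M (r : HRel N A B al be T 1) {h : ℕ} (h1 : 1 ≤ h) (hN : h < N) :
    ∃ S : Set G, S ⊆ (Mh N A B al be T h : Set G) ∧
      (∀ x ∈ S, (be h)⁻¹ * x * be h ∈ Mh N A B al be T h) ∧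
      Mh N A B al be T (h + 1) ≤ Subgroup.closure (insert (B h) S) := by
  obtain ⟨k, rfl⟩ : ∃ k, h = k + 1 := ⟨h - 1, by omega⟩
  have hX : ∀ x, InX N A B al be T (k + 1) x → x ∈ Mh N A B al be T (k + 1) :=
    fun x hx => X_M hx
  -- membership of the basic elements
  have hbab : be (k + 1) * al (k + 1) * (be (k + 1))⁻¹ ∈ Mh N A B al be T (k + 1) := by
    have e := T3a.R2_x (r.commAal _ hN _ hN) (r.A_be _ hN) (r.B_al _ hN) (r.commBbe _ hN _ hN)
    have h2 : (Rw (A (k + 1)) (B (k + 1))) ^ 2 * al (k + 1) *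
        ((Rw (A (k + 1)) (B (k + 1))) ^ 2)⁻¹ ∈ Mh N A B al be T (k + 1) :=
      W_conj (R_W le_rfl hN) (al_M r hN)
    unfold Rw at h2
    rw [e] at h2
    have e2 : be (k + 1) * al (k + 1) * (be (k + 1))⁻¹ =
        (be (k + 1) * (al (k + 1))⁻¹ * (be (k + 1))⁻¹)⁻¹ := by group
    rw [e2]
    exact Subgroup.inv_mem _ h2
  have hdk : dl al be k ∈ Mh N A B al be T (k + 1) :=
    T3a.md _ (hX _ (.al k (by omega) (by omega))) (hX _ (.be k (by omega) (by omega)))
  refine ⟨{x | ∃ w ∈ Wg N A B T (k + 2), ∃ y, InS N A B al be T (k + 1) y ∧ x = w * y * w⁻¹},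
    ?_, ?_, ?_⟩
  · rintro x ⟨w, hw, y, hy, rfl⟩
    refine W_conj (W_mono _ hw) ?_
    cases hy with
    | A i hi => exact hX _ (.A i hi)
    | B i hh hi => exact hX _ (.B i hh hi)
    | T i hh hi => exact hX _ (.T i hh hi)
    | D k' hk' hi =>
      obtain rfl : k' = k := by omega
      exact D_M r hi
    | x => exact hbab
  · rintro x ⟨w, hw, y, hy, rfl⟩
    have cw : Commute w (be (k + 1)) := W_comm_be r (by omega) hN w hw
    have e0 : (be (k + 1))⁻¹ * (w * y * w⁻¹) * be (k + 1) =
        w * ((be (k + 1))⁻¹ * y * be (k + 1)) * w⁻¹ := by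
      have c1 : (be (k + 1))⁻¹ * w = w * (be (k + 1))⁻¹ := (cw.inv_right.eq).symm
      have c2 : w⁻¹ * be (k + 1) = be (k + 1) * w⁻¹ := (cw.inv_left).eq
      calc (be (k + 1))⁻¹ * (w * y * w⁻¹) * be (k + 1) =
          ((be (k + 1))⁻¹ * w) * y * (w⁻¹ * be (k + 1)) := by group
        _ = (w * (be (k + 1))⁻¹) * y * (be (k + 1) * w⁻¹) := by rw [c1, c2]
        _ = _ := by group
    rw [e0]
    refine W_conj (W_mono _ hw) ?_
    have hcomm : ∀ x : G, Commute (be (k + 1)) x → x ∈ Mh N A B al be T (k + 1) →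
        (be (k + 1))⁻¹ * x * be (k + 1) ∈ Mh N A B al be T (k + 1) := by
      intro x hc hx
      have e : (be (k + 1))⁻¹ * x * be (k + 1) = x := by
        rw [mul_assoc, ← hc.eq, inv_mul_cancel_left]
      rwa [e]
    cases hy with
    | A i hi =>
      by_cases hil : i = k + 1
      · subst hil
        have e : (be (k + 1))⁻¹ * A (k + 1) * be (k + 1) = al (k + 1) * A (k + 1) := by
          have h1 := r.A_be (k + 1) hi
          calc (be (k + 1))⁻¹ * A (k + 1) * be (k + 1) = (be (k + 1))⁻¹ *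
              (A (k + 1) * be (k + 1) * (A (k + 1))⁻¹) * A (k + 1) := by group
            _ = _ := by rw [h1]; group
        rw [e]
        exact Subgroup.mul_mem _ (al_M r hi) (hX _ (.A _ hi))
      · exact hcomm _ (r.commAbe i hi _ hN hil).symm (hX _ (.A _ hi))
    | B i hh hi => exact hcomm _ (r.commBbe i hi _ hN).symm (hX _ (.B _ hh hi))
    | T i hh hi =>
      by_cases hik : i = k
      · subst hik
        have h1 := r.T_be_j i hi
        have e : (be (i + 1))⁻¹ * T i * be (i + 1) =
            WW (dl al be i) (al i) (al (i + 1)) * T i := by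
          calc (be (i + 1))⁻¹ * T i * be (i + 1) =
              (be (i + 1))⁻¹ * (T i * be (i + 1) * (T i)⁻¹) * T i := by group
            _ = _ := by rw [h1]; group
        rw [e]
        refine Subgroup.mul_mem _ ?_ (hX _ (.T i hh hi))
        unfold WW
        exact Subgroup.mul_mem _ (Subgroup.mul_mem _ (Subgroup.mul_mem _
          (Subgroup.inv_mem _ hdk) (hX _ (.al i (by omega) (by omega)))) hdk)
          (hX _ (.al (i + 1) (by omega) (by omega)))
      · exact hcomm _ (r.commTbe i hi _ hN (by omega) (by omega)).symm (hX _ (.T _ hh hi))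
    | D k' hk' hi =>
      obtain rfl : k' = k := by omega
      refine hcomm _ ?_ (D_M r hi)
      -- `D` commutes with the push along `b`
      have s1 := r.sbe (k' + 1) hi
      have c1 : Commute (Qw (A (k' + 1)) (B (k' + 1))) (be (k' + 2)) :=
        Qw_comm (r.commAbe _ hN _ hi (by omega)) (r.commBbe _ hN _ hi)
      have c2 : Commute (T k') (be (k' + 2)) := r.commTbe k' hN _ hi (by omega) (by omega)
      have c3 : Commute (Qw (A (k' + 1)) (B (k' + 1)) * T k' *
          (Qw (A (k' + 1)) (B (k' + 1)))⁻¹) (be (k' + 2)) :=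
        (c1.mul_left c2).mul_left c1.inv_left
      unfold Dd
      have e1 : be (k' + 1) = (Ss A B T (k' + 1))⁻¹ * be (k' + 2) * Ss A B T (k' + 1) := by
        have : be (k' + 2) = Ss A B T (k' + 1) * be (k' + 1) * (Ss A B T (k' + 1))⁻¹ := by
          rw [s1]; group
        rw [this]; group
      rw [e1]
      show _ * _ = _ * _
      calc (Ss A B T (k' + 1))⁻¹ * be (k' + 2) * Ss A B T (k' + 1) *
            ((Ss A B T (k' + 1))⁻¹ * (Qw (A (k' + 1)) (B (k' + 1)) * T k' *
              (Qw (A (k' + 1)) (B (k' + 1)))⁻¹) * Ss A B T (k' + 1)) =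
          (Ss A B T (k' + 1))⁻¹ * (be (k' + 2) * (Qw (A (k' + 1)) (B (k' + 1)) * T k' *
              (Qw (A (k' + 1)) (B (k' + 1)))⁻¹)) * Ss A B T (k' + 1) := by group
        _ = (Ss A B T (k' + 1))⁻¹ * ((Qw (A (k' + 1)) (B (k' + 1)) * T k' *
              (Qw (A (k' + 1)) (B (k' + 1)))⁻¹) * be (k' + 2)) * Ss A B T (k' + 1) := by
            rw [c3.eq]
        _ = _ := by group
    | x =>
      have e : (be (k + 1))⁻¹ * (be (k + 1) * al (k + 1) * (be (k + 1))⁻¹) * be (k + 1) =
          al (k + 1) := by group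
      rw [e]
      exact al_M r hN
  · obtain ⟨H, hH⟩ : ∃ H, H = Subgroup.closure (insert (B (k + 1))
      {x | ∃ w ∈ Wg N A B T (k + 2), ∃ y, InS N A B al be T (k + 1) y ∧ x = w * y * w⁻¹}) :=
      ⟨_, rfl⟩
    rw [← hH]
    have hB : B (k + 1) ∈ H := by rw [hH]; exact Subgroup.subset_closure (Set.mem_insert _ _)
    have hS : ∀ y, InS N A B al be T (k + 1) y → y ∈ H := by
      intro y hy
      rw [hH]
      exact Subgroup.subset_closure (Set.mem_insert_of_mem _
        ⟨1, Subgroup.one_mem _, y, hy, by group⟩)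
    have hW : ∀ w ∈ Wg N A B T (k + 2), ∀ x ∈ H, w * x * w⁻¹ ∈ H := by
      intro w hw x hx
      rw [hH] at hx
      refine conj_closure w ?_ x hx
      rintro y (rfl | ⟨w', hw', z, hz, rfl⟩)
      · rw [(W_comm_B r (Nat.lt_succ_self (k + 1)) hN w hw).eq]
        rwa [mul_inv_cancel_right]
      · rw [hH]
        exact Subgroup.subset_closure (Set.mem_insert_of_mem _
          ⟨w * w', Subgroup.mul_mem _ hw hw', z, hz, by group⟩)
    have HA : ∀ i < N, A i ∈ H := fun i hi => hS _ (.A i hi)
    have HB : ∀ i < k + 2, i < N → B i ∈ H := by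
      intro i hi hiN
      rcases Nat.lt_succ_iff_lt_or_eq.1 hi with hh' | rfl
      · exact hS _ (.B i hh' hiN)
      · exact hB
    have HT1 : ∀ i < k + 1, i + 1 < N → T i ∈ H := fun i hi hi' => hS _ (.T i hi hi')
    have HT : ∀ i < k + 2, i + 1 < N → T i ∈ H := by
      intro i hi hiN
      rcases Nat.lt_succ_iff_lt_or_eq.1 hi with hh' | rfl
      · exact HT1 i hh' hiN
      · rw [T_of_D r (i := k) (by omega)]
        have hSs : Ss A B T k ∈ H := Ss_mem (HA k (by omega)) (HB k (by omega) (by omega))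
          (HT1 k (by omega) (by omega)) hB (HA (k + 1) (by omega))
        have hQ : Qw (A k) (B k) ∈ H := Qw_mem (HA k (by omega)) (HB k (by omega) (by omega))
        exact cj_mem' hSs (cj_mem hQ (hS _ (.D k rfl (by omega))))
    have Hbe1 : be (k + 1) ∈ H := by
      have e := T3c.rho_eq' (r.commBbe _ hN _ hN) (r.A_be _ hN) (r.commAal _ hN _ hN)
        (r.B_al _ hN)
      rw [e]
      have hR : A (k + 1) * B (k + 1) * A (k + 1) ∈ H :=
        H.mul_mem (H.mul_mem (HA _ hN) hB) (HA _ hN)
      exact cj_mem' hR (hS _ .x)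
    have Hal1 : al (k + 1) ∈ H := by
      have e : al (k + 1) = (be (k + 1))⁻¹ * (be (k + 1) * al (k + 1) * (be (k + 1))⁻¹) *
          be (k + 1) := by group
      rw [e]
      exact cj_mem' Hbe1 (hS _ .x)
    have down : ∀ d, d ≤ k + 1 → al (k + 1 - d) ∈ H ∧ be (k + 1 - d) ∈ H := by
      intro d
      induction d with
      | zero => intro _; exact ⟨Hal1, Hbe1⟩
      | succ d ih =>
        intro hd
        obtain ⟨q1, q2⟩ := ih (by omega)
        obtain ⟨j, hj⟩ : ∃ j, k + 1 - d = j + 1 := ⟨k - d, by omega⟩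
        rw [hj] at q1 q2
        rw [show k + 1 - (d + 1) = j by omega]
        have h3 := T3a.ls H (r.T_be_j j (by omega)) (HT j (by omega) (by omega)) q1 q2
        exact T3a.ls2 H (r.B_al j (by omega)) (r.commBbe j (by omega) j (by omega))
          (HB j (by omega) (by omega)) h3
    have Hab : ∀ i, i ≤ k + 1 → al i ∈ H ∧ be i ∈ H := by
      intro i hi
      have := down (k + 1 - i) (by omega)
      rwa [show k + 1 - (k + 1 - i) = i by omega] at this
    have hXH : ∀ y, InX N A B al be T (k + 2) y → y ∈ H := by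
      intro y hy
      cases hy with
      | A i hi => exact HA i hi
      | B i hh hi => exact HB i hh hi
      | T i hh hi => exact HT i hh hi
      | al i hh hi =>
        rcases Nat.lt_or_ge i (k + 2) with h2 | h2
        · exact (Hab i (by omega)).1
        · obtain rfl : i = k + 2 := by omega
          exact T3a.rs H (r.T_be_i (k + 1) hi) (HT (k + 1) (by omega) hi) Hal1 Hbe1
            (T3a.md H Hal1 Hbe1)
      | be i hh hi => exact (Hab i (by omega)).2
    show Mh N A B al be T (k + 2) ≤ H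
    unfold Mh
    rw [Subgroup.closure_le]
    rintro x ⟨w, hw, y, hy, rfl⟩
    exact hW w hw y (hXH y hy)

end

end Pool.Agent.TH35.MG
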