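import Mathlib
import Pool.Agent.TH35.MG.MH
import Pool.Agent.H798R3.MG.Irr

set_option autoImplicit false

/-! The top system, in standard position. -/

namespace Pool.Agent.TH35.MG

open Pool.Agent.H798R3.MG Module

section
variable {K V G : Type*} [Field K] [AddCommGroup V] [Module K V] [Group G]

/-- existence of a top system in standard position -/
theorem top_std [Nontrivial V] {N : ℕ} {A B al be T : ℕ → G} {tau : G}
    (r : HRel N A B al be T tau) (h1N : 1 ≤ N) (ρ : G →* Module.End K V)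
    (hlev : ∀ l : List ℕ, l.Nodup → (∀ i, i ∈ l ↔ 1 ≤ i ∧ i < N) →
      (l.map (fun i => ρ (A i) - 1)).prod = 0) :
    ∃ h, h + 2 ≤ N ∧ ∃ E : Submodule K V, E ≠ ⊥ ∧
      (∀ x : G, (∀ l ∈ Finset.Ico (h + 2) N, Commute x (A l)) → ∀ v ∈ E, ρ x v ∈ E) ∧
      (∀ v ∈ E, ρ (A (h + 1)) v = v) ∧
      (∀ l ∈ Finset.Ico (h + 2) N, ∀ v ∈ E, ∃ w ∈ E, ρ (B l) v - v = ρ (A l * B l * A l) w) ∧
      (∀ l ∈ Finset.Ico (h + 2) N, ∀ v ∈ E, ρ ((A l * B l * A l) ^ 2) v ∈ E) := by
  classical
  let f : ℕ → Module.End K V := fun i => ρ (A i) - 1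
  have hcomm : ∀ I : Finset ℕ, (∀ i ∈ I, i < N) →
      (I : Set ℕ).Pairwise (Function.onFun Commute f) := by
    intro I hI i hi j hj hij
    have h1 : Commute (ρ (A i)) (ρ (A j)) := (r.commAA i (hI i hi) j (hI j hj)).map ρ
    exact (h1.sub_left (Commute.one_left _)).sub_right (Commute.one_right _)
  have hI : ∀ h, ∀ i ∈ Finset.Ico h N, i < N := fun h i hi => (Finset.mem_Ico.1 hi).2
  let P : ℕ → Module.End K V := fun h => (Finset.Ico h N).noncommProd f (hcomm _ (hI h))
  have hPN : P N ≠ 0 := by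
    simp only [P, Finset.Ico_self, Finset.noncommProd_empty]
    exact one_ne_zero
  have hex : ∃ h, h ≤ N ∧ P h ≠ 0 := ⟨N, le_rfl, hPN⟩
  obtain ⟨hhN, hP⟩ := Nat.find_spec hex
  have hmin : ∀ m < Nat.find hex, ¬ (m ≤ N ∧ P m ≠ 0) := fun m hm => Nat.find_min hex hm
  obtain ⟨h0, hh0⟩ : ∃ h0, h0 = Nat.find hex := ⟨_, rfl⟩
  rw [← hh0] at hhN hP hmin
  -- `P 1 = 0`
  have hP1 : P 1 = 0 := by
    have h3 := Finset.noncommProd_toFinset (Finset.Ico 1 N).toList f (by
        rw [Finset.toList_toFinset]; exact hcomm _ (hI 1)) (Finset.Ico 1 N).nodup_toList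
    have h4 := hlev (Finset.Ico 1 N).toList (Finset.nodup_toList _) (by
      intro i
      rw [Finset.mem_toList, Finset.mem_Ico])
    rw [← h4, ← h3]
    simp only [Finset.toList_toFinset, P]
  have h0ne : ∀ m, P m = 0 → 1 ≤ m → m ≤ N → m < h0 ∨ m = h0 ∨ h0 < m := fun m _ _ _ => by omega
  have hPstep : ∀ m, m < N → P m = f m * P (m + 1) := by
    intro m hm
    have e : Finset.Ico m N = insert m (Finset.Ico (m + 1) N) := by
      ext i
      simp only [Finset.mem_Ico, Finset.mem_insert]
      omega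
    have hc2 : ((insert m (Finset.Ico (m + 1) N) : Finset ℕ) : Set ℕ).Pairwise
        (Function.onFun Commute f) := hcomm _ (by
      intro i hi
      rw [← e] at hi
      exact hI m i hi)
    have h5 : P m = (insert m (Finset.Ico (m + 1) N)).noncommProd f hc2 := by
      simp only [P]
      congr 1
    rw [h5, Finset.noncommProd_insert_of_notMem _ _ _ _ (by simp)]
  have hzero : ∀ m, m ≤ 1 → m ≤ N → P m = 0 := by
    intro m hm hmN
    rcases Nat.eq_zero_or_pos m with h | h
    · subst h
      rcases Nat.eq_zero_or_pos N with h' | h'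
      · omega
      · rw [hPstep 0 h', hP1, mul_zero]
    · obtain rfl : m = 1 := by omega
      exact hP1
  have h2 : 2 ≤ h0 := by
    by_contra hcon
    exact hP (hzero h0 (by omega) hhN)
  obtain ⟨h, rfl⟩ : ∃ h, h0 = h + 2 := ⟨h0 - 2, by omega⟩
  have hprev : P (h + 1) = 0 := by
    by_contra hne
    exact hmin (h + 1) (by omega) ⟨by omega, hne⟩
  have hfix : f (h + 1) * P (h + 2) = 0 := by
    rw [← hPstep (h + 1) (by omega)]
    exact hprev
  have hPcomm : ∀ y : Module.End K V, (∀ l ∈ Finset.Ico (h + 2) N, Commute y (f l)) →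
      Commute y (P (h + 2)) := by
    intro y hy
    exact Finset.noncommProd_commute _ f _ y hy
  have hfc : ∀ x : G, ∀ l, Commute x (A l) → Commute (ρ x) (f l) := by
    intro x l h
    exact (h.map ρ).sub_right (Commute.one_right _)
  have hstab : ∀ x : G, (∀ l ∈ Finset.Ico (h + 2) N, Commute x (A l)) →
      ∀ v ∈ LinearMap.range (P (h + 2)), ρ x v ∈ LinearMap.range (P (h + 2)) := by
    rintro x hx v ⟨z, rfl⟩
    have h1 : Commute (ρ x) (P (h + 2)) := hPcomm _ fun l hl => hfc x l (hx l hl)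
    refine ⟨ρ x z, ?_⟩
    have h2 := congrArg (fun T : Module.End K V => T z) h1.eq
    exact h2.symm
  refine ⟨h, hhN, LinearMap.range (P (h + 2)), ?_, hstab, ?_, ?_, ?_⟩
  · intro h
    rw [LinearMap.range_eq_bot] at h
    exact hP h
  · rintro v ⟨z, rfl⟩
    have h1 := congrArg (fun T : Module.End K V => T z) hfix
    have h2 : ρ (A (h + 1)) (P (h + 2) z) - P (h + 2) z = 0 := h1
    exact sub_eq_zero.1 h2
  · rintro l hl v ⟨z, rfl⟩
    have hlN := hI _ l hl
    have hc' : (((Finset.Ico (h + 2) N).erase l : Finset ℕ) : Set ℕ).Pairwise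
        (Function.onFun Commute f) := hcomm _ (fun i hi => hI _ i (Finset.mem_of_mem_erase hi))
    set Q : Module.End K V := ((Finset.Ico (h + 2) N).erase l).noncommProd f hc' with hQ
    have hPQ : P (h + 2) = f l * Q := (Finset.mul_noncommProd_erase _ hl f _ hc').symm
    have hPQ' : P (h + 2) = Q * f l := (Finset.noncommProd_erase_mul _ hl f _ hc').symm
    have braid := r.braidAB l hlN
    have hRA : (A l * B l * A l) * A l = B l * (A l * B l * A l) := by
      calc (A l * B l * A l) * A l = (B l * A l * B l) * A l := by rw [braid]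
        _ = B l * (A l * B l * A l) := by group
    have hB : B l = (A l * B l * A l) * A l * (A l * B l * A l)⁻¹ := by
      rw [hRA, mul_inv_cancel_right]
    have hRQ : Commute (ρ (A l * B l * A l)⁻¹) Q := by
      apply Finset.noncommProd_commute
      intro s hs
      apply hfc
      apply Commute.inv_left
      obtain ⟨hsl, hsI⟩ := Finset.mem_erase.1 hs
      have hsN := hI _ s hsI
      have h1 := r.commAA l hlN s hsN
      have h2 := (r.commAB s hsN l hlN hsl).symm
      exact (h1.mul_left h2).mul_left h1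
    refine ⟨P (h + 2) (ρ (A l * B l * A l)⁻¹ (f l z)), ⟨_, rfl⟩, ?_⟩
    have key : (ρ (B l) - 1) * P (h + 2) =
        ρ (A l * B l * A l) * (P (h + 2) * (ρ (A l * B l * A l)⁻¹ * f l)) := by
      have h1 : ρ (B l) - 1 = ρ (A l * B l * A l) * f l * ρ (A l * B l * A l)⁻¹ := by
        have h2 : ρ (A l * B l * A l) * ρ (A l * B l * A l)⁻¹ = 1 := by
          rw [← map_mul, mul_inv_cancel, map_one]
        show ρ (B l) - 1 = ρ (A l * B l * A l) * (ρ (A l) - 1) * ρ (A l * B l * A l)⁻¹
        rw [mul_sub, sub_mul, mul_one, h2, ← map_mul, ← map_mul, ← hB]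
      calc (ρ (B l) - 1) * P (h + 2)
          = ρ (A l * B l * A l) * f l * ρ (A l * B l * A l)⁻¹ * (Q * f l) := by rw [h1, hPQ']
        _ = ρ (A l * B l * A l) * f l * (ρ (A l * B l * A l)⁻¹ * Q) * f l := by
            simp only [mul_assoc]
        _ = ρ (A l * B l * A l) * f l * (Q * ρ (A l * B l * A l)⁻¹) * f l := by rw [hRQ.eq]
        _ = ρ (A l * B l * A l) * ((f l * Q) * (ρ (A l * B l * A l)⁻¹ * f l)) := by
            simp only [mul_assoc]
        _ = _ := by rw [← hPQ]
    exact congrArg (fun T : Module.End K V => T z) key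
  · intro l hl
    apply hstab
    intro s hs
    have hlN := hI _ l hl
    have hsN := hI _ s hs
    by_cases hsl : s = l
    · subst hsl
      exact T3c.sq_comm (r.braidAB s hlN)
    · have h1 := r.commAA l hlN s hsN
      have h2 := (r.commAB s hsN l hlN hsl).symm
      exact ((h1.mul_left h2).mul_left h1).pow_left 2

end

end Pool.Agent.TH35.MG
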