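import Mathlib
import Pool.Agent.TH35.MG.MH2
import Pool.Agent.TH35.MG.Top

set_option autoImplicit false

/-! The slot argument in standard position. -/

namespace Pool.Agent.TH35.MG

open Pool.Agent.H798R3.MG Pool.Agent.H798R3.MG.T2b Module

section
variable {K V G : Type*} [Field K] [AddCommGroup V] [Module K V] [Group G]

/-- `E` is an `h`-system -/
structure IsS (ρ : G →* Module.End K V) (N : ℕ) (A B al be T : ℕ → G) (h : ℕ)
    (E : Submodule K V) : Prop where
  fix : ∀ x ∈ Mh N A B al be T h, ∀ v ∈ E, ρ x v = v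
  sl : ∀ l, h ≤ l → l < N → ∀ v ∈ E, ∃ w ∈ E, ρ (B l) v - v = ρ (A l * B l * A l) w
  ol : ∀ l, h ≤ l → l < N → ∀ v ∈ E, ρ ((A l * B l * A l) ^ 2) v ∈ E

variable (ρ : G →* Module.End K V) {N : ℕ} {A B al be T : ℕ → G}

/-- translates of systems are systems -/
theorem sys_W (r : HRel N A B al be T 1) {h : ℕ} {E : Submodule K V}
    (hE : IsS ρ N A B al be T h E) (w : G) (hw : w ∈ Wg N A B T h) :
    IsS ρ N A B al be T h (E.map (ρ w : Module.End K V)) := by
  obtain ⟨p1, p2⟩ := W_perm r w hw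
  refine ⟨?_, ?_, ?_⟩
  · rintro x hx v ⟨u, hu, rfl⟩
    have h1 := hE.fix _ (W_conj' hw hx) u hu
    have e : x * w = w * (w⁻¹ * x * w) := by group
    rw [← mul_app ρ x w, e, mul_app, h1]
  · rintro l hl hlN v ⟨u, hu, rfl⟩
    obtain ⟨l', k1, k2, k3, k4⟩ := p1 l hl hlN
    obtain ⟨q, hq, e⟩ := hE.sl l' k1 k2 u hu
    refine ⟨ρ w q, ⟨q, hq, rfl⟩, ?_⟩
    have e1 : B l * w = w * B l' := by rw [← k4]; group
    have e2 : (A l * B l * A l) * w = w * (A l' * B l' * A l') := by rw [← k3, ← k4]; group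
    rw [← mul_app ρ (B l) w, e1, mul_app, ← map_sub, e, ← mul_app, ← mul_app, e2]
  · rintro l hl hlN v ⟨u, hu, rfl⟩
    obtain ⟨l', k1, k2, k3, k4⟩ := p1 l hl hlN
    have h1 := hE.ol l' k1 k2 u hu
    refine ⟨_, h1, ?_⟩
    have e2 : (A l * B l * A l) ^ 2 * w = w * (A l' * B l' * A l') ^ 2 := by
      rw [← k3, ← k4, pow_two, pow_two]; group
    rw [← mul_app, ← mul_app, e2]

/-- Fact 1 -/
theorem sys_fix (r : HRel N A B al be T 1) {h : ℕ} (h1 : 1 ≤ h) (hN : h < N)
    {E : Submodule K V} (hE : IsS ρ N A B al be T h E) :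
    IsS ρ N A B al be T (h + 1) (fixE ρ (B h) E) := by
  refine ⟨?_, ?_, ?_⟩
  · intro x hx v hv
    obtain ⟨hv1, hv2⟩ := (mem_fixE ρ _ _ _).1 hv
    refine closure_fix ρ _ v ?_ (erase_M r h1 hN hx)
    intro s hs
    rcases Set.mem_insert_iff.1 hs with rfl | hs
    · exact hv2
    · exact hE.fix s hs v hv1
  · intro m hm hmN v hv
    obtain ⟨hv1, hv2⟩ := (mem_fixE ρ _ _ _).1 hv
    obtain ⟨w, hw, hw2⟩ := hE.sl m (by omega) hmN v hv1
    refine ⟨w, (mem_fixE ρ _ _ _).2 ⟨hw, ?_⟩, hw2⟩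
    have c1 : Commute (B h) (B m) := r.commBB h hN m hmN
    have c2 : Commute (B h) (A m) := (r.commAB m hmN h hN (by omega)).symm
    have c3 : Commute (B h) (A m * B m * A m) := comm_R c2 c1
    refine inj ρ (A m * B m * A m) ?_
    rw [← comm_app ρ c3, ← hw2, map_sub, comm_app ρ c1, hv2]
  · intro m hm hmN v hv
    obtain ⟨hv1, hv2⟩ := (mem_fixE ρ _ _ _).1 hv
    have c1 : Commute (B h) (B m) := r.commBB h hN m hmN
    have c2 : Commute (B h) (A m) := (r.commAB m hmN h hN (by omega)).symm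
    have c3 : Commute (B h) ((A m * B m * A m) ^ 2) := (comm_R c2 c1).pow_right 2
    refine (mem_fixE ρ _ _ _).2 ⟨hE.ol m (by omega) hmN v hv1, ?_⟩
    rw [comm_app ρ c3, hv2]

/-- Facts 2 and 2' -/
theorem sys2 (r : HRel N A B al be T 1) {h : ℕ} (hN : h < N)
    {E : Submodule K V} (hE : IsS ρ N A B al be T h E)
    (h1 : ∀ v ∈ E, ρ (B h) v = v → v = 0) {a : V} (ha : a ∈ E) :
    ρ (B h) a = a + ρ (A h * B h * A h) a := by
  have hb := r.braidAB h hN
  have hBR : B h * (A h * B h * A h) = (A h * B h * A h) * A h := by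
    calc B h * (A h * B h * A h) = (B h * A h * B h) * A h := by group
      _ = (A h * B h * A h) * A h := by rw [← hb]
  have hAR : A h * (A h * B h * A h) = (A h * B h * A h) * B h := by
    calc A h * (A h * B h * A h) = A h * (B h * A h * B h) := by rw [hb]
      _ = (A h * B h * A h) * B h := by group
  have hRa0 : ρ (A h * B h * A h) a = ρ (A h) (ρ (B h) (ρ (A h) a)) := by
    rw [mul_app, mul_app]
  have hRo := hE.ol h le_rfl hN
  have hSl := hE.sl h le_rfl hN
  have hA : ∀ v ∈ E, ρ (A h) v = v := fun v hv => hE.fix _ (X_M (.A h hN)) v hv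
  generalize A h * B h * A h = R at hBR hAR hRa0 hRo hSl ⊢
  have h2 : ∀ w ∈ E, ρ R w ∈ E → ρ R w = 0 := by
    intro w hw hRw
    refine h1 _ hRw ?_
    rw [← mul_app, hBR, mul_app, hA w hw]
  obtain ⟨b, hbE, hb1⟩ := hSl a ha
  obtain ⟨c, hcE, hc1⟩ := hSl b hbE
  have hBa : ρ (B h) a = a + ρ R b := by rw [← hb1]; abel
  have hBb : ρ (B h) b = b + ρ R c := by rw [← hc1]; abel
  have hRa : ρ R a = a + ρ R b + ρ (R ^ 2) c := by
    rw [hRa0, hA a ha, hBa, map_add, hA a ha, ← mul_app, hAR, mul_app, hBb, map_add, pow_two,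
      mul_app, add_assoc]
  have h3 : ρ R (a - b) = a + ρ (R ^ 2) c := by
    rw [map_sub, hRa]; abel
  have h4 : ρ R (a - b) = 0 := by
    refine h2 _ (E.sub_mem ha hbE) ?_
    rw [h3]
    exact E.add_mem ha (hRo c hcE)
  have h5 : a - b = 0 := by
    refine inj ρ R ?_
    rw [h4, map_zero]
  have h6 : a = b := sub_eq_zero.1 h5
  rw [hBa, ← h6]

/-- Fact 3 -/
theorem sys3 (r : HRel N A B al be T 1) {h : ℕ} (h0 : 1 ≤ h) (hN : h < N)
    {E : Submodule K V} (hE : IsS ρ N A B al be T h E)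
    (h1 : ∀ v ∈ E, ρ (B h) v = v → v = 0) :
    IsS ρ N A B al be T (h + 1) (imE ρ (be h) E) := by
  obtain ⟨S, hS1, hS2, hS3⟩ := good_M r h0 hN
  refine ⟨?_, ?_, ?_⟩
  · intro x hx v hv
    obtain ⟨a, ha, rfl⟩ := (mem_imE ρ _ _ _).1 hv
    refine closure_fix ρ _ _ ?_ (hS3 hx)
    intro s hs
    rcases Set.mem_insert_iff.1 hs with rfl | hs
    · have e1 := sys2 ρ r hN hE h1 ha
      have e2 : ρ (be h) (ρ (A h * B h * A h) a) = ρ (A h * B h * A h) a := by
        have hrho : (A h * B h * A h)⁻¹ * be h * (A h * B h * A h) ∈ Mh N A B al be T h := by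
          rw [T3c.rho_eq (r.commBbe h hN h hN) (r.A_be h hN) (r.commAal h hN h hN)
            (r.B_al h hN)]
          exact Subgroup.inv_mem _ (al_M r hN)
        have e3 := hE.fix _ hrho a ha
        have e4 : ρ (be h) (ρ (A h * B h * A h) a) =
            ρ (A h * B h * A h) (ρ ((A h * B h * A h)⁻¹ * be h * (A h * B h * A h)) a) := by
          rw [← mul_app, ← mul_app]
          congr 2
          group
        rw [e4, e3]
      rw [map_sub, ← comm_app ρ (r.commBbe h hN h hN).symm, e1, map_add, e2]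
      abel
    · have e1 := hE.fix s (hS1 hs) a ha
      have e2 := hE.fix _ (hS2 s hs) a ha
      have e3 : ρ s (ρ (be h) a) = ρ (be h) (ρ ((be h)⁻¹ * s * be h) a) := by
        rw [← mul_app, ← mul_app]
        congr 2
        group
      rw [map_sub, e1, e3, e2]
  · intro m hm hmN v hv
    obtain ⟨a, ha, rfl⟩ := (mem_imE ρ _ _ _).1 hv
    obtain ⟨w, hw, hw2⟩ := hE.sl m (by omega) hmN a ha
    have c1 : Commute (be h) (B m) := (r.commBbe m hmN h hN).symm
    have c2 : Commute (be h) (A m) := (r.commAbe m hmN h hN (by omega)).symm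
    have c3 : Commute (be h) (A m * B m * A m) := comm_R c2 c1
    refine ⟨w - ρ (be h) w, (mem_imE ρ _ _ _).2 ⟨w, hw, rfl⟩, ?_⟩
    rw [map_sub, map_sub, ← comm_app ρ c1, ← comm_app ρ c3, ← hw2, map_sub]
    abel
  · intro m hm hmN v hv
    obtain ⟨a, ha, rfl⟩ := (mem_imE ρ _ _ _).1 hv
    have c1 : Commute (be h) (B m) := (r.commBbe m hmN h hN).symm
    have c2 : Commute (be h) (A m) := (r.commAbe m hmN h hN (by omega)).symm
    have c3 : Commute (be h) ((A m * B m * A m) ^ 2) := (comm_R c2 c1).pow_right 2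
    refine (mem_imE ρ _ _ _).2 ⟨ρ ((A m * B m * A m) ^ 2) a, hE.ol m (by omega) hmN a ha, ?_⟩
    rw [map_sub, comm_app ρ c3]

end

section
variable {K V G : Type*} [Field K] [AddCommGroup V] [Module K V] [FiniteDimensional K V] [Group G]

/-- the slot argument -/
theorem slot_std [Nontrivial V] (ρ : G →* Module.End K V) {N : ℕ} {A B al be T : ℕ → G}
    (r : HRel N A B al be T 1) (h1N : 1 ≤ N)
    (hirr : ∀ W : Submodule K V, (∀ x, InX N A B al be T N x → ∀ v ∈ W, ρ x v ∈ W) →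
      W = ⊥ ∨ W = ⊤)
    (hlev : ∀ l : List ℕ, l.Nodup → (∀ i, i ∈ l ↔ 1 ≤ i ∧ i < N) →
      (l.map (fun i => ρ (A i) - 1)).prod = 0) :
    ∀ x ∈ PiG N al be, ρ x = 1 := by
  classical
  -- (a)
  have ha : ∃ h, 2 ≤ h ∧ h ≤ N ∧ ∃ E : Submodule K V, E ≠ ⊥ ∧ IsS ρ N A B al be T h E := by
    obtain ⟨h, hN, E, hE0, hE1, hE2, hE3, hE4⟩ := top_std r h1N ρ hlev
    refine ⟨h + 2, by omega, hN, E, hE0, ?_, fun l hl hlN => hE3 l (Finset.mem_Ico.2 ⟨hl, hlN⟩),
      fun l hl hlN => hE4 l (Finset.mem_Ico.2 ⟨hl, hlN⟩)⟩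
    have hst : ∀ x ∈ Mh N A B al be T (h + 2), ∀ v ∈ E, ρ x v ∈ E := fun x hx =>
      hE1 x (fun l hl => M_comm r (Finset.mem_Ico.1 hl).1 (Finset.mem_Ico.1 hl).2 x hx)
    have hMN : Mh N A B al be T (h + 2) ≤ T4b.fixG ρ E := by
      refine nc_M r hN (T4b.fixG ρ E) (fun v hv => hE2 v hv) ?_
      intro x hx y hy v hv
      have hxi : x⁻¹ ∈ Mh N A B al be T (h + 2) := Subgroup.inv_mem _ hx
      have h1 : ρ y (ρ x⁻¹ v) = ρ x⁻¹ v := hy _ (hst _ hxi v hv)
      rw [mul_app, mul_app, h1, app_inv]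
    exact fun x hx v hv => hMN hx v hv
  -- maximal `h`
  obtain ⟨h, h2, hhN, E, hE0, hE, hmax⟩ : ∃ h, 2 ≤ h ∧ h ≤ N ∧ ∃ E : Submodule K V, E ≠ ⊥ ∧
      IsS ρ N A B al be T h E ∧
      (h < N → ∀ F : Submodule K V, IsS ρ N A B al be T (h + 1) F → F = ⊥) := by
    have hex : ∃ n, ∃ h, 2 ≤ h ∧ h ≤ N ∧ N - h = n ∧ ∃ E : Submodule K V, E ≠ ⊥ ∧
        IsS ρ N A B al be T h E := by
      obtain ⟨h, h2, hhN, hE⟩ := ha
      exact ⟨_, h, h2, hhN, rfl, hE⟩
    obtain ⟨h, h2, hhN, hn, E, hE0, hE⟩ := Nat.find_spec hex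
    refine ⟨h, h2, hhN, E, hE0, hE, ?_⟩
    intro hlt F hF
    by_contra hF0
    refine Nat.find_min hex (m := N - (h + 1)) (by omega)
      ⟨h + 1, by omega, by omega, rfl, F, hF0, hF⟩
  -- (b)
  have hb : h < N → ∀ w ∈ Wg N A B T h, ∀ v ∈ E, ρ (w * be h * w⁻¹) v = v := by
    intro hlt w hw v hv
    have hE' := sys_W ρ r hE w⁻¹ (Subgroup.inv_mem _ hw)
    have h1 : ∀ v ∈ E.map (ρ w⁻¹ : Module.End K V), ρ (B h) v = v → v = 0 := by
      intro v hv hv2
      have h2 := hmax hlt _ (sys_fix ρ r (by omega) hlt hE')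
      have h3 : v ∈ fixE ρ (B h) (E.map (ρ w⁻¹ : Module.End K V)) :=
        (mem_fixE ρ _ _ _).2 ⟨hv, hv2⟩
      rw [h2] at h3
      exact (Submodule.mem_bot K).1 h3
    have h2 := hmax hlt _ (sys3 ρ r (by omega) hlt hE' h1)
    have hv' : ρ w⁻¹ v ∈ E.map (ρ w⁻¹ : Module.End K V) := ⟨v, hv, rfl⟩
    have h3 : ρ w⁻¹ v - ρ (be h) (ρ w⁻¹ v) ∈ imE ρ (be h) (E.map (ρ w⁻¹ : Module.End K V)) :=
      (mem_imE ρ _ _ _).2 ⟨_, hv', rfl⟩
    rw [h2] at h3
    have h4 : ρ (be h) (ρ w⁻¹ v) = ρ w⁻¹ v := (sub_eq_zero.1 ((Submodule.mem_bot K).1 h3)).symm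
    rw [mul_app, mul_app, h4, app_inv]
  -- (c)
  have hPi : ∀ x ∈ PiG N al be, ∀ v ∈ E, ρ x v = v := by
    intro x hx v hv
    refine closure_fix ρ _ v ?_ hx
    rintro s (⟨i, hi, rfl⟩ | ⟨i, hi, rfl⟩)
    · exact hE.fix _ (al_M r hi) v hv
    · rcases Nat.lt_or_ge i h with h3 | h3
      · exact hE.fix _ (X_M (.be i h3 hi)) v hv
      · obtain ⟨w, hw, e⟩ := be_W r h3 hi
        rw [e]
        exact hb (by omega) w hw v hv
  have hW0 : fixPi ρ (PiG N al be) ≠ ⊥ := by
    intro hW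
    apply hE0
    rw [eq_bot_iff, ← hW]
    intro v hv
    exact (mem_fixPi ρ _ v).2 (fun x hx => hPi x hx v hv)
  -- the generators normalise the group of pushes
  have hal : ∀ i, i < N → al i ∈ PiG N al be := fun i hi =>
    Subgroup.subset_closure (Or.inl ⟨i, hi, rfl⟩)
  have hbe : ∀ i, i < N → be i ∈ PiG N al be := fun i hi =>
    Subgroup.subset_closure (Or.inr ⟨i, hi, rfl⟩)
  have hdl : ∀ i, i < N → dl al be i ∈ PiG N al be := fun i hi => T3a.md _ (hal i hi) (hbe i hi)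
  have hc : ∀ x y : G, Commute x y → x * y * x⁻¹ = y := by
    intro x y hxy
    rw [hxy.eq]; group
  have red : ∀ x : G, (∀ i < N, x * al i * x⁻¹ ∈ PiG N al be) →
      (∀ i < N, x * be i * x⁻¹ ∈ PiG N al be) →
      ∀ y ∈ PiG N al be, x * y * x⁻¹ ∈ PiG N al be := by
    intro x h1 h2 y hy
    refine T3c.conj_mem x ?_ y hy
    rintro z (⟨i, hi, rfl⟩ | ⟨i, hi, rfl⟩)
    · exact h1 i hi
    · exact h2 i hi
  have hnorm : ∀ x, InX N A B al be T N x → ∀ y ∈ PiG N al be,
      x * y * x⁻¹ ∈ PiG N al be := by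
    intro x hx
    cases hx with
    | A k hk =>
      apply red
      · intro i hi
        rw [hc _ _ (r.commAal k hk i hi)]
        exact hal i hi
      · intro i hi
        by_cases hki : k = i
        · subst hki
          rw [r.A_be k hk]
          exact mul_mem (hbe k hk) (hal k hk)
        · rw [hc _ _ (r.commAbe k hk i hi hki)]
          exact hbe i hi
    | B k _ hk =>
      apply red
      · intro i hi
        by_cases hki : k = i
        · subst hki
          rw [r.B_al k hk]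
          exact mul_mem (hal k hk) (inv_mem (hbe k hk))
        · rw [hc _ _ (r.commBal k hk i hi hki)]
          exact hal i hi
      · intro i hi
        rw [hc _ _ (r.commBbe k hk i hi)]
        exact hbe i hi
    | T k _ hk =>
      have hU : UU (dl al be k) (al k) (al (k + 1)) ∈ PiG N al be :=
        mul_mem (mul_mem (mul_mem (hdl k (by omega)) (hal (k + 1) hk))
          (inv_mem (hdl k (by omega)))) (hal k (by omega))
      have hW : WW (dl al be k) (al k) (al (k + 1)) ∈ PiG N al be :=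
        mul_mem (mul_mem (mul_mem (inv_mem (hdl k (by omega))) (hal k (by omega)))
          (hdl k (by omega))) (hal (k + 1) hk)
      apply red
      · intro i hi
        by_cases h1 : i = k
        · subst h1
          rw [r.T_al_i i hk]
          exact mul_mem (mul_mem (inv_mem hU) (hal i hi)) hU
        · by_cases h2 : i = k + 1
          · subst h2
            rw [r.T_al_j k hk]
            exact mul_mem (mul_mem (inv_mem hW) (hal _ hi)) hW
          · rw [hc _ _ (r.commTal k hk i hi h1 h2)]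
            exact hal i hi
      · intro i hi
        by_cases h1 : i = k
        · subst h1
          rw [r.T_be_i i hk, mul_one]
          exact mul_mem (hbe i hi) hU
        · by_cases h2 : i = k + 1
          · subst h2
            rw [r.T_be_j k hk, mul_one]
            exact mul_mem (hbe _ hi) hW
          · rw [hc _ _ (r.commTbe k hk i hi h1 h2)]
            exact hbe i hi
    | al k _ hk =>
      intro y hy
      exact mul_mem (mul_mem (hal k hk) hy) (inv_mem (hal k hk))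
    | be k _ hk =>
      intro y hy
      exact mul_mem (mul_mem (hbe k hk) hy) (inv_mem (hbe k hk))
  have hinv : ∀ x, InX N A B al be T N x → ∀ v ∈ fixPi ρ (PiG N al be),
      ρ x⁻¹ v ∈ fixPi ρ (PiG N al be) := by
    intro x hx v hv
    rw [mem_fixPi] at hv ⊢
    intro y hy
    have h1 : ρ y (ρ x⁻¹ v) = ρ x⁻¹ (ρ (x * y * x⁻¹) v) := by
      rw [← mul_app, ← mul_app]
      congr 2
      group
    rw [h1, hv _ (hnorm x hx y hy)]
  have hWt : fixPi ρ (PiG N al be) = ⊤ :=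
    (hirr _ (fun x hx => stable_of_inv ρ x _ (hinv x hx))).resolve_left hW0
  intro x hx
  ext v
  have hv : v ∈ fixPi ρ (PiG N al be) := by rw [hWt]; trivial
  rw [Module.End.one_apply]
  exact (mem_fixPi ρ _ v).1 hv x hx

end

end Pool.Agent.TH35.MG
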