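import Mathlib
import Pool.Agent.TH35.MG.Sl
import Pool.Agent.TH35.MG.Hlev
import Pool.Agent.H798R3.MG.Solv

set_option autoImplicit false

/-! Representations of dimension `< 2^(N-2)` are solvable on the pushes. -/

namespace Pool.Agent.TH35.MG

open Pool.Agent.H798R3.MG Pool.Agent.Helper950.BG Module

universe u v

section
variable {K : Type u} [Field K] [IsAlgClosed K] {Γ : Type v} [Group Γ] {N : ℕ}
  {A B al be T : ℕ → Γ} {tau : Γ}

/-- the product of the `A_i - 1`, `1 ≤ i < N`, vanishes -/
def PZ {V : Type u} [AddCommGroup V] [Module K V] (N : ℕ) (A : ℕ → Γ)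
    (ρ : Γ →* Module.End K V) : Prop :=
  ∀ l : List ℕ, l.Nodup → (∀ i, i ∈ l ↔ 1 ≤ i ∧ i < N) →
    (l.map (fun i => ρ (A i) - 1)).prod = 0

omit [IsAlgClosed K] in
theorem restr_prod {ι : Type*} {V : Type u} [AddCommGroup V] [Module K V]
    (ρ : Γ →* Module.End K V) (W : Submodule K V) (hW : ∀ g, ∀ v ∈ W, ρ g v ∈ W) (A : ι → Γ)
    (l : List ι) (w : W) :
    (((l.map (fun i => restr ρ W hW (A i) - 1)).prod w : W) : V) =
      (l.map (fun i => ρ (A i) - 1)).prod (w : V) := by
  induction l generalizing w with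
  | nil => rfl
  | cons i l ih =>
    rw [List.map_cons, List.prod_cons, List.map_cons, List.prod_cons, Module.End.mul_apply,
      Module.End.mul_apply, ← ih]
    rfl

omit [IsAlgClosed K] in
theorem quo_prod {ι : Type*} {V : Type u} [AddCommGroup V] [Module K V]
    (ρ : Γ →* Module.End K V) (W : Submodule K V) (hW : ∀ g, ∀ v ∈ W, ρ g v ∈ W) (A : ι → Γ)
    (l : List ι) (v : V) :
    (l.map (fun i => quo ρ W hW (A i) - 1)).prod (W.mkQ v) =
      W.mkQ ((l.map (fun i => ρ (A i) - 1)).prod v) := by
  induction l generalizing v with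
  | nil => rfl
  | cons i l ih =>
    rw [List.map_cons, List.prod_cons, List.map_cons, List.prod_cons, Module.End.mul_apply,
      Module.End.mul_apply, ih]
    rfl

omit [IsAlgClosed K] in
theorem PZ.restr {V : Type u} [AddCommGroup V] [Module K V] {ρ : Γ →* Module.End K V}
    (h : PZ N A ρ) (W : Submodule K V) (hW : ∀ g, ∀ v ∈ W, ρ g v ∈ W) :
    PZ N A (restr ρ W hW) := by
  intro l hnd hl
  ext w
  rw [restr_prod, h l hnd hl]
  rfl

omit [IsAlgClosed K] in
theorem PZ.quo {V : Type u} [AddCommGroup V] [Module K V] {ρ : Γ →* Module.End K V}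
    (h : PZ N A ρ) (W : Submodule K V) (hW : ∀ g, ∀ v ∈ W, ρ g v ∈ W) :
    PZ N A (quo ρ W hW) := by
  intro l hnd hl
  apply LinearMap.ext
  intro x
  obtain ⟨v, rfl⟩ := W.mkQ_surjective x
  rw [quo_prod, h l hnd hl]
  exact (Submodule.Quotient.mk_eq_zero W).2 (by rw [LinearMap.zero_apply]; exact W.zero_mem)

theorem hlev_one {V : Type u} [AddCommGroup V] [Module K V] [FiniteDimensional K V]
    (r : HRel N A B al be T tau) (hN : 2 ≤ N) (ρ : Γ →* Module.End K V)
    (hz : ∀ l : List ℕ, l.Nodup → (∀ i, i ∈ l ↔ 2 ≤ i ∧ i < N) →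
      (l.map (fun i => ρ (A i) - 1)).prod = 0) : PZ N A ρ := by
  intro l hnd hl
  have h1 : (1 : ℕ) ∈ l := (hl 1).2 ⟨le_rfl, by omega⟩
  have hcomm : ∀ i ∈ l, ∀ j ∈ l, Commute (ρ (A i) - 1) (ρ (A j) - 1) := fun i hi j hj =>
    ((((r.commAA i ((hl i).1 hi).2 j ((hl j).1 hj).2).map ρ).sub_left
      (Commute.one_left _)).sub_right (Commute.one_right _))
  obtain ⟨l1, l2, rfl⟩ := List.append_of_mem h1
  have hnd1 := hnd
  rw [List.nodup_append] at hnd1
  have hnd2 := List.nodup_cons.1 hnd1.2.1
  have hnot1 : (1 : ℕ) ∉ l1 := fun h => by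
    have := List.disjoint_of_nodup_append hnd
    exact this h List.mem_cons_self
  have hl' : ∀ i, i ∈ l1 ++ l2 ↔ 2 ≤ i ∧ i < N := by
    intro i
    constructor
    · intro hi
      have h3 : i ∈ l1 ++ 1 :: l2 := by
        rcases List.mem_append.1 hi with h | h
        · exact List.mem_append_left _ h
        · exact List.mem_append_right _ (List.mem_cons_of_mem _ h)
      have h4 : i ≠ 1 := by
        rintro rfl
        rcases List.mem_append.1 hi with h | h
        · exact hnot1 h
        · exact hnd2.1 h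
      have := (hl i).1 h3
      omega
    · rintro ⟨h3, h4⟩
      have h5 := (hl i).2 ⟨by omega, h4⟩
      rcases List.mem_append.1 h5 with h | h
      · exact List.mem_append_left _ h
      · rcases List.mem_cons.1 h with h | h
        · omega
        · exact List.mem_append_right _ h
  have hnd' : (l1 ++ l2).Nodup := by
    rw [List.nodup_append]
    refine ⟨hnd1.1, hnd2.2, ?_⟩
    intro a ha b hb
    exact hnd1.2.2 a ha b (List.mem_cons_of_mem _ hb)
  have h0 := hz (l1 ++ l2) hnd' hl'
  rw [List.map_append, List.prod_append] at h0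
  rw [List.map_append, List.prod_append, List.map_cons, List.prod_cons]
  have hc : Commute ((l1.map (fun i => ρ (A i) - 1)).prod) (ρ (A 1) - 1) := by
    apply Commute.symm
    apply commute_list
    intro i hi
    exact hcomm 1 (by simp) i (List.mem_append_left _ hi)
  rw [← mul_assoc, hc.eq, mul_assoc, h0, mul_zero]

theorem hlev_dim {V : Type u} [AddCommGroup V] [Module K V] [FiniteDimensional K V]
    (r : HRel N A B al be T tau) (hN : 2 ≤ N) (ρ : Γ →* Module.End K V)
    (hdim : finrank K V < 2 ^ (N - 2)) : PZ N A ρ := by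
  refine hlev_one r hN ρ ?_
  intro l hnd hl
  have hlen : l.length = N - 2 := by
    have h1 : l.toFinset = Finset.Ico 2 N := by
      ext i
      rw [List.mem_toFinset, Finset.mem_Ico]
      exact hl i
    rw [← List.toFinset_card_of_nodup hnd, h1, Nat.card_Ico]
  exact hlev_two r ρ l hnd hl (by rw [hlen]; exact hdim)

/-- the boundary twist is trivial -/
theorem tau_one' {V : Type u} [AddCommGroup V]
    [Module K V] [FiniteDimensional K V] [Nontrivial V] (r : HRel N A B al be T tau)
    (hN : 2 ≤ N) (hgen : Subgroup.closure (allH N A B al be T tau) = ⊤)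
    (ρ : Γ →* Module.End K V) (hz : PZ N A ρ)
    (hirr : ∀ W : Submodule K V, (∀ x, ∀ v ∈ W, ρ x v ∈ W) → W = ⊥ ∨ W = ⊤) :
    ρ tau = 1 := by
  obtain ⟨h, hhN, E, hE0, hEC, hEr, -, -⟩ := top_std r (by omega) ρ
    (fun l hnd hl => hz l hnd hl)
  set I := Finset.Ico (h + 2) N with hI
  have hIN : ∀ l ∈ I, l < N := fun l hl => (Finset.mem_Ico.1 hl).2
  have hIh : ∀ l ∈ I, h + 2 ≤ l := fun l hl => (Finset.mem_Ico.1 hl).1
  -- memberships in C
  have cA : ∀ m < N, A m ∈ T4b.cen A I := fun m hm l hl => r.commAA m hm l (hIN l hl)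
  have cB1 : B (h + 1) ∈ T4b.cen A I := fun l hl =>
    (r.commAB l (hIN l hl) (h + 1) (by omega) (by have := hIh l hl; omega)).symm
  have cB0 : B h ∈ T4b.cen A I := fun l hl =>
    (r.commAB l (hIN l hl) h (by omega) (by have := hIh l hl; omega)).symm
  have cT : T h ∈ T4b.cen A I := fun l hl => r.commTA h (by omega) l (hIN l hl)
  have cbe1 : be (h + 1) ∈ T4b.cen A I := fun l hl =>
    (r.commAbe l (hIN l hl) (h + 1) (by omega) (by have := hIh l hl; omega)).symm
  have cbe0 : be h ∈ T4b.cen A I := fun l hl =>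
    (r.commAbe l (hIN l hl) h (by omega) (by have := hIh l hl; omega)).symm
  -- memberships in F
  have fA1 : A (h + 1) ∈ T4b.fixG ρ E := hEr
  have fB1 : B (h + 1) ∈ T4b.fixG ρ E :=
    T4b.braid_fix ρ E A I hEC (cA _ (by omega)) cB1 (r.braidAB _ (by omega)) fA1
  have fT : T h ∈ T4b.fixG ρ E :=
    T4b.braid_fix ρ E A I hEC cB1 cT (r.braidTBj h (by omega)).symm fB1
  have fB0 : B h ∈ T4b.fixG ρ E :=
    T4b.braid_fix ρ E A I hEC cT cB0 (r.braidTBi h (by omega)) fT
  have fA0 : A h ∈ T4b.fixG ρ E :=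
    T4b.braid_fix ρ E A I hEC cB0 (cA _ (by omega)) (r.braidAB h (by omega)).symm fB0
  obtain ⟨fal1, fbe1⟩ := T4b.albe_fix ρ E A I hEC fA1 fB1 cbe1 (r.A_be _ (by omega))
    (r.B_al _ (by omega))
  obtain ⟨fal0, fbe0⟩ := T4b.albe_fix ρ E A I hEC fA0 fB0 cbe0 (r.A_be _ (by omega))
    (r.B_al _ (by omega))
  have fdl : dl al be h ∈ T4b.fixG ρ E := by
    unfold dl
    exact Subgroup.mul_mem _ (Subgroup.mul_mem _ (Subgroup.mul_mem _ fal0 fbe0)
      (Subgroup.inv_mem _ fal0)) (Subgroup.inv_mem _ fbe0)
  have fU : UU (dl al be h) (al h) (al (h + 1)) ∈ T4b.fixG ρ E := by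
    unfold UU
    exact Subgroup.mul_mem _ (Subgroup.mul_mem _ (Subgroup.mul_mem _ fdl fal1)
      (Subgroup.inv_mem _ fdl)) fal0
  have ftau : tau ∈ T4b.fixG ρ E := by
    have e := r.T_be_i h (by omega)
    have e2 : tau = (be h * UU (dl al be h) (al h) (al (h + 1)))⁻¹ *
        (T h * be h * (T h)⁻¹) := by
      rw [e]; group
    rw [e2]
    exact Subgroup.mul_mem _ (Subgroup.inv_mem _ (Subgroup.mul_mem _ fbe0 fU))
      (Subgroup.mul_mem _ (Subgroup.mul_mem _ fT fbe0) (Subgroup.inv_mem _ fT))
  -- tau is central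
  have hcent : ∀ x : Γ, Commute tau x := by
    intro x
    have hx : x ∈ Subgroup.closure (allH N A B al be T tau) := by
      rw [hgen]; exact Subgroup.mem_top x
    induction hx using Subgroup.closure_induction with
    | mem y hy =>
      rcases hy with ⟨i, hi, rfl | rfl | rfl | rfl⟩ | ⟨i, hi, rfl⟩ | rfl
      · exact r.tauA i hi
      · exact r.tauB i hi
      · exact r.tauAl i hi
      · exact r.tauBe i hi
      · exact r.tauT i hi
      · exact Commute.refl _
    | one => exact Commute.one_right _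
    | mul a b _ _ ha hb => exact ha.mul_right hb
    | inv a _ ha => exact ha.inv_right
  have hW := hirr (LinearMap.ker (ρ tau - 1)) (by
    intro x v hv
    rw [LinearMap.mem_ker, LinearMap.sub_apply, Module.End.one_apply, sub_eq_zero] at hv ⊢
    rw [← Module.End.mul_apply, ← map_mul, (hcent x).eq, map_mul, Module.End.mul_apply, hv])
  have hEW : E ≤ LinearMap.ker (ρ tau - 1) := by
    intro v hv
    rw [LinearMap.mem_ker, LinearMap.sub_apply, Module.End.one_apply, sub_eq_zero]
    exact ftau v hv
  rcases hW with hW | hW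
  · exfalso
    rw [hW] at hEW
    exact hE0 (le_bot_iff.1 hEW)
  · ext v
    have hv : v ∈ LinearMap.ker (ρ tau - 1) := by rw [hW]; exact Submodule.mem_top
    rw [LinearMap.mem_ker, LinearMap.sub_apply, Module.End.one_apply, sub_eq_zero] at hv
    rw [hv, Module.End.one_apply]

/-- irreducible case -/
theorem irr_std {V : Type u} [AddCommGroup V]
    [Module K V] [FiniteDimensional K V] [Nontrivial V] (r : HRel N A B al be T tau)
    (hN : 2 ≤ N) (hgen : Subgroup.closure (allH N A B al be T tau) = ⊤)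
    (ρ : Γ →* Module.End K V) (hz : PZ N A ρ)
    (hirr : ∀ W : Submodule K V, (∀ x, ∀ v ∈ W, ρ x v ∈ W) → W = ⊥ ∨ W = ⊤) :
    PiT N al be tau ≤ ρ.ker := by
  have htau : ρ tau = 1 := tau_one' r hN hgen ρ hz hirr
  have hf : ∀ x : Γ, ((ρ.toHomUnits x : (Module.End K V)ˣ) : Module.End K V) = ρ x :=
    fun x => MonoidHom.coe_toHomUnits ρ x
  have ftau : ρ.toHomUnits tau = 1 := by
    apply Units.ext
    rw [hf, htau, Units.val_one]
  have h' := r.map ρ.toHomUnits
  rw [ftau] at h'
  have hmain := slot_std (Units.coeHom (Module.End K V)) h' (by omega) (by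
    intro W hWinv
    apply hirr W
    intro x v hv
    -- the stabiliser of `W`
    have hst : ∀ y ∈ allH N A B al be T tau, ∀ v ∈ W, ρ y v ∈ W := by
      intro y hy v hv
      rcases hy with ⟨i, hi, rfl | rfl | rfl | rfl⟩ | ⟨i, hi, rfl⟩ | rfl
      · have := hWinv _ (.A i hi) v hv
        rwa [Units.coeHom_apply, hf] at this
      · have := hWinv _ (.B i hi hi) v hv
        rwa [Units.coeHom_apply, hf] at this
      · have := hWinv _ (.al i hi.le hi) v hv
        rwa [Units.coeHom_apply, hf] at this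
      · have := hWinv _ (.be i hi hi) v hv
        rwa [Units.coeHom_apply, hf] at this
      · have := hWinv _ (.T i (by omega) hi) v hv
        rwa [Units.coeHom_apply, hf] at this
      · rw [htau, Module.End.one_apply]
        exact hv
    have hinvst : ∀ y : Γ, (∀ v ∈ W, ρ y v ∈ W) → ∀ v ∈ W, ρ y⁻¹ v ∈ W := by
      intro y hy
      have := T2b.stable_of_inv ρ y⁻¹ W (by rwa [inv_inv])
      exact this
    have hx : x ∈ Subgroup.closure (allH N A B al be T tau) := by
      rw [hgen]; exact Subgroup.mem_top x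
    exact (T2b.closure_stable ρ W _ hst (fun y hy => hinvst y (hst y hy)) hx v hv).1) (by
    intro q hnd hq
    have := hz q hnd hq
    simpa only [Units.coeHom_apply, hf] using this)
  unfold PiT
  rw [Subgroup.closure_le]
  rintro y ((⟨i, hi, rfl⟩ | ⟨i, hi, rfl⟩) | hy)
  · have := hmain (ρ.toHomUnits (al i)) (Subgroup.subset_closure (Or.inl ⟨i, hi, rfl⟩))
    rw [Units.coeHom_apply, hf] at this
    exact this
  · have := hmain (ρ.toHomUnits (be i)) (Subgroup.subset_closure (Or.inr ⟨i, hi, rfl⟩))
    rw [Units.coeHom_apply, hf] at this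
    exact this
  · rw [Set.mem_singleton_iff.1 hy]
    exact htau

/-- every representation killed by the product of the `A_i - 1` is solvable on the pushes -/
theorem solvable_pz (r : HRel N A B al be T tau)
    (hN : 2 ≤ N) (hgen : Subgroup.closure (allH N A B al be T tau) = ⊤) (n : ℕ) :
    ∀ (V : Type u) [AddCommGroup V] [Module K V] [FiniteDimensional K V]
      (ρ : Γ →* Module.End K V), PZ N A ρ → finrank K V ≤ n →
    dser (PiT N al be tau) n ≤ ρ.ker := by
  induction n with
  | zero =>
    intro V _ _ _ ρ _ h0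
    have hs : Subsingleton V := finrank_zero_iff.1 (Nat.le_zero.1 h0)
    intro x _
    rw [MonoidHom.mem_ker]
    ext v
    exact Subsingleton.elim _ _
  | succ n ih =>
    intro V _ _ _ ρ hz hn
    rcases subsingleton_or_nontrivial V with hs | hs
    · intro x _
      rw [MonoidHom.mem_ker]
      ext v
      exact Subsingleton.elim _ _
    by_cases hirr : ∀ W : Submodule K V, (∀ x, ∀ v ∈ W, ρ x v ∈ W) → W = ⊥ ∨ W = ⊤
    · exact (T5.dser_anti _ (Nat.zero_le _)).trans (irr_std r hN hgen ρ hz hirr)
    push Not at hirr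
    obtain ⟨W, hW, hb, ht⟩ := hirr
    have h1 : finrank K W < finrank K V := Submodule.finrank_lt ht
    have h2 := Submodule.finrank_quotient_add_finrank W
    have h3 : 0 < finrank K W := by
      rw [Nat.pos_iff_ne_zero]
      intro h0
      exact hb (Submodule.finrank_eq_zero.1 h0)
    have ha := ih W (restr ρ W hW) (hz.restr W hW) (by omega)
    have hb' := ih (V ⧸ W) (quo ρ W hW) (hz.quo W hW) (by omega)
    have h4 := T5.split ρ W hW _ n n ha hb'
    rwa [max_self] at h4

/-- every representation killed by the product of the `A_i - 1` is unipotent on the pushes -/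
theorem nil_pz (r : HRel N A B al be T tau)
    (hN : 2 ≤ N) (hgen : Subgroup.closure (allH N A B al be T tau) = ⊤) (n : ℕ) :
    ∀ (V : Type u) [AddCommGroup V] [Module K V] [FiniteDimensional K V]
      (ρ : Γ →* Module.End K V), PZ N A ρ → finrank K V ≤ n →
    ∀ l : List Γ, (∀ x ∈ l, x ∈ PiT N al be tau) → n ≤ l.length →
      (l.map (fun x => ρ x - 1)).prod = 0 := by
  induction n using Nat.strong_induction_on with
  | _ n ih =>
    intro V _ _ _ ρ hz hn l hl hlen
    rcases subsingleton_or_nontrivial V with hs | hs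
    · ext v
      exact Subsingleton.elim _ _
    have hpos : 0 < finrank K V := finrank_pos
    by_cases hirr : ∀ W : Submodule K V, (∀ x, ∀ v ∈ W, ρ x v ∈ W) → W = ⊥ ∨ W = ⊤
    · have h1 := irr_std r hN hgen ρ hz hirr
      obtain ⟨x, l', rfl⟩ : ∃ x l', l = x :: l' := by
        cases l with
        | nil => rw [List.length_nil] at hlen; omega
        | cons x l' => exact ⟨x, l', rfl⟩
      rw [List.map_cons, List.prod_cons]
      have h2 : ρ x = 1 := h1 (hl x List.mem_cons_self)
      rw [h2, sub_self, zero_mul]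
    push Not at hirr
    obtain ⟨W, hW, hb, ht⟩ := hirr
    have h1 : finrank K W < finrank K V := Submodule.finrank_lt ht
    have h2 := Submodule.finrank_quotient_add_finrank W
    have h3 : 0 < finrank K W := by
      rw [Nat.pos_iff_ne_zero]
      intro h0
      exact hb (Submodule.finrank_eq_zero.1 h0)
    have ha := ih (finrank K W) (by omega) W (restr ρ W hW) (hz.restr W hW) le_rfl
      (l.take (finrank K W)) (fun x hx => hl x (List.mem_of_mem_take hx))
      (by rw [List.length_take]; omega)
    have hb' := ih (finrank K (V ⧸ W)) (by omega) (V ⧸ W) (quo ρ W hW) (hz.quo W hW) le_rfl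
      (l.drop (finrank K W)) (fun x hx => hl x (List.mem_of_mem_drop hx))
      (by rw [List.length_drop]; omega)
    apply LinearMap.ext
    intro v
    have e : l = l.take (finrank K W) ++ l.drop (finrank K W) := (List.take_append_drop _ _).symm
    have hw : ((l.drop (finrank K W)).map (fun x => ρ x - 1)).prod v ∈ W := by
      have h5 := quo_prod ρ W hW (fun x : Γ => x) (l.drop (finrank K W)) v
      rw [hb', LinearMap.zero_apply] at h5
      exact (Submodule.Quotient.mk_eq_zero W).1 h5.symm
    have h6 := restr_prod ρ W hW (fun x : Γ => x) (l.take (finrank K W)) ⟨_, hw⟩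
    rw [ha] at h6
    rw [e, List.map_append, List.prod_append, Module.End.mul_apply, LinearMap.zero_apply, ← h6]
    rfl

theorem solvable_std (r : HRel N A B al be T tau)
    (hN : 2 ≤ N) (hgen : Subgroup.closure (allH N A B al be T tau) = ⊤) (n : ℕ)
    (V : Type u) [AddCommGroup V] [Module K V] [FiniteDimensional K V]
    (ρ : Γ →* Module.End K V) (hdim : finrank K V < 2 ^ (N - 2)) (hn : finrank K V ≤ n) :
    dser (PiT N al be tau) n ≤ ρ.ker :=
  solvable_pz r hN hgen n V ρ (hlev_dim r hN ρ hdim) hn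

end

end Pool.Agent.TH35.MG
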