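import Mathlib
import Pool.Agent.H798R3.MG.Final
import Pool.Agent.TH35.MG.HR
import Pool.Agent.TH35.MG.Irr2

set_option autoImplicit false

/-! Small representations of `Mod_g`: the handle elements inside `Mod_g`, and the lower bound
`2^(g-5)` for the dimension of faithful representations. -/

namespace Pool.Agent.TH35.MG

open Pool.Agent.H798R3.MG Pool.Agent.H29R2.MG Pool.Agent.H29R2.QD Pool.Agent.Helper950.BG

universe u

/-- the handle elements inside the group of oriented automorphisms fixing the relator -/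
theorem setup {g N : ℕ} (h0 : 2 ≤ N) (hg : N + 3 ≤ g) :
    ∃ (Γ : Subgroup (orSub g)) (A B al be T : ℕ → Γ) (tau : Γ),
      HRel N A B al be T tau ∧ Subgroup.closure (allH N A B al be T tau) = ⊤ ∧
      (∀ i < N, (A i : orSub g) = sA g i) ∧ (∀ i < N, (B i : orSub g) = sB g i) ∧
      (∀ i < N, (al i : orSub g) = sal g (N + 2) i) ∧
      (∀ i < N, (be i : orSub g) = sbe g (N + 2) i) ∧
      ∀ k, ∃ x ∈ dser (PiT N al be tau) k,
        ¬ ∃ u : SurfaceGroup g, ∀ w : FG g,
          mk g ((Γ.subtype x : MulAut (FG g)) w) = u * mk g w * u⁻¹ := by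
  have c : Ctx g N (N + 2) := ⟨h0, le_refl _, by omega⟩
  have hrel := h_rel whyp c
  set n := N + 2 with hn
  let Γ : Subgroup (orSub g) :=
    Subgroup.closure (allH N (sA g) (sB g) (sal g n) (sbe g n) (fun i => sT g i (i + 1))
      (stau g n))
  have hmem : ∀ x ∈ allH N (sA g) (sB g) (sal g n) (sbe g n) (fun i => sT g i (i + 1))
      (stau g n), x ∈ Γ := fun x hx => Subgroup.subset_closure hx
  classical
  let L : orSub g → Γ := fun x => if h : x ∈ Γ then ⟨x, h⟩ else 1
  have hL : ∀ x ∈ Γ, (L x : orSub g) = x := by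
    intro x hx
    simp only [L]
    rw [dif_pos hx]
  have mA : ∀ i < N, sA g i ∈ Γ := fun i hi => hmem _ (Or.inl ⟨i, hi, Or.inl rfl⟩)
  have mB : ∀ i < N, sB g i ∈ Γ := fun i hi => hmem _ (Or.inl ⟨i, hi, Or.inr (Or.inl rfl)⟩)
  have mal : ∀ i < N, sal g n i ∈ Γ :=
    fun i hi => hmem _ (Or.inl ⟨i, hi, Or.inr (Or.inr (Or.inl rfl))⟩)
  have mbe : ∀ i < N, sbe g n i ∈ Γ :=
    fun i hi => hmem _ (Or.inl ⟨i, hi, Or.inr (Or.inr (Or.inr rfl))⟩)
  have mT : ∀ i, i + 1 < N → sT g i (i + 1) ∈ Γ :=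
    fun i hi => hmem _ (Or.inr (Or.inl ⟨i, hi, rfl⟩))
  have mtau : stau g n ∈ Γ := hmem _ (Or.inr (Or.inr rfl))
  have hrel' : HRel N (fun i => L (sA g i)) (fun i => L (sB g i)) (fun i => L (sal g n i))
      (fun i => L (sbe g n i)) (fun i => L (sT g i (i + 1))) (L (stau g n)) := by
    refine HRel.pull Γ.subtype Γ.subtype_injective ?_
    exact (hrel.congr (fun i hi => hL _ (mA i hi)) (fun i hi => hL _ (mB i hi))
      (fun i hi => hL _ (mal i hi)) (fun i hi => hL _ (mbe i hi))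
      (fun i hi => hL _ (mT i hi))).tau_eq (hL _ mtau)
  have hgen : Subgroup.closure (allH N (fun i => L (sA g i)) (fun i => L (sB g i))
      (fun i => L (sal g n i)) (fun i => L (sbe g n i)) (fun i => L (sT g i (i + 1)))
      (L (stau g n))) = ⊤ := by
    have h1 : (Subgroup.closure (((↑) : Γ → orSub g) ⁻¹'
        allH N (sA g) (sB g) (sal g n) (sbe g n) (fun i => sT g i (i + 1)) (stau g n))) = ⊤ :=
      Subgroup.closure_closure_coe_preimage
    rw [eq_top_iff, ← h1, Subgroup.closure_le]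
    intro x hx
    apply Subgroup.subset_closure
    have hx' : (x : orSub g) ∈ allH N (sA g) (sB g) (sal g n) (sbe g n)
      (fun i => sT g i (i + 1)) (stau g n) := hx
    have key : ∀ y, (x : orSub g) = y → x = L y := by
      intro y hy
      apply Subtype.ext
      rw [← hy, hL _ x.2]
    rcases hx' with ⟨i, hi, h | h | h | h⟩ | ⟨i, hi, h⟩ | h
    · exact Or.inl ⟨i, hi, Or.inl (key _ h)⟩
    · exact Or.inl ⟨i, hi, Or.inr (Or.inl (key _ h))⟩
    · exact Or.inl ⟨i, hi, Or.inr (Or.inr (Or.inl (key _ h)))⟩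
    · exact Or.inl ⟨i, hi, Or.inr (Or.inr (Or.inr (key _ h)))⟩
    · exact Or.inr (Or.inl ⟨i, hi, key _ h⟩)
    · exact Or.inr (Or.inr (key _ h))
  have hok : ∀ i < 2, OrOK g (hal g n i) (hal' g n i) := by
    intro i hi
    exact ((whyp.k g N n c.h2 c.hN c.hg).1 i (by omega)).2.2.1
  refine ⟨Γ, _, _, _, _, _, _, hrel', hgen, fun i hi => hL _ (mA i hi),
    fun i hi => hL _ (mB i hi), fun i hi => hL _ (mal i hi), fun i hi => hL _ (mbe i hi), ?_⟩
  exact t_N g n (by omega) c.hg hok Γ.subtype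
    (PiT N (fun i => L (sal g n i)) (fun i => L (sbe g n i)) (L (stau g n)))
    (L (sal g n 0)) (L (sal g n 1))
    (Subgroup.subset_closure (Or.inl (Or.inl ⟨0, by omega, rfl⟩)))
    (Subgroup.subset_closure (Or.inl (Or.inl ⟨1, by omega, rfl⟩)))
    (hL _ (mal 0 (by omega))) (hL _ (mal 1 (by omega)))

/-- the mapping class of an oriented automorphism of the free group fixing the relator -/
def modF (g : ℕ) : orSub g →* Mod g := (toMod g).comp (TQ.qh g)

theorem modF_ker {g : ℕ} {φ : orSub g} (hφ : modF g φ = 1) :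
    ∃ u : SurfaceGroup g, ∀ x : FG g, mk g ((φ : MulAut (FG g)) x) = u * mk g x * u⁻¹ := by
  unfold modF at hφ
  rw [MonoidHom.comp_apply] at hφ
  have h1 : TQ.qh g φ ∈ innerAut g := (QuotientGroup.eq_one_iff _).1 hφ
  rw [innerAut, Subgroup.mem_subgroupOf] at h1
  obtain ⟨u, hu⟩ := h1
  refine ⟨u, fun x => ?_⟩
  have h2 : TQ.qe φ (mk g x) = MulAut.conj u (mk g x) := by
    rw [hu]
    rfl
  rw [TQ.qe_mk, MulAut.conj_apply] at h2
  exact h2

/-- a nontrivial element of `Mod_g` killed by all representations of dimension `< 2^(N-2)`, over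
all fields -/
theorem unif_kernel {g N : ℕ} (h0 : 2 ≤ N) (hg : N + 3 ≤ g) :
    ∃ x : Mod g, x ≠ 1 ∧ ∀ (K : Type u) [Field K] (d : ℕ), d < 2 ^ (N - 2) →
      ∀ f : Mod g →* Matrix.GeneralLinearGroup (Fin d) K, f x = 1 := by
  obtain ⟨Γ, A, B, al, be, T, tau, hrel, hgen, -, -, -, -, hx⟩ := setup h0 hg
  obtain ⟨x, hxd, hx2⟩ := hx (2 ^ (N - 2))
  refine ⟨modF g x, fun h => hx2 (modF_ker h), ?_⟩
  intro K _ d hd f
  have h2 := solvable_std (K := AlgebraicClosure K) hrel h0 hgen (2 ^ (N - 2))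
    (Fin d → AlgebraicClosure K) ((((glEnd d K).comp f).comp (modF g)).comp Γ.subtype)
    (by simpa using hd) (by simpa using hd.le) hxd
  rw [MonoidHom.mem_ker] at h2
  apply glEnd_inj d K
  rw [map_one]
  exact h2

/-- a nontrivial element of `Mod_g` killed by all representations of dimension `< 2^(g-5)` -/
theorem unif_kernel' {g : ℕ} (hg : 3 ≤ g) :
    ∃ x : Mod g, x ≠ 1 ∧ ∀ (K : Type u) [Field K] (d : ℕ), d < 2 ^ (g - 5) →
      ∀ f : Mod g →* Matrix.GeneralLinearGroup (Fin d) K, f x = 1 := by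
  rcases Nat.lt_or_ge g 5 with h5 | h5
  · -- the group is not trivial
    have hne : ∃ x : Mod g, x ≠ 1 := by
      by_contra hcon
      push Not at hcon
      have h1 : 2 ^ (g / 3 - 1) ≤ 0 := exp_bound (d := 0) hg ℚ
        (1 : Mod g →* Matrix.GeneralLinearGroup (Fin 0) ℚ) (by
          intro a b _
          rw [hcon a, hcon b])
      have h2 : 1 ≤ 2 ^ (g / 3 - 1) := Nat.one_le_two_pow
      omega
    obtain ⟨x, hx⟩ := hne
    refine ⟨x, hx, ?_⟩
    intro K _ d hd f
    have h3 : g - 5 = 0 := by omega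
    rw [h3, pow_zero] at hd
    have hd0 : d = 0 := by omega
    subst hd0
    exact Subsingleton.elim _ _
  · obtain ⟨x, hx, h⟩ := unif_kernel.{u} (g := g) (N := g - 3) (by omega) (by omega)
    refine ⟨x, hx, ?_⟩
    intro K _ d hd f
    exact h K d (by rwa [show g - 3 - 2 = g - 5 by omega]) f

/-- A faithful representation of `Mod_g` over a field has dimension at least `2^(g-5)`. -/
theorem exp_bound_two {g d : ℕ} (hg : 3 ≤ g) (K : Type u) [Field K]
    (f : Mod g →* Matrix.GeneralLinearGroup (Fin d) K) (hf : Function.Injective f) :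
    2 ^ (g - 5) ≤ d := by
  obtain ⟨x, hx, h⟩ := unif_kernel'.{u} hg
  by_contra hd
  push Not at hd
  exact hx (hf (by rw [h K d hd f, map_one]))

end Pool.Agent.TH35.MG
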