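import Mathlib
import Pool.Agent.TH35.MG.Irr2

set_option autoImplicit false

/-! In small representations the twists are unipotent. -/

namespace Pool.Agent.TH35.MG

open Pool.Agent.H798R3.MG Pool.Agent.Helper950.BG Module

section
variable {K V G : Type*} [Field K] [AddCommGroup V] [Module K V] [FiniteDimensional K V] [Group G]

omit [Field K] [AddCommGroup V] [Module K V] [FiniteDimensional K V] in
/-- all the `A_i` are conjugate to `A_0` -/
theorem conj_A {N : ℕ} {A B al be T : ℕ → G} {tau : G} (r : HRel N A B al be T tau) (i : ℕ)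
    (hi : i < N) : ∃ w : G, A i = w * A 0 * w⁻¹ := by
  induction i with
  | zero => exact ⟨1, by group⟩
  | succ i ih =>
    obtain ⟨w, hw⟩ := ih (by omega)
    refine ⟨Ss A B T i * w, ?_⟩
    have h1 := r.sA i hi
    have h2 : A (i + 1) = Ss A B T i * A i * (Ss A B T i)⁻¹ := by rw [h1]; group
    rw [h2, hw]
    group

/-- the product of the `A_l - 1`, `h < l < N` -/
def Xp (ρ : G →* Module.End K V) (N : ℕ) (A : ℕ → G) (h : ℕ) : Module.End K V :=
  ((List.range' (h + 1) (N - 1 - h)).map (fun i => ρ (A i) - 1)).prod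

omit [FiniteDimensional K V] in
theorem Xp_succ (ρ : G →* Module.End K V) (N : ℕ) (A : ℕ → G) (h : ℕ) (hh : h + 1 < N) :
    Xp ρ N A h = (ρ (A (h + 1)) - 1) * Xp ρ N A (h + 1) := by
  unfold Xp
  rw [show N - 1 - h = (N - 1 - (h + 1)) + 1 by omega, List.range'_succ, List.map_cons,
    List.prod_cons]

omit [FiniteDimensional K V] in
/-- the lantern step -/
theorem lstep {N : ℕ} {A B al be T : ℕ → G} {tau : G}
    (r : HRel N A B al be T tau) (ρ : G →* Module.End K V) (i n : ℕ) (hhN : i + 2 < N)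
    (h1 : (ρ (A (i + 1)) - 1) ^ n * Xp ρ N A (i + 1) = 0) :
    (ρ (A (i + 2)) - 1) ^ (n + 1) * Xp ρ N A (i + 2) = 0 := by
  have hmul : ∀ x y : G, ∀ v, ρ x (ρ y v) = ρ (x * y) v := by
    intro x y v
    rw [map_mul, Module.End.mul_apply]
  let X : ℕ → Module.End K V := Xp ρ N A
  let R : ℕ → Module.End K V := fun h => (ρ (A h) - 1) ^ n * X h
  have hXs : ∀ h, h + 1 < N → X h = (ρ (A (h + 1)) - 1) * X (h + 1) := Xp_succ ρ N A
  have hcommD : ∀ i < N, ∀ j < N, Commute (ρ (A i) - 1) (ρ (A j) - 1) := fun i hi j hj =>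
    ((((r.commAA i hi j hj).map ρ).sub_left
      (Commute.one_left _)).sub_right (Commute.one_right _))
  -- commutation with the products
  have cX : ∀ x : G, (∀ l, i + 2 < l → l < N → Commute x (A l)) → Commute (ρ x) (X (i + 2)) := by
    intro x hx
    refine commute_list _ _ _ ?_
    intro l hl
    rw [List.mem_range'_1] at hl
    exact ((hx l (by omega) (by omega)).map ρ).sub_right (Commute.one_right _)
  have cR : ∀ x : G, (∀ l ∈ Finset.Ico (i + 2) N, Commute x (A l)) →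
      Commute (ρ x) (R (i + 2)) := by
    intro x hx
    refine Commute.mul_right ?_ (cX x fun l h1 h2 => hx l (Finset.mem_Ico.2 ⟨by omega, h2⟩))
    exact ((((hx (i + 2) (Finset.mem_Ico.2 ⟨le_rfl, hhN⟩)).map ρ).sub_right
      (Commute.one_right _)).pow_right n)
  -- `A_{i+1}` is trivial on the range
  have hlow : (ρ (A (i + 1)) - 1) * R (i + 2) = 0 := by
    have h1 : R (i + 1) = 0 := h1
    -- conjugate by the exchange of the handles `i+1` and `i+2`
    set S := Ss A B T (i + 1) with hS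
    have s1 : S * A (i + 1) = A (i + 2) * S := r.sA (i + 1) (by omega)
    have s2 : S * A (i + 2) = A (i + 1) * S := r.sA' (i + 1) (by omega)
    have cS : Commute (ρ S) (X (i + 2)) := by
      refine cX S ?_
      intro l hl hlN
      exact Ss_comm (r.commAA (i + 1) (by omega) l hlN)
        (r.commAB l hlN (i + 1) (by omega) (by omega)).symm
        (r.commTA (i + 1) (by omega) l hlN) (r.commAB l hlN (i + 1 + 1) (by omega)
          (by omega)).symm
        (r.commAA (i + 1 + 1) (by omega) l hlN)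
    have e1 : ρ S * (ρ (A (i + 1)) - 1) = (ρ (A (i + 2)) - 1) * ρ S := by
      rw [mul_sub, sub_mul, ← map_mul, ← map_mul, s1, mul_one, one_mul]
    have e2 : ρ S * (ρ (A (i + 2)) - 1) = (ρ (A (i + 1)) - 1) * ρ S := by
      rw [mul_sub, sub_mul, ← map_mul, ← map_mul, s2, mul_one, one_mul]
    have e3 : ∀ m : ℕ, ρ S * (ρ (A (i + 1)) - 1) ^ m = (ρ (A (i + 2)) - 1) ^ m * ρ S := by
      intro m
      induction m with
      | zero => rw [pow_zero, pow_zero, mul_one, one_mul]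
      | succ m ih => rw [pow_succ, ← mul_assoc, ih, mul_assoc, e1, ← mul_assoc, ← pow_succ]
    have h2 : R (i + 1) = (ρ (A (i + 1)) - 1) ^ n * ((ρ (A (i + 2)) - 1) * X (i + 2)) := by
      simp only [R]
      rw [hXs (i + 1) (by omega)]
    have h3 : ρ S * R (i + 1) = (ρ (A (i + 2)) - 1) ^ n * ((ρ (A (i + 1)) - 1) * X (i + 2)) *
        ρ S := by
      rw [h2, ← mul_assoc, e3, mul_assoc, ← mul_assoc (ρ S), e2, mul_assoc _ (ρ S), cS.eq]
      noncomm_ring
    rw [h1, mul_zero] at h3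
    have h4 : (ρ (A (i + 2)) - 1) ^ n * ((ρ (A (i + 1)) - 1) * X (i + 2)) = 0 := by
      have h5 : ρ S * ρ S⁻¹ = 1 := by rw [← map_mul, mul_inv_cancel, map_one]
      have h6 := congrArg (fun z => z * ρ S⁻¹) h3.symm
      simp only [zero_mul, mul_assoc, h5, mul_one] at h6
      rw [← h6]
    have h7 := (hcommD (i + 1) (by omega) (i + 2) (by omega)).pow_right n
    show (ρ (A (i + 1)) - 1) * ((ρ (A (i + 2)) - 1) ^ n * X (i + 2)) = 0
    rw [← mul_assoc, h7.eq, mul_assoc]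
    exact h4
  -- the space
  set E := LinearMap.range (R (i + 2)) with hE
  set I := Finset.Ico (i + 2) N with hI
  have hIN : ∀ l ∈ I, l < N := fun l hl => (Finset.mem_Ico.1 hl).2
  have hIh : ∀ l ∈ I, i + 2 ≤ l := fun l hl => (Finset.mem_Ico.1 hl).1
  have hEC : ∀ x : G, (∀ l ∈ I, Commute x (A l)) → ∀ v ∈ E, ρ x v ∈ E := by
    rintro x hx v ⟨u, rfl⟩
    refine ⟨ρ x u, ?_⟩
    have h1 := LinearMap.congr_fun (cR x hx).eq u
    exact h1.symm
  have cA : ∀ m < N, A m ∈ T4b.cen A I := fun m hm l hl => r.commAA m hm l (hIN l hl)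
  have cB1 : B (i + 1) ∈ T4b.cen A I := fun l hl =>
    (r.commAB l (hIN l hl) (i + 1) (by omega) (by have := hIh l hl; omega)).symm
  have cB0 : B i ∈ T4b.cen A I := fun l hl =>
    (r.commAB l (hIN l hl) i (by omega) (by have := hIh l hl; omega)).symm
  have cT : T i ∈ T4b.cen A I := fun l hl => r.commTA i (by omega) l (hIN l hl)
  have cT1 : T (i + 1) ∈ T4b.cen A I := fun l hl => r.commTA (i + 1) (by omega) l (hIN l hl)
  have fA1 : A (i + 1) ∈ T4b.fixG ρ E := by
    rintro v ⟨u, rfl⟩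
    have h1 := LinearMap.congr_fun hlow u
    rw [Module.End.mul_apply, LinearMap.sub_apply, Module.End.one_apply, LinearMap.zero_apply,
      sub_eq_zero] at h1
    exact h1
  have fB1 : B (i + 1) ∈ T4b.fixG ρ E :=
    T4b.braid_fix ρ E A I hEC (cA _ (by omega)) cB1 (r.braidAB _ (by omega)) fA1
  have fT : T i ∈ T4b.fixG ρ E :=
    T4b.braid_fix ρ E A I hEC cB1 cT (r.braidTBj i (by omega)).symm fB1
  have fT1 : T (i + 1) ∈ T4b.fixG ρ E :=
    T4b.braid_fix ρ E A I hEC cB1 cT1 (r.braidTBi (i + 1) (by omega)).symm fB1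
  have fB0 : B i ∈ T4b.fixG ρ E :=
    T4b.braid_fix ρ E A I hEC cT cB0 (r.braidTBi i (by omega)) fT
  have fA0 : A i ∈ T4b.fixG ρ E :=
    T4b.braid_fix ρ E A I hEC cB0 (cA _ (by omega)) (r.braidAB i (by omega)).symm fB0
  have fS : Ss A B T i ∈ T4b.fixG ρ E := by
    unfold Ss Sw
    exact mul_mem (mul_mem (mul_mem (mul_mem (mul_mem (mul_mem (mul_mem (mul_mem fA0 fB0) fT)
      fB1) fA1) (mul_mem (mul_mem (mul_mem fA0 fB0) fT) fB1)) (mul_mem (mul_mem fA0 fB0) fT))
      (mul_mem fA0 fB0)) fA0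
  have fQ : Qw (A i) (B i) ∈ T4b.fixG ρ E := by
    unfold Qw Rw
    have h1 := mul_mem (mul_mem fA0 fB0) fA0
    exact mul_mem (mul_mem h1 h1) (mul_mem h1 h1)
  have fD : Dd A B T i ∈ T4b.fixG ρ E := by
    have e := r.dd2 i (by omega)
    have e2 : Dd A B T i = (Qw (A i) (B i))⁻¹ *
        (Ss A B T i * T (i + 1) * (Ss A B T i)⁻¹ * Qw (A i) (B i)) := by
      rw [← e]; group
    rw [e2]
    exact mul_mem (inv_mem fQ) (mul_mem (mul_mem (mul_mem fS fT1) (inv_mem fS)) fQ)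
  -- `L_i` stabilises `E`
  have hfc : ∀ x ∈ T4b.fixG ρ E, ∀ v ∈ E, ρ x v ∈ E := fun x hx v hv => by
    rw [hx v hv]; exact hv
  have hL : ∀ v ∈ E, ρ (Ll A B T i) v = ρ (A (i + 2))⁻¹ v := by
    intro v hv
    have hv' : ρ (A (i + 2))⁻¹ v ∈ E :=
      hEC _ (fun l hl => ((cA (i + 2) (by omega)) l hl).inv_left) v hv
    have e1 : Ll A B T i = T i * T (i + 1) * Dd A B T i * (A i)⁻¹ * (A (i + 1))⁻¹ *
        (A (i + 2))⁻¹ := by
      unfold Ll
      have c1 := (r.commAA i (by omega) (i + 1) (by omega)).eq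
      have c2 := (r.commAA i (by omega) (i + 2) (by omega)).eq
      have c3 := (r.commAA (i + 1) (by omega) (i + 2) (by omega)).eq
      have e0 : A i * A (i + 1) * A (i + 2) = A (i + 2) * A (i + 1) * A i := by
        rw [mul_assoc, c3, ← mul_assoc, c2, mul_assoc, c1, ← mul_assoc]
      rw [e0]
      group
    have fP : T i * T (i + 1) * Dd A B T i * (A i)⁻¹ * (A (i + 1))⁻¹ ∈ T4b.fixG ρ E :=
      mul_mem (mul_mem (mul_mem (mul_mem fT fT1) fD) (inv_mem fA0)) (inv_mem fA1)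
    rw [e1, map_mul, Module.End.mul_apply]
    exact fP _ hv'
  have hLl := r.lantern i (by omega)
  have hfix : ∀ v ∈ E, ρ (A (i + 2)) v = v := by
    intro v hv
    have hw : ρ (A (i + 2))⁻¹ v ∈ E :=
      hEC _ (fun l hl => ((cA (i + 2) (by omega)) l hl).inv_left) v hv
    have hww : ρ (A (i + 2))⁻¹ (ρ (A (i + 2))⁻¹ v) ∈ E :=
      hEC _ (fun l hl => ((cA (i + 2) (by omega)) l hl).inv_left) _ hw
    have e1 : ρ (Ll A B T i * B i * Ll A B T i) v = ρ (A (i + 2))⁻¹ (ρ (A (i + 2))⁻¹ v) := by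
      rw [← hmul, ← hmul, hL v hv, fB0 _ hw, hL _ hw]
    have e2 : ρ (B i * Ll A B T i * B i) v = ρ (A (i + 2))⁻¹ v := by
      rw [← hmul, ← hmul, fB0 v hv, hL v hv, fB0 _ hw]
    rw [hLl, e2] at e1
    have e3 := congrArg (fun z => ρ (A (i + 2)) (ρ (A (i + 2)) z)) e1
    simp only [hmul] at e3
    have e4 : A (i + 2) * (A (i + 2) * (A (i + 2))⁻¹) = A (i + 2) := by group
    have e5 : A (i + 2) * (A (i + 2) * ((A (i + 2))⁻¹ * (A (i + 2))⁻¹)) = 1 := by group
    rw [e4, e5, map_one, Module.End.one_apply] at e3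
    exact e3
  rw [pow_succ', mul_assoc]
  ext u
  have h1 : (ρ (A (i + 2)) - 1) (R (i + 2) u) = 0 := by
    rw [LinearMap.sub_apply, Module.End.one_apply, sub_eq_zero]
    exact hfix _ ⟨u, rfl⟩
  exact h1

omit [FiniteDimensional K V] in
/-- if the product of the `A_i - 1`, `2 ≤ i < N`, vanishes, then `(A_{N-1} - 1)^(N-2) = 0` -/
theorem unip_top {N : ℕ} {A B al be T : ℕ → G} {tau : G}
    (r : HRel N A B al be T tau) (h3N : 3 ≤ N) (ρ : G →* Module.End K V)
    (hz : ∀ l : List ℕ, l.Nodup → (∀ i, i ∈ l ↔ 2 ≤ i ∧ i < N) →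
      (l.map (fun i => ρ (A i) - 1)).prod = 0) :
    (ρ (A (N - 1)) - 1) ^ (N - 2) = 0 := by
  have key : ∀ h, h + 2 < N → (ρ (A (h + 2)) - 1) ^ (h + 1) * Xp ρ N A (h + 2) = 0 := by
    intro h
    induction h with
    | zero =>
      intro hh
      rw [zero_add, zero_add, pow_one, ← Xp_succ ρ N A 1 (by omega)]
      unfold Xp
      apply hz
      · exact List.nodup_range'
      · intro i
        rw [List.mem_range'_1]
        omega
    | succ h ih =>
      intro hh
      exact lstep r ρ (h + 1) (h + 1) (by omega) (ih (by omega))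
  have h1 := key (N - 3) (by omega)
  rw [show N - 3 + 2 = N - 1 by omega, show N - 3 + 1 = N - 2 by omega] at h1
  have h2 : Xp ρ N A (N - 1) = 1 := by
    unfold Xp
    rw [Nat.sub_self, List.range'_zero, List.map_nil, List.prod_nil]
  rwa [h2, mul_one] at h1

omit [FiniteDimensional K V] in
/-- if the product of the `A_i - 1`, `2 ≤ i < N`, vanishes, then `(A_0 - 1)^(N-2) = 0` -/
theorem unip_zero {N : ℕ} {A B al be T : ℕ → G} {tau : G}
    (r : HRel N A B al be T tau) (h3N : 3 ≤ N) (ρ : G →* Module.End K V)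
    (hz : ∀ l : List ℕ, l.Nodup → (∀ i, i ∈ l ↔ 2 ≤ i ∧ i < N) →
      (l.map (fun i => ρ (A i) - 1)).prod = 0) :
    (ρ (A 0) - 1) ^ (N - 2) = 0 := by
  have h1 := unip_top r h3N ρ hz
  obtain ⟨w, hw⟩ := conj_A r (N - 1) (by omega)
  have h5 : ρ w⁻¹ * ρ w = 1 := by rw [← map_mul, inv_mul_cancel, map_one]
  have h6 : ρ w * ρ w⁻¹ = 1 := by rw [← map_mul, mul_inv_cancel, map_one]
  have e1 : ρ (A 0) - 1 = ρ w⁻¹ * (ρ (A (N - 1)) - 1) * ρ w := by
    rw [mul_sub, sub_mul, mul_one, h5, ← map_mul, ← map_mul, hw]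
    congr 2
    group
  have e2 : ∀ m : ℕ, (ρ (A 0) - 1) ^ m = ρ w⁻¹ * (ρ (A (N - 1)) - 1) ^ m * ρ w := by
    intro m
    induction m with
    | zero => rw [pow_zero, pow_zero, mul_one, h5]
    | succ m ih =>
      rw [pow_succ, ih, e1, pow_succ]
      calc ρ w⁻¹ * (ρ (A (N - 1)) - 1) ^ m * ρ w * (ρ w⁻¹ * (ρ (A (N - 1)) - 1) * ρ w)
          = ρ w⁻¹ * (ρ (A (N - 1)) - 1) ^ m * (ρ w * ρ w⁻¹) * (ρ (A (N - 1)) - 1) * ρ w := by
            noncomm_ring
        _ = _ := by rw [h6]; noncomm_ring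
  rw [e2, h1, mul_zero, zero_mul]

end

end Pool.Agent.TH35.MG
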