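import Mathlib
import Pool.Agent.TH35.MG.Irr2

set_option autoImplicit false

/-! A twist that is close to a scalar kills the product of the `A_i - 1`. -/

namespace Pool.Agent.TH35.MG

open Pool.Agent.H798R3.MG Pool.Agent.Helper950.BG Module

universe u v

section
variable {K : Type u} [Field K] [IsAlgClosed K] {Γ : Type v} [Group Γ] {N : ℕ}
  {A B al be T : ℕ → Γ} {tau : Γ}

/-- level lemma on the range of `A_{N-1} - ζ` -/
theorem rank_lev {V : Type u} [AddCommGroup V] [Module K V] [FiniteDimensional K V]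
    (r : HRel N A B al be T tau) (h3 : 3 ≤ N) (ρ : Γ →* Module.End K V) (ζ : K)
    (hrk : finrank K (LinearMap.range (ρ (A (N - 1)) - ζ • (1 : Module.End K V))) < 2 ^ (N - 3))
    (l : List ℕ) (hnd : l.Nodup) (hl : ∀ i, i ∈ l ↔ 2 ≤ i ∧ i < N - 1) :
    (l.map (fun i => ρ (A i) - 1)).prod * (ρ (A (N - 1)) - ζ • (1 : Module.End K V)) = 0 := by
  set W := LinearMap.range (ρ (A (N - 1)) - ζ • (1 : Module.End K V)) with hW
  let C : Subgroup Γ := Subgroup.centralizer {A (N - 1)}
  have hC : ∀ x : Γ, Commute x (A (N - 1)) → x ∈ C := fun x hx =>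
    Subgroup.mem_centralizer_singleton_iff.2 hx
  classical
  let L : Γ → C := fun x => if h : x ∈ C then ⟨x, h⟩ else 1
  have hL : ∀ x ∈ C, (L x : Γ) = x := by
    intro x hx
    simp only [L]
    rw [dif_pos hx]
  have mA : ∀ i < N - 1, A i ∈ C := fun i hi => hC _ (r.commAA i (by omega) _ (by omega))
  have mB : ∀ i < N - 1, B i ∈ C := fun i hi =>
    hC _ (r.commAB _ (by omega) i (by omega) (by omega)).symm
  have mal : ∀ i < N - 1, al i ∈ C := fun i hi =>
    hC _ (r.commAal _ (by omega) i (by omega)).symm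
  have mbe : ∀ i < N - 1, be i ∈ C := fun i hi =>
    hC _ (r.commAbe _ (by omega) i (by omega) (by omega)).symm
  have mT : ∀ i, i + 1 < N - 1 → T i ∈ C := fun i hi =>
    hC _ (r.commTA i (by omega) _ (by omega))
  have mtau : tau ∈ C := hC _ (r.tauA _ (by omega))
  have r' : HRel (N - 1) (fun i => L (A i)) (fun i => L (B i)) (fun i => L (al i))
      (fun i => L (be i)) (fun i => L (T i)) (L tau) := by
    refine HRel.pull C.subtype C.subtype_injective ?_
    exact ((r.mono (by omega)).congr (fun i hi => hL _ (mA i hi)) (fun i hi => hL _ (mB i hi))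
      (fun i hi => hL _ (mal i hi)) (fun i hi => hL _ (mbe i hi))
      (fun i hi => hL _ (mT i hi))).tau_eq (hL _ mtau)
  have hinv : ∀ x : C, ∀ v ∈ W, (ρ.comp C.subtype) x v ∈ W := by
    rintro x v ⟨u, rfl⟩
    refine ⟨ρ (x : Γ) u, ?_⟩
    have hx : Commute (x : Γ) (A (N - 1)) := Subgroup.mem_centralizer_singleton_iff.1 x.2
    have h1 : Commute (ρ (x : Γ)) (ρ (A (N - 1)) - ζ • (1 : Module.End K V)) :=
      (hx.map ρ).sub_right ((Commute.one_right _).smul_right ζ)
    exact (LinearMap.congr_fun h1.eq u).symm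
  have hlen : l.length = N - 3 := by
    have h1 : l.toFinset = Finset.Ico 2 (N - 1) := by
      ext i
      rw [List.mem_toFinset, Finset.mem_Ico]
      exact hl i
    rw [← List.toFinset_card_of_nodup hnd, h1, Nat.card_Ico]
    omega
  have h0 := hlev_two r' (restr (ρ.comp C.subtype) W hinv) l hnd hl (by rw [hlen]; exact hrk)
  apply LinearMap.ext
  intro u
  rw [Module.End.mul_apply, LinearMap.zero_apply]
  have hw : (ρ (A (N - 1)) - ζ • (1 : Module.End K V)) u ∈ W := ⟨u, rfl⟩
  have h1 := restr_prod (ρ.comp C.subtype) W hinv (fun i => L (A i)) l ⟨_, hw⟩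
  rw [h0] at h1
  have h2 : (l.map (fun i => (ρ.comp C.subtype) (L (A i)) - 1)) =
      l.map (fun i => ρ (A i) - 1) := by
    apply List.map_congr_left
    intro i hi
    rw [MonoidHom.comp_apply]
    have : (C.subtype (L (A i)) : Γ) = A i := hL _ (mA i ((hl i).1 hi).2)
    rw [this]
  rw [h2] at h1
  exact h1.symm

/-- if `A_{N-1} - ζ` has rank `< 2^(N-3)`, the product of the `A_i - 1` vanishes -/
theorem pz_of_rank {V : Type u} [AddCommGroup V] [Module K V] [FiniteDimensional K V]
    (r : HRel N A B al be T tau) (h3 : 3 ≤ N) (ρ : Γ →* Module.End K V) (ζ : K)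
    (hrk : finrank K (LinearMap.range (ρ (A (N - 1)) - ζ • (1 : Module.End K V))) < 2 ^ (N - 3)) :
    PZ N A ρ := by
  refine hlev_one r (by omega) ρ ?_
  intro l hnd hl
  have hm : N - 1 ∈ l := (hl _).2 ⟨by omega, by omega⟩
  have hcomm : ∀ i ∈ l, ∀ j ∈ l, Commute (ρ (A i) - 1) (ρ (A j) - 1) := fun i hi j hj =>
    ((((r.commAA i ((hl i).1 hi).2 j ((hl j).1 hj).2).map ρ).sub_left
      (Commute.one_left _)).sub_right (Commute.one_right _))
  obtain ⟨l1, l2, rfl⟩ := List.append_of_mem hm
  have hnd1 := hnd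
  rw [List.nodup_append] at hnd1
  have hnd2 := List.nodup_cons.1 hnd1.2.1
  have hnot1 : N - 1 ∉ l1 := fun h => by
    have := List.disjoint_of_nodup_append hnd
    exact this h List.mem_cons_self
  have hl' : ∀ i, i ∈ l1 ++ l2 ↔ 2 ≤ i ∧ i < N - 1 := by
    intro i
    constructor
    · intro hi
      have h3 : i ∈ l1 ++ (N - 1) :: l2 := by
        rcases List.mem_append.1 hi with h | h
        · exact List.mem_append_left _ h
        · exact List.mem_append_right _ (List.mem_cons_of_mem _ h)
      have h4 : i ≠ N - 1 := by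
        intro h
        rw [h] at hi
        rcases List.mem_append.1 hi with h | h
        · exact hnot1 h
        · exact hnd2.1 h
      have := (hl i).1 h3
      omega
    · rintro ⟨h3, h4⟩
      have h5 := (hl i).2 ⟨h3, by omega⟩
      rcases List.mem_append.1 h5 with h | h
      · exact List.mem_append_left _ h
      · rcases List.mem_cons.1 h with h | h
        · omega
        · exact List.mem_append_right _ h
  have hnd' : (l1 ++ l2).Nodup := by
    rw [List.nodup_append]
    refine ⟨hnd1.1, hnd2.2, ?_⟩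
    intro a ha b hb
    exact hnd1.2.2 a ha b (List.mem_cons_of_mem _ hb)
  have h0 := rank_lev r h3 ρ ζ hrk (l1 ++ l2) hnd' hl'
  set X := ((l1 ++ l2).map (fun i => ρ (A i) - 1)).prod with hX
  -- elements commuting with the `A_i`, `2 ≤ i < N - 1`, commute with `X`
  have cX : ∀ x : Γ, (∀ i, 2 ≤ i → i < N - 1 → Commute x (A i)) → Commute (ρ x) X := by
    intro x hx
    refine commute_list _ _ _ ?_
    intro i hi
    obtain ⟨k1, k2⟩ := (hl' i).1 hi
    exact ((hx i k1 k2).map ρ).sub_right (Commute.one_right _)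
  have cA : Commute (ρ (A (N - 1))) X :=
    cX _ fun i _ hi => r.commAA _ (by omega) i (by omega)
  have cB : Commute (ρ (B (N - 1))) X :=
    cX _ fun i _ hi => (r.commAB i (by omega) _ (by omega) (by omega)).symm
  -- `A = ζ` on the range of `X`
  have hA : ρ (A (N - 1)) * X = ζ • X := by
    have h1 : (ρ (A (N - 1)) - ζ • (1 : Module.End K V)) * X = 0 := by
      have h2 : Commute (ρ (A (N - 1)) - ζ • (1 : Module.End K V)) X :=
        cA.sub_left ((Commute.one_left X).smul_left ζ)
      rw [h2.eq, h0]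
    rw [sub_mul, smul_mul_assoc, one_mul, sub_eq_zero] at h1
    exact h1
  -- `B = ζ` on the range of `X`
  have hB : ρ (B (N - 1)) * X = ζ • X := by
    set a := A (N - 1) with ha
    set b := B (N - 1) with hb
    have hbr : a * b * a = b * a * b := r.braidAB _ (by omega)
    have e1 : b = (a * b * a) * a * (a * b * a)⁻¹ := by
      have e2 : (a * b * a) * a = b * (a * b * a) := by
        conv_lhs => rw [hbr]
        group
      rw [e2]
      group
    have cR : Commute (ρ (a * b * a)) X := by
      rw [map_mul, map_mul]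
      exact (cA.mul_left cB).mul_left cA
    have cR' : Commute (ρ (a * b * a)⁻¹) X := by
      apply cX
      intro i _ hi
      exact (((r.commAA _ (by omega) i (by omega)).mul_left
        (r.commAB i (by omega) _ (by omega) (by omega)).symm).mul_left
        (r.commAA _ (by omega) i (by omega))).inv_left
    have h5 : ρ (a * b * a) * ρ (a * b * a)⁻¹ = 1 := by rw [← map_mul, mul_inv_cancel, map_one]
    have e3 : ρ b = ρ (a * b * a) * ρ a * ρ (a * b * a)⁻¹ := by
      rw [← map_mul, ← map_mul, ← e1]
    rw [e3, mul_assoc, cR'.eq, ← mul_assoc, mul_assoc (ρ (a * b * a)), hA, mul_smul_comm,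
      smul_mul_assoc, cR.eq, mul_assoc, h5, mul_one]
  have h6 := blk_on r ρ (p := N - 1) (by omega) (by omega) (LinearMap.range X) (by
    rintro x hx v ⟨u, rfl⟩
    refine ⟨ρ x u, ?_⟩
    have c := cX x fun i h2 hi => (hx i h2 (by omega) (by omega)).1
    exact (LinearMap.congr_fun c.eq u).symm) (by
    rintro v ⟨u, rfl⟩
    have k1 := LinearMap.congr_fun hA u
    have k2 := LinearMap.congr_fun hB u
    rw [Module.End.mul_apply] at k1 k2
    rw [k1, k2])
  have h7 : (ρ (A (N - 1)) - 1) * X = 0 := by
    apply LinearMap.ext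
    intro u
    rw [Module.End.mul_apply, LinearMap.sub_apply, Module.End.one_apply, LinearMap.zero_apply,
      sub_eq_zero]
    exact h6 _ ⟨u, rfl⟩
  rw [List.map_append, List.prod_append, List.map_cons, List.prod_cons]
  rw [hX, List.map_append, List.prod_append] at h7
  have hc : Commute ((l1.map (fun i => ρ (A i) - 1)).prod) (ρ (A (N - 1)) - 1) := by
    apply Commute.symm
    apply commute_list
    intro i hi
    exact hcomm (N - 1) hm i (List.mem_append_left _ hi)
  rw [← mul_assoc, hc.eq, mul_assoc, h7]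

end

end Pool.Agent.TH35.MG
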