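import Mathlib
import Pool.Agent.H29R2.MG.Surface

set_option autoImplicit false

/-! The Dehn twist about the first generator `a_0`, and words for representations. -/

namespace Pool.Agent.TH35.MG

open Pool.Agent.H29R2.MG Module

universe u v

/-- the values `a_i`, `b_i` (`i ≠ 0`), `b_0 a_0` on the generators of the surface group -/
def twistVal (g : ℕ) : Fin g ⊕ Fin g → SurfaceGroup g
  | Sum.inl i => gen (Sum.inl i)
  | Sum.inr i => if (i : ℕ) = 0 then gen (Sum.inr i) * gen (Sum.inl i) else gen (Sum.inr i)

/-- the value of the automorphism `τ` at `x` -/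
def applyAut (g : ℕ) (τ : orientedAut g) (x : SurfaceGroup g) : SurfaceGroup g := τ.1 x

/-- the mapping class of the automorphism `τ` -/
def classOf (g : ℕ) (τ : orientedAut g) : Mod g := QuotientGroup.mk τ

/-- `T` is the class of the automorphism `b_0 ↦ b_0 a_0` of the surface group, fixing the other
generators: the Dehn twist about `a_0` -/
def IsTwist (g : ℕ) (T : Mod g) : Prop :=
  ∃ τ : orientedAut g, classOf g τ = T ∧ ∀ j, applyAut g τ (gen j) = twistVal g j

/-- the matrix `M` satisfies `(M - 1) ^ m = 0` -/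
def UnipOfIndex {d : ℕ} {K : Type u} [Field K] (m : ℕ)
    (M : Matrix.GeneralLinearGroup (Fin d) K) : Prop :=
  ((M : Matrix (Fin d) (Fin d) K) - 1) ^ m = 0

/-- the matrix `M` is semisimple: its minimal polynomial is squarefree -/
def SemisimpleMat {d : ℕ} {K : Type u} [Field K]
    (M : Matrix.GeneralLinearGroup (Fin d) K) : Prop :=
  Squarefree (minpoly K (M : Matrix (Fin d) (Fin d) K))

/-- the complex matrix `M` is unitary -/
def UnitaryMat {d : ℕ} (M : Matrix.GeneralLinearGroup (Fin d) ℂ) : Prop :=
  (M : Matrix (Fin d) (Fin d) ℂ) ∈ Matrix.unitaryGroup (Fin d) ℂ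

section
variable {K : Type u} {V : Type u} {G : Type v} [Field K] [AddCommGroup V] [Module K V] [Group G]

/-- `W` is an invariant subspace -/
def InvSub (ρ : G →* Module.End K V) (W : Submodule K V) : Prop := ∀ x, ∀ v ∈ W, ρ x v ∈ W

/-- `W1 < W2` are invariant and there is no invariant subspace strictly between them: `W2 / W1` is
an irreducible constituent -/
def Constituent (ρ : G →* Module.End K V) (W1 W2 : Submodule K V) : Prop :=
  InvSub ρ W1 ∧ InvSub ρ W2 ∧ W1 < W2 ∧ ∀ W, InvSub ρ W → W1 ≤ W → W ≤ W2 → W = W1 ∨ W = W2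

/-- the dimension of the image of `φ(W2)` in `V / W1`: if `φ` maps `W1` to `W1` and `W2` to `W2`,
this is the rank of `φ` on `W2 / W1` -/
noncomputable def rankOn (φ : Module.End K V) (W1 W2 : Submodule K V) : ℕ :=
  finrank K (W1 ⊔ W2.map φ : Submodule K V) - finrank K W1

end

end Pool.Agent.TH35.MG
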