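import Mathlib
import Pool.Agent.TH35.MG.Fin
import Pool.Agent.TH35.MG.Low
import Pool.Agent.TH35.MG.Rk
import Pool.Agent.TH35.MG.TwDef

set_option autoImplicit false

/-! Small representations of `Mod_g`: unipotence, and the rank of a twist in a faithful
representation. -/

namespace Pool.Agent.TH35.MG

open Pool.Agent.H798R3.MG Pool.Agent.H29R2.MG Pool.Agent.H29R2.QD Pool.Agent.Helper950.BG Module

universe u

/-! ### matrices over `K` and endomorphisms over the algebraic closure -/

section
variable (d : ℕ) (K : Type u) [Field K]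

/-- a matrix over `K` as an endomorphism over the algebraic closure -/
noncomputable def phi' : Matrix (Fin d) (Fin d) K →+*
    Module.End (AlgebraicClosure K) (Fin d → AlgebraicClosure K) :=
  ((Matrix.toLinAlgEquiv' : Matrix (Fin d) (Fin d) (AlgebraicClosure K) ≃ₐ[AlgebraicClosure K] _) :
    Matrix (Fin d) (Fin d) (AlgebraicClosure K) →+* _).comp
  (RingHom.mapMatrix (algebraMap K (AlgebraicClosure K)))

theorem phi'_inj : Function.Injective (phi' d K) := by
  intro a b h
  have h1 : Matrix.toLinAlgEquiv' (a.map (algebraMap K (AlgebraicClosure K))) =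
    Matrix.toLinAlgEquiv' (b.map (algebraMap K (AlgebraicClosure K))) := h
  have h2 := Matrix.toLinAlgEquiv'.injective h1
  ext i j
  have h3 := congrFun (congrFun h2 i) j
  exact (algebraMap K (AlgebraicClosure K)).injective h3

theorem phi'_gl (x : Matrix.GeneralLinearGroup (Fin d) K) :
    phi' d K (x : Matrix (Fin d) (Fin d) K) = glEnd d K x := rfl

theorem phi'_smul (ζ : K) (M : Matrix (Fin d) (Fin d) K) :
    phi' d K (ζ • M) = (algebraMap K (AlgebraicClosure K) ζ) • phi' d K M := by
  have h1 : (ζ • M).map (algebraMap K (AlgebraicClosure K)) =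
      (algebraMap K (AlgebraicClosure K) ζ) • M.map (algebraMap K (AlgebraicClosure K)) := by
    ext i j
    simp only [Matrix.map_apply, Matrix.smul_apply, smul_eq_mul, map_mul]
  show Matrix.toLinAlgEquiv' ((ζ • M).map (algebraMap K (AlgebraicClosure K))) =
    (algebraMap K (AlgebraicClosure K) ζ) •
      Matrix.toLinAlgEquiv' (M.map (algebraMap K (AlgebraicClosure K)))
  rw [h1, map_smul]

/-- a matrix of rank `r` is a product of a `d × r` and an `r × d` matrix -/
theorem rank_fac (M : Matrix (Fin d) (Fin d) K) :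
    ∃ (P : Matrix (Fin d) (Fin M.rank) K) (Q : Matrix (Fin M.rank) (Fin d) K), M = P * Q := by
  let R := LinearMap.range M.mulVecLin
  let b : Basis (Fin M.rank) K R := Module.finBasisOfFinrankEq K R rfl
  refine ⟨Matrix.of (fun i k => (b k : Fin d → K) i),
    Matrix.of (fun k j => b.repr ⟨M.mulVecLin (Pi.single j 1), ⟨_, rfl⟩⟩ k), ?_⟩
  ext i j
  rw [Matrix.mul_apply]
  have h1 := b.sum_repr ⟨M.mulVecLin (Pi.single j 1), ⟨_, rfl⟩⟩
  have h2 := congrArg (fun z : R => (z : Fin d → K) i) h1
  simp only [Submodule.coe_sum, Submodule.coe_smul, Finset.sum_apply, Pi.smul_apply,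
    smul_eq_mul, Matrix.mulVecLin_apply, Matrix.mulVec_single_one, Matrix.col_apply] at h2
  rw [← h2]
  apply Finset.sum_congr rfl
  intro k _
  simp only [Matrix.of_apply]
  rw [mul_comm]
  simp only [Matrix.mulVecLin_apply, Matrix.mulVec_single_one]

/-- the rank does not grow over the algebraic closure -/
theorem rank_le (M : Matrix (Fin d) (Fin d) K) :
    finrank (AlgebraicClosure K) (LinearMap.range (phi' d K M)) ≤ M.rank := by
  obtain ⟨P, Q, h⟩ := rank_fac d K M
  have h1 : M.map (algebraMap K (AlgebraicClosure K)) =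
      P.map (algebraMap K (AlgebraicClosure K)) * Q.map (algebraMap K (AlgebraicClosure K)) := by
    conv_lhs => rw [h]
    rw [Matrix.map_mul]
  have h2 : finrank (AlgebraicClosure K) (LinearMap.range (phi' d K M)) =
      (M.map (algebraMap K (AlgebraicClosure K))).rank := rfl
  rw [h2, h1]
  calc (P.map (algebraMap K (AlgebraicClosure K)) *
        Q.map (algebraMap K (AlgebraicClosure K))).rank
      ≤ (P.map (algebraMap K (AlgebraicClosure K))).rank := Matrix.rank_mul_le_left _ _
    _ ≤ M.rank := by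
      have := Matrix.rank_le_width (P.map (algebraMap K (AlgebraicClosure K)))
      simpa using this

end

/-! ### the twist -/

theorem sA_gen {g : ℕ} (hg : 5 ≤ g) (w : FG g) :
    ((sA g 0 : orSub g) : MulAut (FG g)) w = hA g 0 w := by
  have c : Ctx g 2 4 := ⟨le_refl _, le_refl _, by omega⟩
  have h1 := ((whyp.k g 2 4 c.h2 c.hN c.hg).1 0 (by omega)).1
  exact mkS_apply h1 w

theorem twist_val {g : ℕ} (hg : 5 ≤ g) (τ : orientedAut g)
    (h : ∀ j, applyAut g τ (gen j) = twistVal g j) (w : FG g) :
    (τ : MulAut (SurfaceGroup g)) (mk g w) = mk g (hA g 0 w) := by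
  have h1 : (((τ : MulAut (SurfaceGroup g)) : SurfaceGroup g →* SurfaceGroup g)).comp (mk g) =
      (mk g).comp (hA g 0) := by
    apply FreeGroup.ext_hom
    intro z
    rw [MonoidHom.comp_apply, MonoidHom.comp_apply]
    have h2 : (τ : MulAut (SurfaceGroup g)) (mk g (FreeGroup.of z)) = twistVal g z := h z
    refine h2.trans ?_
    rcases z with i | i
    · have e : hA g 0 (FreeGroup.of (Sum.inl i)) = FreeGroup.of (Sum.inl i) := by
        unfold hA ends
        rw [FreeGroup.lift_apply_of]
        rfl
      rw [e]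
      rfl
    · have e : hA g 0 (FreeGroup.of (Sum.inr i)) = if (i : ℕ) = 0 then
          FreeGroup.of (Sum.inr i) * ha g 0 else FreeGroup.of (Sum.inr i) := by
        unfold hA ends
        rw [FreeGroup.lift_apply_of]
        rfl
      rw [e]
      show (if (i : ℕ) = 0 then _ else _) = _
      by_cases hi : (i : ℕ) = 0
      · rw [if_pos hi, if_pos hi, map_mul]
        have e2 : ha g 0 = FreeGroup.of (Sum.inl i) := by
          unfold ha
          rw [dif_pos (by omega : 0 < g)]
          unfold fa
          congr 2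
          exact Fin.ext hi.symm
        rw [e2]
        rfl
      · rw [if_neg hi, if_neg hi]
        rfl
  exact DFunLike.congr_fun h1 w

theorem twist_eq {g : ℕ} (hg : 5 ≤ g) (T : Mod g) (h : IsTwist g T) :
    T = modF g (sA g 0) := by
  obtain ⟨τ, rfl, h⟩ := h
  have e : τ = TQ.qh g (sA g 0) := by
    apply Subtype.ext
    apply MulEquiv.ext
    intro y
    obtain ⟨w, rfl⟩ := mk_surjective g y
    rw [twist_val hg τ h w]
    show _ = TQ.qe (sA g 0) (mk g w)
    rw [TQ.qe_mk, sA_gen hg]
  rw [e]
  rfl

/-- the twist exists -/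
theorem twist_exists {g : ℕ} (hg : 5 ≤ g) : ∃ T : Mod g, IsTwist g T := by
  refine ⟨_, TQ.qh g (sA g 0), rfl, ?_⟩
  intro j
  show TQ.qe (sA g 0) (mk g (FreeGroup.of j)) = _
  rw [TQ.qe_mk, sA_gen hg]
  rcases j with i | i
  · have e : hA g 0 (FreeGroup.of (Sum.inl i)) = FreeGroup.of (Sum.inl i) := by
      unfold hA ends
      rw [FreeGroup.lift_apply_of]
      rfl
    rw [e]
    rfl
  · have e : hA g 0 (FreeGroup.of (Sum.inr i)) = if (i : ℕ) = 0 then
        FreeGroup.of (Sum.inr i) * ha g 0 else FreeGroup.of (Sum.inr i) := by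
      unfold hA ends
      rw [FreeGroup.lift_apply_of]
      rfl
    rw [e]
    show _ = (if (i : ℕ) = 0 then _ else _)
    by_cases hi : (i : ℕ) = 0
    · rw [if_pos hi, if_pos hi, map_mul]
      have e2 : ha g 0 = FreeGroup.of (Sum.inl i) := by
        unfold ha
        rw [dif_pos (by omega : 0 < g)]
        unfold fa
        congr 2
        exact Fin.ext hi.symm
      rw [e2]
      rfl
    · rw [if_neg hi, if_neg hi]
      rfl

/-! ### small representations: the twist is unipotent -/

theorem twist_unip {g m d : ℕ} (hg : m + 5 ≤ g) (hd : d < 2 ^ m) (T0 : Mod g)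
    (hτ : IsTwist g T0) (K : Type u) [Field K] (f : Mod g →* Matrix.GeneralLinearGroup (Fin d) K) :
    ((f T0 : Matrix (Fin d) (Fin d) K) - 1) ^ m = 0 := by
  rcases Nat.eq_zero_or_pos m with rfl | hm
  · rw [pow_zero] at hd
    have : d = 0 := by omega
    subst this
    exact Subsingleton.elim _ _
  obtain ⟨Γ, A, B, al, be, T, tau, r, -, hA, -, -, -, -⟩ :=
    setup (g := g) (N := m + 2) (by omega) (by omega)
  have h1 := unip_zero r (by omega)
    ((((glEnd d K).comp f).comp (modF g)).comp Γ.subtype) (by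
      intro l hnd hl
      refine hlev_two r _ l hnd hl ?_
      have hlen : l.length = m := by
        have h1 : l.toFinset = Finset.Ico 2 (m + 2) := by
          ext i
          rw [List.mem_toFinset, Finset.mem_Ico]
          exact hl i
        rw [← List.toFinset_card_of_nodup hnd, h1, Nat.card_Ico]
        omega
      rw [hlen]
      simpa using hd)
  have h2 : (((glEnd d K).comp f).comp (modF g)).comp Γ.subtype (A 0) =
      phi' d K (f T0 : Matrix (Fin d) (Fin d) K) := by
    rw [phi'_gl, MonoidHom.comp_apply, MonoidHom.comp_apply, MonoidHom.comp_apply,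
      twist_eq (by omega) T0 hτ]
    congr 3
    exact hA 0 (by omega)
  apply phi'_inj d K
  rw [map_zero, map_pow, map_sub, map_one, ← h2]
  exact h1

open scoped ComplexOrder in
/-- a Hermitian nilpotent matrix vanishes -/
theorem herm_nil {d : ℕ} (k : ℕ) : ∀ H : Matrix (Fin d) (Fin d) ℂ, H.IsHermitian →
    H ^ (2 ^ k) = 0 → H = 0 := by
  induction k with
  | zero =>
    intro H _ h
    rwa [pow_zero, pow_one] at h
  | succ k ih =>
    intro H hH h
    have h1 : H ^ 2 ^ k * H ^ 2 ^ k = 0 := by
      rw [← pow_add, ← two_mul, ← pow_succ']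
      exact h
    have h2 : (H ^ 2 ^ k).IsHermitian := hH.pow _
    refine ih H hH ?_
    have h3 : (H ^ 2 ^ k).conjTranspose * H ^ 2 ^ k = 0 := by rw [h2.eq]; exact h1
    exact Matrix.conjTranspose_mul_self_eq_zero.1 h3

open scoped ComplexOrder in
/-- a unitary unipotent matrix is the identity -/
theorem unitary_unip {d m : ℕ} (U : Matrix (Fin d) (Fin d) ℂ)
    (hU : U ∈ Matrix.unitaryGroup (Fin d) ℂ) (h : (U - 1) ^ m = 0) : U = 1 := by
  have h1 : star U * U = 1 := Matrix.mem_unitaryGroup_iff'.1 hU
  have h2 : U * star U = 1 := Matrix.mem_unitaryGroup_iff.1 hU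
  set M := U - 1 with hM
  have hs : M.conjTranspose = star U - 1 := by
    rw [hM, Matrix.conjTranspose_sub, Matrix.conjTranspose_one]
    rfl
  have hc : Commute M.conjTranspose M := by
    show M.conjTranspose * M = M * M.conjTranspose
    rw [hs, hM]
    rw [sub_mul, mul_sub, mul_sub, sub_mul, mul_sub, mul_sub, h1, h2]
    simp only [mul_one, one_mul]
    abel
  have h3 : (M.conjTranspose * M) ^ (2 ^ m) = 0 := by
    rw [hc.mul_pow]
    have h4 : M ^ (2 ^ m) = 0 := by
      have h5 : m ≤ 2 ^ m := Nat.lt_two_pow_self.le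
      rw [← Nat.sub_add_cancel h5, pow_add, h, mul_zero]
    rw [h4, mul_zero]
  have h6 := herm_nil m _ (Matrix.isHermitian_conjTranspose_mul_self M) h3
  have h7 : M = 0 := Matrix.conjTranspose_mul_self_eq_zero.1 h6
  rw [hM] at h7
  exact sub_eq_zero.1 h7

/-- a semisimple unipotent matrix is the identity -/
theorem semisimple_unip {d m : ℕ} {K : Type u} [Field K] (U : Matrix (Fin d) (Fin d) K)
    (hU' : Squarefree (minpoly K U)) (h : (U - 1) ^ m = 0) : U = 1 := by
  have hU : Module.End.IsSemisimple (Matrix.toLin' U) := by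
    refine Module.End.isSemisimple_of_squarefree_aeval_eq_zero hU' ?_
    rw [← Matrix.minpoly_toLin']
    exact minpoly.aeval _ _
  have h1 : Module.End.IsSemisimple
      (Matrix.toLin' U - algebraMap K (Module.End K (Fin d → K)) 1) :=
    Module.End.isSemisimple_sub_algebraMap_iff.2 hU
  have h2 : Matrix.toLin' U - algebraMap K (Module.End K (Fin d → K)) 1 =
      Matrix.toLinAlgEquiv' (U - 1) := by
    rw [map_sub, map_one, map_one]
    rfl
  have h3 : IsNilpotent (Matrix.toLinAlgEquiv' (U - 1) : Module.End K (Fin d → K)) := by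
    refine ⟨m, ?_⟩
    rw [← map_pow, h, map_zero]
  rw [h2] at h1
  have h4 := Module.End.eq_zero_of_isNilpotent_isSemisimple h3 h1
  have h5 : U - 1 = 0 := by
    apply Matrix.toLinAlgEquiv'.injective
    rw [h4, map_zero]
  exact sub_eq_zero.1 h5

/-! ### faithful representations: the rank of the twist -/

theorem twist_rank {g d : ℕ} (hg : 6 ≤ g) (T0 : Mod g) (hτ : IsTwist g T0) (K : Type u)
    [Field K] (f : Mod g →* Matrix.GeneralLinearGroup (Fin d) K) (hf : Function.Injective f)
    (ζ : K) : 2 ^ (g - 6) ≤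
      ((f T0 : Matrix (Fin d) (Fin d) K) - ζ • (1 : Matrix (Fin d) (Fin d) K)).rank := by
  by_contra hlt
  push Not at hlt
  obtain ⟨Γ, A, B, al, be, T, tau, r, hgen, hA, -, -, -, hx⟩ :=
    setup (g := g) (N := g - 3) (by omega) (by omega)
  set ρ := (((glEnd d K).comp f).comp (modF g)).comp Γ.subtype with hρ
  have h2 : ρ (A 0) = phi' d K (f T0 : Matrix (Fin d) (Fin d) K) := by
    rw [phi'_gl, hρ, MonoidHom.comp_apply, MonoidHom.comp_apply, MonoidHom.comp_apply,
      twist_eq (by omega) T0 hτ]
    congr 3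
    exact hA 0 (by omega)
  set z := algebraMap K (AlgebraicClosure K) ζ with hz
  have h3 : finrank (AlgebraicClosure K) (LinearMap.range (ρ (A 0) - z •
      (1 : Module.End (AlgebraicClosure K) (Fin d → AlgebraicClosure K)))) < 2 ^ (g - 6) := by
    refine lt_of_le_of_lt ?_ hlt
    have h4 := rank_le d K ((f T0 : Matrix (Fin d) (Fin d) K) -
      ζ • (1 : Matrix (Fin d) (Fin d) K))
    rwa [map_sub, phi'_smul, map_one, ← h2] at h4
  obtain ⟨w, hw⟩ := conj_A r (g - 3 - 1) (by omega)
  have h5 : finrank (AlgebraicClosure K) (LinearMap.range (ρ (A (g - 3 - 1)) - z •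
      (1 : Module.End (AlgebraicClosure K) (Fin d → AlgebraicClosure K)))) < 2 ^ (g - 3 - 3) := by
    refine lt_of_le_of_lt ?_ (by rwa [show g - 3 - 3 = g - 6 by omega])
    have e1 : ρ (A (g - 3 - 1)) - z •
        (1 : Module.End (AlgebraicClosure K) (Fin d → AlgebraicClosure K)) =
        ρ w * (ρ (A 0) - z •
          (1 : Module.End (AlgebraicClosure K) (Fin d → AlgebraicClosure K))) * ρ w⁻¹ := by
      have e2 : ρ w * ρ w⁻¹ = 1 := by rw [← map_mul, mul_inv_cancel, map_one]
      rw [mul_sub, sub_mul, mul_smul_comm, mul_one, smul_mul_assoc, e2, ← map_mul, ← map_mul,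
        ← hw]
    rw [e1]
    have e3 : LinearMap.range (ρ w * (ρ (A 0) - z •
          (1 : Module.End (AlgebraicClosure K) (Fin d → AlgebraicClosure K))) * ρ w⁻¹) ≤
        (LinearMap.range (ρ (A 0) - z •
          (1 : Module.End (AlgebraicClosure K) (Fin d → AlgebraicClosure K)))).map (ρ w) := by
      rintro v ⟨u, rfl⟩
      exact ⟨_, ⟨ρ w⁻¹ u, rfl⟩, rfl⟩
    exact (Submodule.finrank_mono e3).trans (Submodule.finrank_map_le _ _)
  have hpz := pz_of_rank r (by omega) ρ z h5
  obtain ⟨x, hxd, hx2⟩ := hx (finrank (AlgebraicClosure K) (Fin d → AlgebraicClosure K))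
  have h6 := solvable_pz r (by omega) hgen _ _ ρ hpz le_rfl hxd
  apply hx2
  apply modF_ker
  apply hf
  rw [map_one]
  apply glEnd_inj d K
  rw [map_one]
  rw [MonoidHom.mem_ker] at h6
  exact h6

/-! ### the pushes -/

theorem dser_map {G H : Type*} [Group G] [Group H] (φ : G →* H) (P : Subgroup G) (k : ℕ) :
    dser (P.map φ) k = (dser P k).map φ := by
  induction k with
  | zero => rfl
  | succ k ih =>
    show ⁅dser (P.map φ) k, dser (P.map φ) k⁆ = (⁅dser P k, dser P k⁆).map φ
    rw [ih, Subgroup.map_commutator]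

theorem dser_sub {G : Type*} [Group G] (P : Subgroup G) (k : ℕ) :
    (derivedSeries P k).map P.subtype = dser P k := by
  induction k with
  | zero =>
    rw [derivedSeries_zero]
    show (⊤ : Subgroup P).map P.subtype = P
    rw [← MonoidHom.range_eq_map, Subgroup.range_subtype]
  | succ k ih =>
    rw [derivedSeries_succ, Subgroup.map_commutator, ih]
    rfl

/-- a non-solvable group of mapping classes which is unipotent in all small representations -/
theorem unip_group {g : ℕ} (hg : 5 ≤ g) :
    ∃ P : Subgroup (Mod g), ¬ Group.IsSolvable P ∧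
      (∀ (K : Type u) [Field K] (d : ℕ) (f : Mod g →* Matrix.GeneralLinearGroup (Fin d) K),
        d < 2 ^ (g - 5) → ∀ l : List (Mod g), (∀ x ∈ l, x ∈ P) → d ≤ l.length →
          (l.map (fun x => (f x : Matrix (Fin d) (Fin d) K) - 1)).prod = 0) ∧
      ∃ x ∈ P, x ≠ 1 ∧
        ∀ (K : Type u) [Field K] (d : ℕ) (f : Mod g →* Matrix.GeneralLinearGroup (Fin d) K),
          d < 2 ^ (g - 5) → f x = 1 := by
  obtain ⟨Γ, A, B, al, be, T, tau, r, hgen, -, -, -, -, hx⟩ :=
    setup (g := g) (N := g - 3) (by omega) (by omega)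
  set φ : Γ →* Mod g := (modF g).comp Γ.subtype with hφ
  have hxx : ∀ k, ∃ x ∈ dser (PiT (g - 3) al be tau) k, φ x ≠ 1 := by
    intro k
    obtain ⟨x, h1, h2⟩ := hx k
    exact ⟨x, h1, fun h => h2 (modF_ker h)⟩
  refine ⟨(PiT (g - 3) al be tau).map φ, ?_, ?_, ?_⟩
  · rintro ⟨n, hn⟩
    obtain ⟨x, h1, h2⟩ := hxx n
    apply h2
    have h3 : φ x ∈ dser ((PiT (g - 3) al be tau).map φ) n := by
      rw [dser_map]
      exact Subgroup.mem_map_of_mem φ h1
    rw [← dser_sub, hn, Subgroup.map_bot] at h3
    exact Subgroup.mem_bot.1 h3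
  · intro K _ d f hd l hl hlen
    have hpz : PZ (g - 3) A ((((glEnd d K).comp f).comp (modF g)).comp Γ.subtype) :=
      hlev_dim r (by omega) _ (by
        rw [show g - 3 - 2 = g - 5 by omega]
        simpa using hd)
    -- lift the list
    have hlift : ∀ l : List (Mod g), (∀ x ∈ l, x ∈ (PiT (g - 3) al be tau).map φ) →
        ∃ l' : List Γ, (∀ x ∈ l', x ∈ PiT (g - 3) al be tau) ∧ l'.map φ = l := by
      intro l
      induction l with
      | nil =>
        intro _
        exact ⟨[], fun x hx => by simp at hx, rfl⟩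
      | cons y l ih =>
        intro h
        obtain ⟨l', h1, h2⟩ := ih fun x hx => h x (List.mem_cons_of_mem _ hx)
        obtain ⟨x, hx1, hx2⟩ := h y List.mem_cons_self
        refine ⟨x :: l', ?_, ?_⟩
        · intro z hz
          rcases List.mem_cons.1 hz with rfl | hz
          · exact hx1
          · exact h1 z hz
        · rw [List.map_cons, hx2, h2]
    obtain ⟨l', h1, rfl⟩ := hlift l hl
    rw [List.length_map] at hlen
    have h2 := nil_pz r (by omega) hgen d (Fin d → AlgebraicClosure K)
      ((((glEnd d K).comp f).comp (modF g)).comp Γ.subtype) hpz (by simp) l' h1 hlen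
    apply phi'_inj d K
    rw [map_zero, map_list_prod, List.map_map, List.map_map]
    have h3 : ((phi' d K : Matrix (Fin d) (Fin d) K → _) ∘
        (fun x => (f x : Matrix (Fin d) (Fin d) K) - 1)) ∘ φ =
        fun x => (((glEnd d K).comp f).comp (modF g)).comp Γ.subtype x - 1 := by
      funext x
      simp only [Function.comp_apply]
      rw [map_sub, map_one, phi'_gl]
      rfl
    rw [h3]
    exact h2
  · obtain ⟨x, h1, h2⟩ := hxx (2 ^ (g - 5))
    refine ⟨φ x, ?_, h2, ?_⟩
    · have h3 : dser (PiT (g - 3) al be tau) (2 ^ (g - 5)) ≤ PiT (g - 3) al be tau :=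
        T5.dser_anti _ (Nat.zero_le _)
      exact Subgroup.mem_map_of_mem φ (h3 h1)
    · intro K _ d f hd
      have h4 := solvable_std (K := AlgebraicClosure K) r (by omega) hgen (2 ^ (g - 5))
        (Fin d → AlgebraicClosure K) ((((glEnd d K).comp f).comp (modF g)).comp Γ.subtype)
        (by
          rw [show g - 3 - 2 = g - 5 by omega]
          simpa using hd) (by simpa using hd.le) h1
      rw [MonoidHom.mem_ker] at h4
      apply glEnd_inj d K
      rw [map_one]
      exact h4

end Pool.Agent.TH35.MG
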